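import Pool.Agent.Helper703.KL.Cells

set_option autoImplicit false

namespace Pool.Agent.Helper703.KL

open LaurentPolynomial Module

variable {B : Type*} {M : CoxeterMatrix B} {W : Type*} [Group W] {cs : CoxeterSystem M W}
variable {H : Type*} [Ring H] [Algebra A H] {T C : Basis W A H} {bar : H →+* H}

lemma step_of_theta {i : B} {x y : W} (hne : y ≠ x)
    (h : C.repr (theta (opL cs T) i (C x)) y ≠ 0) : LStep cs T C y x := by
  classical
  refine ⟨i, ?_⟩
  intro h0
  apply h
  rw [theta_apply, opL_apply, map_add, map_smul, map_smul, Finsupp.add_apply, Finsupp.smul_apply,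
    Finsupp.smul_apply, h0, Basis.repr_self, Finsupp.single_apply, if_neg (Ne.symm hne), smul_zero,
    add_zero]

lemma step_up (hT : IsHecke cs T) (hb : IsBar cs T bar) (hC : IsKLBasis cs T bar C)
    {k : B} {u : W} (hu : cs.length u < cs.length (cs.simple k * u)) :
    LStep cs T C (cs.simple k * u) u := by
  classical
  have hne : cs.simple k * u ≠ u := by
    intro h; rw [h] at hu; omega
  apply step_of_theta (i := k) hne
  rw [(isKL_L hC).theta_up (klModL hT hb) k u hu, map_add, Finsupp.add_apply, Basis.repr_self,
    Finsupp.single_apply, if_pos rfl, map_sum, Finsupp.finsetSum_apply, Finset.sum_eq_zero]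
  · rw [add_zero]; exact one_ne_zero
  · intro z hz
    rw [map_zsmul, Finsupp.smul_apply, Basis.repr_self, Finsupp.single_apply, if_neg, smul_zero]
    rintro rfl
    rcases (isKL_L hC).supp (klModL hT hb) _ _ (mem_muSet.1 hz).1 with h | h
    · exact hne h
    · omega

lemma step_down (hT : IsHecke cs T) (hb : IsBar cs T bar) (hC : IsKLBasis cs T bar C)
    {k k' : B} {u : W} (hu : cs.length u < cs.length (cs.simple k * u))
    (h1 : cs.length (cs.simple k' * u) < cs.length u)
    (h2 : cs.length (cs.simple k * u) < cs.length (cs.simple k' * (cs.simple k * u))) :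
    LStep cs T C u (cs.simple k * u) := by
  classical
  have hne : u ≠ cs.simple k * u := by
    intro h; rw [← h] at hu; omega
  have hmu := (isKL_L hC).mu_down (klModL hT hb) k (cs.simple k * u) u
    (by rw [simple_simple]; exact hu) hu
  rw [if_pos rfl] at hmu
  apply step_of_theta (i := k') hne
  rw [(isKL_L hC).theta_up (klModL hT hb) k' _ h2, map_add, Finsupp.add_apply, Basis.repr_self,
    Finsupp.single_apply, if_neg, zero_add, map_sum, Finsupp.finsetSum_apply,
    Finset.sum_eq_single u]
  · rw [map_zsmul, Finsupp.smul_apply, Basis.repr_self, Finsupp.single_apply, if_pos rfl, hmu,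
      one_smul]
    exact one_ne_zero
  · intro z _ hzu
    rw [map_zsmul, Finsupp.smul_apply, Basis.repr_self, Finsupp.single_apply, if_neg hzu,
      smul_zero]
  · intro hu'
    exfalso
    apply hu'
    rw [mem_muSet]
    refine ⟨?_, h1⟩
    intro h0
    rw [mu, h0, coeff_zero] at hmu
    exact absurd hmu (by norm_num)
  · intro h
    rw [h] at h2
    omega

/-- the left star operation stays in the left cell -/
theorem LEq.left_star (hT : IsHecke cs T) (hb : IsBar cs T bar) (hC : IsKLBasis cs T bar C)
    {k k' : B} {u : W} (hu : cs.length u < cs.length (cs.simple k * u))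
    (h1 : cs.length (cs.simple k' * u) < cs.length u)
    (h2 : cs.length (cs.simple k * u) < cs.length (cs.simple k' * (cs.simple k * u))) :
    LEq cs T C (cs.simple k * u) u :=
  ⟨Relation.ReflTransGen.single (step_up hT hb hC hu),
    Relation.ReflTransGen.single (step_down hT hb hC hu h1 h2)⟩

end Pool.Agent.Helper703.KL
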