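import Pool.Agent.Helper703.KL.Cox
import Pool.Agent.Helper703.KL.LeftSteps

set_option autoImplicit false

namespace Pool.Agent.Helper703.KL

open LaurentPolynomial Module Pool.Agent.Helper703.Cox

variable {B : Type*} {M : CoxeterMatrix B} {W : Type*} [Group W] (cs : CoxeterSystem M W)

variable {cs}

lemma BLe.length {z y : W} (h : BLe cs z y) : z = y ∨ cs.length z < cs.length y := by
  induction h with
  | refl => exact Or.inl rfl
  | tail _ h2 ih =>
    obtain ⟨t, _, _, h3⟩ := h2
    rcases ih with rfl | h4
    · exact Or.inr h3
    · exact Or.inr (h4.trans h3)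

lemma invc_refl {t : W} (ht : cs.IsReflection t) : (invc cs t).v t = 1 := by
  classical
  obtain ⟨u, i, htt⟩ := ht
  have h1 : (invc cs (u * u⁻¹)).v t = 0 := by
    rw [mul_inv_cancel, map_one]; rfl
  rw [map_mul (invc cs) u u⁻¹, TExt.mul_v, Finsupp.add_apply, TExt.act_apply, invc_w] at h1
  have e1 : u⁻¹ * t * u = cs.simple i := by rw [htt]; group
  rw [e1] at h1
  have h2 : (invc cs (u * cs.simple i * u⁻¹)).v t
      = (invc cs u).v t + (1 + (invc cs u⁻¹).v (cs.simple i)) := by
    rw [map_mul (invc cs) (u * cs.simple i) u⁻¹, map_mul (invc cs) u (cs.simple i), TExt.mul_v,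
      TExt.mul_v, TExt.mul_w, invc_w, invc_w, Finsupp.add_apply,
      Finsupp.add_apply, TExt.act_apply, TExt.act_apply, invc_simple, TExt.el_v]
    have e2 : (u * cs.simple i)⁻¹ * t * (u * cs.simple i) = cs.simple i := by
      rw [htt]
      group
    rw [e1, e2, Finsupp.single_eq_same, add_assoc]
  rw [← htt] at h2
  rw [h2]
  linear_combination h1

lemma invc_iff {t : W} (ht : cs.IsReflection t) (w : W) :
    (invc cs w).v t ≠ 0 ↔ cs.length (t * w) < cs.length w := by
  classical
  have key : ∀ w : W, (invc cs w).v t ≠ 0 → cs.length (t * w) < cs.length w := by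
    intro w h
    obtain ⟨ω, hω, rfl⟩ := cs.exists_isReduced w
    exact (cs.isLeftInversion_of_mem_leftInvSeq hω (mem_leftInvSeq_of_invc cs ω t h)).2
  refine ⟨key w, ?_⟩
  intro h h0
  have h1 : (invc cs (t * w)).v t ≠ 0 := by
    rw [map_mul (invc cs) t w, TExt.mul_v, Finsupp.add_apply, TExt.act_apply, invc_w,
      invc_refl ht]
    have : t⁻¹ * t * t = t := by group
    rw [this, h0, add_zero]
    exact one_ne_zero
  have h2 := key _ h1
  rw [← mul_assoc, ht.mul_self, one_mul] at h2
  omega

lemma refl_shift {t : W} (ht : cs.IsReflection t) (i : B) (hne : t ≠ cs.simple i) (w : W)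
    (h : cs.length (cs.simple i * t * cs.simple i * (cs.simple i * w))
      < cs.length (cs.simple i * w)) :
    cs.length (t * w) < cs.length w := by
  classical
  have ht' : cs.IsReflection (cs.simple i * t * cs.simple i) := by
    have := ht.conj (cs.simple i)
    rwa [cs.inv_simple] at this
  rw [← invc_iff ht]
  rw [← invc_iff ht', map_mul (invc cs) (cs.simple i) w, TExt.mul_v, Finsupp.add_apply, TExt.act_apply, invc_w, invc_simple,
    TExt.el_v, Finsupp.single_apply, if_neg, zero_add] at h
  · have : (cs.simple i)⁻¹ * (cs.simple i * t * cs.simple i) * cs.simple i = t := by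
      rw [cs.inv_simple]
      simp only [mul_assoc, cs.simple_mul_simple_self, mul_one]
      rw [← mul_assoc, cs.simple_mul_simple_self, one_mul]
    rwa [this] at h
  · intro h2
    apply hne
    have h3 : cs.simple i * (cs.simple i * t * cs.simple i) * cs.simple i
        = cs.simple i * cs.simple i * cs.simple i := by rw [← h2]
    simp only [mul_assoc, cs.simple_mul_simple_self, mul_one] at h3
    rw [← mul_assoc, cs.simple_mul_simple_self, one_mul] at h3
    simpa using h3

lemma BLe.simple_step (i : B) {w : W} (h : cs.length w < cs.length (cs.simple i * w)) :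
    BLe cs w (cs.simple i * w) :=
  Relation.ReflTransGen.single ⟨cs.simple i, cs.isReflection_simple i, rfl, h⟩

/-- lifting property for one step -/
lemma BLe.lift_step (i : B) {z z1 : W} {t : W} (ht : cs.IsReflection t) (h1 : z1 = t * z)
    (h2 : cs.length z < cs.length z1) :
    BLe cs (cs.simple i * z) z1 ∨ BLe cs (cs.simple i * z) (cs.simple i * z1) := by
  rcases lt_or_gt_of_ne (len_ne (cs := cs) i z) with h3 | h3
  · left
    have h4 : BLe cs (cs.simple i * z) z := by
      have := BLe.simple_step (cs := cs) i (w := cs.simple i * z) (by rwa [simple_simple])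
      rwa [simple_simple] at this
    exact h4.trans (Relation.ReflTransGen.single ⟨t, ht, h1, h2⟩)
  · by_cases hti : t = cs.simple i
    · left
      rw [h1, hti]
      exact Relation.ReflTransGen.refl
    · right
      have ht' : cs.IsReflection (cs.simple i * t * cs.simple i) := by
        have := ht.conj (cs.simple i)
        rwa [cs.inv_simple] at this
      have e : cs.simple i * z1 = cs.simple i * t * cs.simple i * (cs.simple i * z) := by
        rw [h1]
        simp only [mul_assoc]
        rw [simple_simple]
      have h5 : cs.length (cs.simple i * z) < cs.length (cs.simple i * z1) := by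
        by_contra hcon
        have h6 : cs.length (cs.simple i * z1) ≠ cs.length (cs.simple i * z) := by
          rw [e]
          exact ht'.length_mul_right_ne _
        have h7 := refl_shift ht i hti z (by rw [← e]; omega)
        rw [← h1] at h7
        omega
      exact Relation.ReflTransGen.single ⟨_, ht', e, h5⟩

open Classical in
/-- the Demazure product of a simple reflection with an element -/
noncomputable def dmax (cs : CoxeterSystem M W) (i : B) (y : W) : W :=
  if cs.length y < cs.length (cs.simple i * y) then cs.simple i * y else y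

lemma dmax_self (i : B) (y : W) : BLe cs y (dmax cs i y) := by
  rw [dmax]
  split_ifs with h
  · exact BLe.simple_step i h
  · exact Relation.ReflTransGen.refl

lemma dmax_simple (i : B) (y : W) : BLe cs (cs.simple i * y) (dmax cs i y) := by
  rw [dmax]
  split_ifs with h
  · exact Relation.ReflTransGen.refl
  · have h1 := len_ne (cs := cs) i y
    have := BLe.simple_step (cs := cs) i (w := cs.simple i * y) (by rw [simple_simple]; omega)
    rwa [simple_simple] at this

lemma BLe.lift (i : B) {z y : W} (h : BLe cs z y) :
    BLe cs z (dmax cs i y) ∧ BLe cs (cs.simple i * z) (dmax cs i y) := by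
  refine ⟨h.trans (dmax_self i y), ?_⟩
  induction h using Relation.ReflTransGen.head_induction_on with
  | refl => exact dmax_simple i y
  | head h1 h2 ih =>
    obtain ⟨t, ht, e, hlt⟩ := h1
    rcases BLe.lift_step i ht e hlt with h3 | h3
    · exact h3.trans (Relation.ReflTransGen.trans h2 (dmax_self i y))
    · exact h3.trans ih

lemma dmax_descent (i : B) (y : W) :
    cs.length (cs.simple i * dmax cs i y) < cs.length (dmax cs i y) := by
  rw [dmax]
  split_ifs with h
  · rw [simple_simple]; exact h
  · have h1 := len_ne (cs := cs) i y
    omega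

/-- iterated Demazure product -/
noncomputable def dem (cs : CoxeterSystem M W) : List B → W → W
  | [], y => y
  | i :: ω, y => dmax cs i (dem cs ω y)

end Pool.Agent.Helper703.KL
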