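import Pool.Agent.Helper703.KL.Hecke

set_option autoImplicit false

namespace Pool.Agent.Helper703.KL

open LaurentPolynomial Module

variable {B : Type*} {M : CoxeterMatrix B} {W : Type*} [Group W] (cs : CoxeterSystem M W)
variable {H : Type*} [Ring H] [Algebra A H]

variable {cs} {T C : Basis W A H} {bar : H →+* H}

lemma LEq.refl (x : W) : LEq cs T C x x := ⟨Relation.ReflTransGen.refl, Relation.ReflTransGen.refl⟩
lemma LEq.symm {x y : W} (h : LEq cs T C x y) : LEq cs T C y x := ⟨h.2, h.1⟩
lemma LEq.trans {x y z : W} (h : LEq cs T C x y) (h' : LEq cs T C y z) : LEq cs T C x z :=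
  ⟨h'.1.trans h.1, h.2.trans h'.2⟩

lemma length_mul_inv_simple (i : B) (w : W) :
    cs.length (cs.simple i * w⁻¹) = cs.length (w * cs.simple i) := by
  rw [length_simple_mul_inv, inv_inv]

lemma thetaR_down (hT : IsHecke cs T) (hb : IsBar cs T bar) (hC : IsKLBasis cs T bar C) (i : B)
    (u : W) (hu : cs.length (u * cs.simple i) < cs.length u) :
    theta (opR cs T) i (C u) = (v 1 + v (-1)) • C u := by
  have := (isKL_R hC).theta_down (klModR hT hb) i _ u⁻¹ rfl
    (by rw [length_mul_inv_simple, cs.length_inv]; exact hu)
  simpa using this

lemma thetaR_up (hT : IsHecke cs T) (hb : IsBar cs T bar) (hC : IsKLBasis cs T bar C) (i : B)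
    (u : W) (hu : cs.length u < cs.length (u * cs.simple i)) :
    theta (opR cs T) i (C u) = C (u * cs.simple i) +
      ∑ z ∈ muSet cs (invB (nb cs T)) (fun w => C w⁻¹) i u⁻¹,
        mu (invB (nb cs T)) (fun w => C w⁻¹) z u⁻¹ • C z⁻¹ := by
  have := (isKL_R hC).theta_up (klModR hT hb) i u⁻¹
    (by rw [length_mul_inv_simple, cs.length_inv]; exact hu)
  simpa using this

lemma mem_muSet {i : B} {u z : W} {b : Basis W A H} {C' : W → H} :
    z ∈ muSet cs b C' i u ↔ b.repr (C' u) z ≠ 0 ∧ cs.length (cs.simple i * z) < cs.length z := by
  classical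
  rw [muSet, Finset.mem_filter, Finsupp.mem_support_iff]

/-- elements of `H C_s` only involve `C_y` with `s` in the right descent set of `y`. -/
lemma right_supp (hT : IsHecke cs T) (hb : IsBar cs T bar) (hC : IsKLBasis cs T bar C) (i : B)
    (h : H) (y : W) (hy : cs.length y < cs.length (y * cs.simple i)) :
    C.repr (theta (opR cs T) i h) y = 0 := by
  classical
  have key : (C.coord y) ∘ₗ (theta (opR cs T) i) = 0 := by
    apply C.ext
    intro u
    rw [LinearMap.comp_apply, Basis.coord_apply, LinearMap.zero_apply]
    rcases lt_or_gt_of_ne (cs.length_mul_simple_ne u i) with h1 | h1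
    · rw [thetaR_down hT hb hC i u h1, map_smul, Finsupp.smul_apply, Basis.repr_self,
        Finsupp.single_apply, if_neg, smul_zero]
      rintro rfl
      omega
    · rw [thetaR_up hT hb hC i u h1, map_add, Finsupp.add_apply, Basis.repr_self,
        Finsupp.single_apply, if_neg, zero_add, map_sum, Finsupp.finsetSum_apply]
      · apply Finset.sum_eq_zero
        intro z hz
        rw [map_zsmul, Finsupp.smul_apply, Basis.repr_self, Finsupp.single_apply, if_neg,
          smul_zero]
        rintro rfl
        have := (mem_muSet.1 hz).2
        rw [length_simple_mul_inv, ← cs.length_inv z] at this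
        omega
      · rintro rfl
        rw [cs.simple_mul_simple_cancel_right] at hy
        omega
  exact LinearMap.congr_fun key h

lemma thetaR_mul (i : B) (a h : H) :
    theta (opR cs T) i (a * h) = a * theta (opR cs T) i h := by
  rw [theta_apply, theta_apply, opR_apply, opR_apply, mul_add, mul_smul_comm, mul_smul_comm,
    mul_assoc]

/-- right descent sets grow along `≤_L` -/
lemma LStep.desc (hT : IsHecke cs T) (hb : IsBar cs T bar) (hC : IsKLBasis cs T bar C)
    {k : B} {x y : W} (h : C.repr (T (cs.simple k) * C x) y ≠ 0) (i : B)
    (hx : cs.length (x * cs.simple i) < cs.length x) :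
    cs.length (y * cs.simple i) < cs.length y := by
  by_contra hcon
  have hy : cs.length y < cs.length (y * cs.simple i) := by
    have := cs.length_mul_simple_ne y i
    omega
  have h1 := right_supp hT hb hC i (T (cs.simple k) * C x) y hy
  rw [thetaR_mul, thetaR_down hT hb hC i x hx, mul_smul_comm, map_smul, Finsupp.smul_apply,
    smul_eq_mul] at h1
  rcases mul_eq_zero.1 h1 with h2 | h2
  · have h3 := congrArg (fun p : A => p.coeff 1) h2
    simp only [coeff_add, T_apply, coeff_zero] at h3
    norm_num at h3
  · exact h h2

lemma LLe.desc (hT : IsHecke cs T) (hb : IsBar cs T bar) (hC : IsKLBasis cs T bar C)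
    {x y : W} (h : LLe cs T C y x) (i : B)
    (hx : cs.length (x * cs.simple i) < cs.length x) :
    cs.length (y * cs.simple i) < cs.length y := by
  induction h with
  | refl => exact hx
  | tail _ h2 ih =>
    obtain ⟨k, hk⟩ := h2
    exact LStep.desc hT hb hC hk i ih

lemma LEq.desc_iff (hT : IsHecke cs T) (hb : IsBar cs T bar) (hC : IsKLBasis cs T bar C)
    {x y : W} (h : LEq cs T C y x) (i : B) :
    cs.length (x * cs.simple i) < cs.length x ↔ cs.length (y * cs.simple i) < cs.length y :=
  ⟨h.1.desc hT hb hC i, h.2.desc hT hb hC i⟩

open Classical in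
lemma star_coef (hT : IsHecke cs T) (hb : IsBar cs T bar) (hC : IsKLBasis cs T bar C) {i j : B}
    {x y : W} (hxi : cs.length (x * cs.simple i) < cs.length x)
    (hxj : cs.length x < cs.length (x * cs.simple j))
    (hyj : cs.length (y * cs.simple j) < cs.length y)
    (hyi : cs.length y < cs.length (y * cs.simple i)) :
    C.repr (theta (opR cs T) j (C x)) y =
      (if x * cs.simple j = y then 1 else 0) + (if x * cs.simple i = y then 1 else 0) := by
  rw [thetaR_up hT hb hC j x hxj, map_add, Finsupp.add_apply, Basis.repr_self,
    Finsupp.single_apply, map_sum, Finsupp.finsetSum_apply]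
  congr 1
  have hmu := (isKL_R hC).mu_down (klModR hT hb) i x⁻¹ y⁻¹
    (by rw [length_mul_inv_simple, cs.length_inv]; exact hxi)
    (by rw [length_mul_inv_simple, cs.length_inv]; exact hyi)
  have h1 : ∀ z ∈ muSet cs (invB (nb cs T)) (fun w => C w⁻¹) j x⁻¹,
      (C.repr (mu (invB (nb cs T)) (fun w => C w⁻¹) z x⁻¹ • C z⁻¹)) y =
      if z = y⁻¹ then ((mu (invB (nb cs T)) (fun w => C w⁻¹) z x⁻¹ : ℤ) : A) else 0 := by
    intro z _
    rw [map_zsmul, Finsupp.smul_apply, Basis.repr_self, Finsupp.single_apply]
    by_cases h : z = y⁻¹
    · subst h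
      simp
    · have h' : ¬ z⁻¹ = y := fun h2 => h (by rw [← h2, inv_inv])
      simp [h, h']
  rw [Finset.sum_congr rfl h1, Finset.sum_ite_eq']
  have h2 : (cs.simple i * y⁻¹ = x⁻¹) ↔ (x * cs.simple i = y) := by
    constructor
    · intro h
      have := congrArg (·⁻¹) h
      simp only [mul_inv_rev, inv_inv, cs.inv_simple] at this
      rw [← this, cs.simple_mul_simple_cancel_right]
    · intro h
      rw [← h, mul_inv_rev, cs.inv_simple, cs.simple_mul_simple_cancel_left]
  rw [hmu]
  by_cases h3 : x * cs.simple i = y
  · rw [if_pos (h2.2 h3), if_pos h3, if_pos]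
    · simp
    · rw [mem_muSet]
      constructor
      · intro h0
        rw [if_pos (h2.2 h3), mu, h0, coeff_zero] at hmu
        exact absurd hmu (by norm_num)
      · rw [length_mul_inv_simple, cs.length_inv]; exact hyj
  · rw [if_neg (fun h => h3 (h2.1 h)), if_neg h3]
    simp

/-- uniqueness of the star operation for `m(s,t) = 3` -/
lemma star_unique {i j : B} (hm : M i j = 3) {x : W}
    (hxj : cs.length (x * cs.simple j) < cs.length x)
    (hxi : cs.length x < cs.length (x * cs.simple i))
    (h1 : cs.length (x * cs.simple i) < cs.length (x * cs.simple i * cs.simple j))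
    (h2 : cs.length (x * cs.simple j * cs.simple i) < cs.length (x * cs.simple j)) : False := by
  have hrel := cs.simple_mul_simple_pow i j
  rw [hm] at hrel
  have h3 : cs.simple i * cs.simple j
      = cs.simple j * cs.simple i * (cs.simple j * cs.simple i) := by
    have h4 : cs.simple j * cs.simple i = (cs.simple i * cs.simple j)⁻¹ := by
      rw [mul_inv_rev, cs.inv_simple, cs.inv_simple]
    rw [h4, ← mul_inv_rev, eq_inv_iff_mul_eq_one, ← hrel]
    simp only [pow_succ, pow_zero, one_mul, mul_assoc]
  have h5 : x * cs.simple i * cs.simple j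
      = x * cs.simple j * cs.simple i * cs.simple j * cs.simple i := by
    rw [mul_assoc, h3]; simp only [mul_assoc]
  have h6 : cs.length (x * cs.simple j * cs.simple i * cs.simple j * cs.simple i)
      ≤ cs.length (x * cs.simple j * cs.simple i) + 2 := by
    have a := cs.length_mul_simple (x * cs.simple j * cs.simple i) j
    have b := cs.length_mul_simple (x * cs.simple j * cs.simple i * cs.simple j) i
    omega
  rw [h5] at h1
  have a := cs.length_mul_simple x j
  have b := cs.length_mul_simple (x * cs.simple j) i
  have c := cs.length_mul_simple x i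
  have d := cs.length_mul_simple (x * cs.simple j * cs.simple i * cs.simple j) i
  omega

/-- `x'` is obtained from `x` by the right star operation for the ordered pair `(s_i, s_j)`. -/
structure StarRel (cs : CoxeterSystem M W) (i j : B) (x x' : W) : Prop where
  mem : x' = x * cs.simple i ∨ x' = x * cs.simple j
  xi : cs.length (x * cs.simple i) < cs.length x
  xj : cs.length x < cs.length (x * cs.simple j)
  xj' : cs.length (x' * cs.simple j) < cs.length x'
  xi' : cs.length x' < cs.length (x' * cs.simple i)

lemma StarRel.symm {i j : B} {x x' : W} (h : StarRel cs i j x x') : StarRel cs j i x' x := by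
  refine ⟨?_, h.xj', h.xi', h.xi, h.xj⟩
  rcases h.mem with h1 | h1
  · right; rw [h1, cs.simple_mul_simple_cancel_right]
  · left; rw [h1, cs.simple_mul_simple_cancel_right]

lemma StarRel.unique {i j : B} (hm : M i j = 3) {x x' x'' : W} (h : StarRel cs i j x x')
    (h' : StarRel cs i j x x'') : x' = x'' := by
  have hm' : M j i = 3 := by rw [M.symmetric]; exact hm
  have key : ∀ {a b : W}, StarRel cs i j x a → StarRel cs i j x b → a = x * cs.simple i →
      b = x * cs.simple j → False := by
    intro a b ha hb h1 h2
    subst h1 h2
    exact star_unique hm' ha.xi ha.xj hb.xi' ha.xj'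
  rcases h.mem with h1 | h1 <;> rcases h'.mem with h2 | h2
  · rw [h1, h2]
  · exact (key h h' h1 h2).elim
  · exact (key h' h h2 h1).elim
  · rw [h1, h2]

lemma star_transfer (hT : IsHecke cs T) (hb : IsBar cs T bar) (hC : IsKLBasis cs T bar C)
    {i j : B} (hm : M i j = 3) {x y x' y' : W} (hx : StarRel cs i j x x')
    (hy : StarRel cs i j y y') {k : B} :
    C.repr (T (cs.simple k) * C x') y' = C.repr (T (cs.simple k) * C x) y := by
  classical
  have hm' : M j i = 3 := by rw [M.symmetric]; exact hm
  have hne : x * cs.simple i ≠ x * cs.simple j := by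
    intro h
    have h1 := hx.xi
    have h2 := hx.xj
    rw [h] at h1
    omega
  have hney : y' * cs.simple i ≠ y' * cs.simple j := by
    intro h
    have h1 := hy.xj'
    have h2 := hy.xi'
    rw [h] at h2
    omega
  have e1 : C.repr (T (cs.simple k) * theta (opR cs T) j (C x)) y'
      = C.repr (T (cs.simple k) * C x') y' := by
    conv_lhs => rw [← C.linearCombination_repr (theta (opR cs T) j (C x))]
    rw [Finsupp.linearCombination_apply, Finsupp.sum, Finset.mul_sum, map_sum,
      Finsupp.finsetSum_apply, Finset.sum_eq_single x']
    · rw [mul_smul_comm, map_smul, Finsupp.smul_apply,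
        star_coef hT hb hC hx.xi hx.xj hx.xj' hx.xi']
      have : ((if x * cs.simple j = x' then (1 : A) else 0) +
          (if x * cs.simple i = x' then 1 else 0)) = 1 := by
        rcases hx.mem with h | h
        · rw [if_neg (fun h2 => hne (by rw [← h, h2])), if_pos h.symm, zero_add]
        · rw [if_pos h.symm, if_neg (fun h2 => hne (by rw [h2, h])), add_zero]
      rw [this, one_smul]
    · intro z hz hzx
      have hz' := Finsupp.mem_support_iff.1 hz
      rw [mul_smul_comm, map_smul, Finsupp.smul_apply]
      have hzj : cs.length (z * cs.simple j) < cs.length z := by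
        by_contra hcon
        have := cs.length_mul_simple_ne z j
        exact hz' (right_supp hT hb hC j (C x) z (by omega))
      by_cases hzi : cs.length (z * cs.simple i) < cs.length z
      · have : C.repr (T (cs.simple k) * C z) y' = 0 := by
          by_contra hcon
          have := LStep.desc hT hb hC hcon i hzi
          have := hy.xi'
          omega
        rw [this, smul_zero]
      · exfalso
        have hzi' : cs.length z < cs.length (z * cs.simple i) := by
          have := cs.length_mul_simple_ne z i
          omega
        rw [star_coef hT hb hC hx.xi hx.xj hzj hzi'] at hz'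
        have hmem : z = x * cs.simple i ∨ z = x * cs.simple j := by
          by_contra hcon
          push Not at hcon
          rw [if_neg (fun h => hcon.2 h.symm), if_neg (fun h => hcon.1 h.symm), add_zero] at hz'
          exact hz' rfl
        exact hzx (StarRel.unique hm ⟨hmem, hx.xi, hx.xj, hzj, hzi'⟩ hx)
    · intro hx'
      rw [Finsupp.notMem_support_iff.1 hx', zero_smul, mul_zero, map_zero, Finsupp.zero_apply]
  have e2 : C.repr (theta (opR cs T) j (T (cs.simple k) * C x)) y'
      = C.repr (T (cs.simple k) * C x) y := by
    conv_lhs => rw [← C.linearCombination_repr (T (cs.simple k) * C x)]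
    rw [Finsupp.linearCombination_apply, Finsupp.sum, map_sum, map_sum,
      Finsupp.finsetSum_apply, Finset.sum_eq_single y]
    · rw [map_smul, map_smul, Finsupp.smul_apply,
        star_coef hT hb hC hy.xi hy.xj hy.xj' hy.xi']
      have : ((if y * cs.simple j = y' then (1 : A) else 0) +
          (if y * cs.simple i = y' then 1 else 0)) = 1 := by
        have hne2 : y * cs.simple i ≠ y * cs.simple j := by
          intro h
          have h1 := hy.xi
          have h2 := hy.xj
          rw [h] at h1
          omega
        rcases hy.mem with h | h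
        · rw [if_neg (fun h2 => hne2 (by rw [← h, h2])), if_pos h.symm, zero_add]
        · rw [if_pos h.symm, if_neg (fun h2 => hne2 (by rw [h2, h])), add_zero]
      rw [this, smul_eq_mul, mul_one]
    · intro z hz hzy
      have hz' := Finsupp.mem_support_iff.1 hz
      rw [map_smul, map_smul, Finsupp.smul_apply]
      have hzi : cs.length (z * cs.simple i) < cs.length z := LStep.desc hT hb hC hz' i hx.xi
      by_cases hzj : cs.length (z * cs.simple j) < cs.length z
      · have hzy' : z ≠ y' := by
          rintro rfl
          have := hy.xi'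
          omega
        rw [thetaR_down hT hb hC j z hzj, map_smul, Finsupp.smul_apply, Basis.repr_self,
          Finsupp.single_apply, if_neg hzy', smul_zero, smul_zero]
      · have hzj' : cs.length z < cs.length (z * cs.simple j) := by
          have := cs.length_mul_simple_ne z j
          omega
        rw [star_coef hT hb hC hzi hzj' hy.xj' hy.xi']
        have h1 : ¬ z * cs.simple j = y' := by
          intro h
          apply hzy
          refine StarRel.unique hm' (x := y') ⟨?_, hy.xj', hy.xi', hzi, hzj'⟩ hy.symm
          left
          rw [← h, cs.simple_mul_simple_cancel_right]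
        have h2 : ¬ z * cs.simple i = y' := by
          intro h
          apply hzy
          refine StarRel.unique hm' (x := y') ⟨?_, hy.xj', hy.xi', hzi, hzj'⟩ hy.symm
          right
          rw [← h, cs.simple_mul_simple_cancel_right]
        rw [if_neg h1, if_neg h2, add_zero, smul_zero]
    · intro hy'
      rw [Finsupp.notMem_support_iff.1 hy', zero_smul, map_zero, map_zero, Finsupp.zero_apply]
  rw [← e1, ← e2, thetaR_mul]

/-- Right star operations preserve the left cell relation. -/
theorem LEq.star (hT : IsHecke cs T) (hb : IsBar cs T bar) (hC : IsKLBasis cs T bar C)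
    {i j : B} (hm : M i j = 3)
    (hE : ∀ x : W, cs.length (x * cs.simple i) < cs.length x →
      cs.length x < cs.length (x * cs.simple j) → ∃ x', StarRel cs i j x x')
    {x y x' y' : W} (h : LEq cs T C y x) (hx : StarRel cs i j x x')
    (hy : StarRel cs i j y y') : LEq cs T C y' x' := by
  have key : ∀ {a b : W}, LLe cs T C b a → ∀ a' b', StarRel cs i j a a' → StarRel cs i j b b' →
      LLe cs T C a b → LLe cs T C b' a' := by
    intro a b hab
    induction hab using Relation.ReflTransGen.head_induction_on with
    | refl =>
      intro a' b' ha hb' _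
      rw [ha.unique hm hb']
      exact Relation.ReflTransGen.refl
    | head h1 h2 ih =>
      rename_i a c
      intro a' b' ha hb' hba
      obtain ⟨k, hk⟩ := h1
      have hca : LLe cs T C c a := Relation.ReflTransGen.single ⟨k, hk⟩
      have hac : LLe cs T C a c := h2.trans hba
      have hci : cs.length (c * cs.simple i) < cs.length c := hca.desc hT hb hC i ha.xi
      have hcj : cs.length c < cs.length (c * cs.simple j) := by
        by_contra hcon
        have h3 := cs.length_mul_simple_ne c j
        have h4 := hac.desc hT hb hC j (by omega)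
        have h5 := ha.xj
        omega
      obtain ⟨c', hc'⟩ := hE c hci hcj
      have h6 := ih c' b' hc' hb' (hba.trans hca)
      have h7 : LLe cs T C c' a' := by
        apply Relation.ReflTransGen.single
        refine ⟨k, ?_⟩
        rw [star_transfer hT hb hC hm ha hc']
        exact hk
      exact h7.trans h6
  exact ⟨key h.1 x' y' hx hy h.2, key h.2 y' x' hy hx h.1⟩

end Pool.Agent.Helper703.KL
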