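import Pool.Agent.Helper703.KL.Defs

set_option autoImplicit false

namespace Pool.Agent.Helper703.KL

open LaurentPolynomial

/-- no positive powers of `v` -/
def NonPos (p : A) : Prop := ∀ n : ℤ, 0 < n → p.coeff n = 0

lemma coeff_v_mul (m : ℤ) (p : A) (n : ℤ) : (v m * p).coeff n = p.coeff (n - m) := by
  have h : (v m : A) = AddMonoidAlgebra.single m 1 := rfl
  rw [h, AddMonoidAlgebra.coeff_single_mul_apply, one_mul, neg_add_eq_sub]

lemma coeff_add (p q : A) (n : ℤ) : (p + q).coeff n = p.coeff n + q.coeff n := rfl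
lemma coeff_sub (p q : A) (n : ℤ) : (p - q).coeff n = p.coeff n - q.coeff n := rfl
lemma coeff_neg (p : A) (n : ℤ) : (- p).coeff n = - p.coeff n := rfl
lemma coeff_zero (n : ℤ) : (0 : A).coeff n = 0 := rfl
lemma coeff_one (n : ℤ) : (1 : A).coeff n = if n = 0 then 1 else 0 := by
  rw [← T_zero, T_apply]
  by_cases h : n = 0
  · simp [h]
  · simp [h, Ne.symm h]

lemma coeff_zsmul (a : ℤ) (p : A) (n : ℤ) : (a • p).coeff n = a * p.coeff n := rfl

lemma coeff_sum {ι : Type*} (s : Finset ι) (f : ι → A) (n : ℤ) :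
    (∑ i ∈ s, f i).coeff n = ∑ i ∈ s, (f i).coeff n := by
  classical
  induction s using Finset.induction_on with
  | empty => simp
  | insert a s ha ih => rw [Finset.sum_insert ha, Finset.sum_insert ha, coeff_add, ih]

lemma Neg.zero : Neg 0 := fun n _ => coeff_zero n
lemma Neg.add {p q : A} (hp : Neg p) (hq : Neg q) : Neg (p + q) := fun n hn => by
  rw [coeff_add, hp n hn, hq n hn, add_zero]
lemma Neg.sub {p q : A} (hp : Neg p) (hq : Neg q) : Neg (p - q) := fun n hn => by
  rw [coeff_sub, hp n hn, hq n hn, sub_zero]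
lemma Neg.zsmul {p : A} (a : ℤ) (hp : Neg p) : Neg (a • p) := fun n hn => by
  rw [coeff_zsmul, hp n hn, mul_zero]
lemma Neg.sum {ι : Type*} (s : Finset ι) (f : ι → A) (h : ∀ i ∈ s, Neg (f i)) :
    Neg (∑ i ∈ s, f i) := fun n hn => by
  rw [coeff_sum]
  exact Finset.sum_eq_zero (fun i hi => h i hi n hn)
lemma Neg.nonPos {p : A} (hp : Neg p) : NonPos p := fun n hn => hp n hn.le
lemma NonPos.one : NonPos 1 := fun n hn => by rw [coeff_one, if_neg (ne_of_gt hn)]
lemma NonPos.add {p q : A} (hp : NonPos p) (hq : NonPos q) : NonPos (p + q) := fun n hn => by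
  rw [coeff_add, hp n hn, hq n hn, add_zero]
lemma NonPos.neg_mul {p : A} (hp : NonPos p) : Neg (v (-1) * p) := fun n hn => by
  rw [coeff_v_mul]; exact hp _ (by omega)
lemma Neg.pos_mul {p : A} (hp : Neg p) : NonPos (v 1 * p) := fun n hn => by
  rw [coeff_v_mul]; exact hp _ (by omega)

lemma neg_of_nonPos {p : A} (hp : NonPos p) (h0 : p.coeff 0 = 0) : Neg p := fun n hn => by
  rcases hn.lt_or_eq with h | h
  · exact hp n h
  · rw [← h]; exact h0

lemma eq_zero_of_invert {p : A} (h : invert p = p) (hp : Neg p) : p = 0 := by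
  ext n
  rcases le_or_gt 0 n with hn | hn
  · exact hp n hn
  · rw [← h, invert_apply]
    exact hp _ (by omega)

lemma v_mul_v (m n : ℤ) : v m * v n = v (m + n) := (T_add m n).symm

end Pool.Agent.Helper703.KL
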