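import Pool.Agent.Helper703.KL.Window

set_option autoImplicit false

namespace Pool.Agent.Helper703.KL

open Module Pool.Agent.Helper703.Cox

/-- bubble sort length -/
def bub : ℕ → List ℕ → ℕ
  | 0, _ => 0
  | n + 1, ρ =>
    match (List.range' 1 9).find? (fun k => desAt ρ k) with
    | none => 0
    | some k => bub n (swapAt k ρ) + 1

/-- Knuth move at positions `k - 1, k, k + 1` -/
def starL (k : ℕ) (ρ : List ℕ) : List ℕ :=
  let a := ρ.getD (k - 1) 0
  let b := ρ.getD k 0
  let c := ρ.getD (k + 1) 0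
  if (b < a ∧ a < c) ∨ (c < a ∧ a < b) then swapAt (k + 1) ρ else swapAt k ρ

variable {W : Type*} [Group W] {cs : CoxeterSystem affA W}

lemma bub_le (n : ℕ) : ∀ (w : W) (ρ : List ℕ), Pat cs w ρ → bub n ρ ≤ cs.length w := by
  induction n with
  | zero => intro w ρ _; exact Nat.zero_le _
  | succ n ih =>
    intro w ρ h
    unfold bub
    cases hf : (List.range' 1 9).find? (fun k => desAt ρ k) with
    | none => exact Nat.zero_le _
    | some k =>
      simp only
      have h1 : desAt ρ k = true := by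
        have := List.find?_some hf
        simpa using this
      have h2 : k ∈ List.range' 1 9 := List.mem_of_find?_eq_some hf
      rw [List.mem_range'_1] at h2
      have h3 := ih _ _ (h.swap h2.1 (by omega))
      have h4 := (h.des h2.1 (by omega)).1 h1
      omega

/-- star operation in one of the two directions -/
def St (cs : CoxeterSystem affA W) (k : ℕ) (w w' : W) : Prop :=
  StarRel cs (idx k) (idx (k + 1)) w w' ∨ StarRel cs (idx (k + 1)) (idx k) w w'

lemma St.symm {k : ℕ} {w w' : W} (h : St cs k w w') : St cs k w' w := by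
  rcases h with h | h
  · exact Or.inr h.symm
  · exact Or.inl h.symm

lemma affA_three {k : ℕ} (hk : 1 ≤ k) (hk' : k ≤ 8) : affA (idx k) (idx (k + 1)) = 3 := by
  interval_cases k <;> rfl

lemma affA_three' {k : ℕ} (hk : 1 ≤ k) (hk' : k ≤ 8) : affA (idx (k + 1)) (idx k) = 3 := by
  rw [affA.symmetric]; exact affA_three hk hk'

lemma St.unique {k : ℕ} (hk : 1 ≤ k) (hk' : k ≤ 8) {w w' w'' : W} (h : St cs k w w')
    (h' : St cs k w w'') : w' = w'' := by
  rcases h with h | h <;> rcases h' with h' | h'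
  · exact h.unique (affA_three hk hk') h'
  · have h1 := h.xi
    have h2 := h'.xj
    omega
  · have h1 := h.xi
    have h2 := h'.xj
    omega
  · exact h.unique (affA_three' hk hk') h'

lemma star_group {w : W} {ρ : List ℕ} (h : Pat cs w ρ) {k : ℕ} (hk : 1 ≤ k) (hk' : k ≤ 8)
    (hd : desAt ρ k ≠ desAt ρ (k + 1)) :
    ∃ w', Pat cs w' (starL k ρ) ∧
      (desAt ρ k = true → StarRel cs (idx k) (idx (k + 1)) w w') ∧
      (desAt ρ k = false → StarRel cs (idx (k + 1)) (idx k) w w') := by
  have hk9 : k ≤ 9 := by omega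
  have g1 : ∀ a, a ≤ 9 → (swapAt (k + 1) ρ).getD a 0 = ρ.getD (sw (k + 1) a) 0 := fun a ha =>
    swapAt_getD (by omega) (by omega) h.1 ha
  have g2 : ∀ a, a ≤ 9 → (swapAt k ρ).getD a 0 = ρ.getD (sw k a) 0 := fun a ha =>
    swapAt_getD hk hk9 h.1 ha
  have s1 : sw (k + 1) (k - 1) = k - 1 := by rw [sw, if_neg (by omega), if_neg (by omega)]
  have s2 : sw (k + 1) k = k + 1 := by rw [sw, if_pos (by omega)]
  have s3 : sw (k + 1) (k + 1) = k := by rw [sw, if_neg (by omega), if_pos (by omega)]; omega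
  have s4 : sw k (k - 1) = k := by rw [sw, if_pos (by omega)]
  have s5 : sw k k = k - 1 := by rw [sw, if_neg (by omega), if_pos (by omega)]
  have s6 : sw k (k + 1) = k + 1 := by rw [sw, if_neg (by omega), if_neg (by omega)]
  have p1 := h.swap (k := k + 1) (by omega) (by omega)
  have p2 := h.swap (k := k) hk hk9
  have q1 : desAt (swapAt (k + 1) ρ) k = decide (ρ.getD (k + 1) 0 < ρ.getD (k - 1) 0) := by
    rw [desAt, g1 k hk9, g1 (k - 1) (by omega), s1, s2]
  have q2 : desAt (swapAt (k + 1) ρ) (k + 1) = decide (ρ.getD k 0 < ρ.getD (k + 1) 0) := by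
    rw [desAt, g1 (k + 1) (by omega), Nat.add_sub_cancel, g1 k hk9, s3, s2]
  have q3 : desAt (swapAt k ρ) k = decide (ρ.getD (k - 1) 0 < ρ.getD k 0) := by
    rw [desAt, g2 k hk9, g2 (k - 1) (by omega), s4, s5]
  have q4 : desAt (swapAt k ρ) (k + 1) = decide (ρ.getD (k + 1) 0 < ρ.getD (k - 1) 0) := by
    rw [desAt, g2 (k + 1) (by omega), Nat.add_sub_cancel, g2 k hk9, s6, s5]
  have d1 : desAt ρ k = decide (ρ.getD k 0 < ρ.getD (k - 1) 0) := rfl
  have d2 : desAt ρ (k + 1) = decide (ρ.getD (k + 1) 0 < ρ.getD k 0) := by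
    rw [desAt, Nat.add_sub_cancel]
  -- distinctness
  have n1 : ρ.getD (k - 1) 0 ≠ ρ.getD (k + 1) 0 := by
    intro he
    have e1 := h.2 (k - 1) (k + 1) (by omega) (by omega)
    have e2 := h.2 (k + 1) (k - 1) (by omega) (by omega)
    rw [he] at e1 e2
    have := win_ne (cs := cs) 1 w (k - 1) (k + 1) (by omega) (by omega)
    rcases lt_or_gt_of_ne this with h3 | h3
    · exact lt_irrefl _ (e1.1 h3)
    · exact lt_irrefl _ (e2.1 h3)
  have n2 : ρ.getD (k - 1) 0 ≠ ρ.getD k 0 := by
    intro he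
    have e1 := h.2 (k - 1) k (by omega) (by omega)
    have e2 := h.2 k (k - 1) (by omega) (by omega)
    rw [he] at e1 e2
    have := win_ne (cs := cs) 0 w (k - 1) k (by omega) (by omega)
    rcases lt_or_gt_of_ne this with h3 | h3
    · exact lt_irrefl _ (e1.1 h3)
    · exact lt_irrefl _ (e2.1 h3)
  have n3 : ρ.getD k 0 ≠ ρ.getD (k + 1) 0 := by
    intro he
    have e1 := h.2 k (k + 1) (by omega) (by omega)
    have e2 := h.2 (k + 1) k (by omega) (by omega)
    rw [he] at e1 e2
    have := win_ne (cs := cs) 0 w k (k + 1) (by omega) (by omega)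
    rcases lt_or_gt_of_ne this with h3 | h3
    · exact lt_irrefl _ (e1.1 h3)
    · exact lt_irrefl _ (e2.1 h3)
  rw [d1, d2] at hd
  have D1 := h.des hk hk9
  have D2 := h.des (k := k + 1) (by omega) (by omega)
  have N1 := h.not_des hk hk9
  have N2 := h.not_des (k := k + 1) (by omega) (by omega)
  rw [d1] at D1 N1
  rw [d2] at D2 N2
  simp only [decide_eq_true_iff, decide_eq_false_iff_not] at D1 D2 N1 N2
  unfold starL
  simp only
  generalize ha : ρ.getD (k - 1) 0 = a at *
  generalize hb : ρ.getD k 0 = b at *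
  generalize hc : ρ.getD (k + 1) 0 = c at *
  by_cases hcond : (b < a ∧ a < c) ∨ (c < a ∧ a < b)
  · rw [if_pos hcond]
    refine ⟨w * cs.simple (idx (k + 1)), p1, ?_, ?_⟩
    · intro hd1
      rw [d1, decide_eq_true_iff] at hd1
      refine ⟨Or.inr rfl, D1.1 hd1, N2.1 (by omega), ?_, ?_⟩
      · rw [← p1.des (by omega) (by omega), q2, decide_eq_true_iff]; omega
      · rw [← p1.not_des hk hk9, q1, decide_eq_false_iff_not]; omega
    · intro hd1
      rw [d1, decide_eq_false_iff_not] at hd1
      refine ⟨Or.inl rfl, D2.1 (by omega), N1.1 (by omega), ?_, ?_⟩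
      · rw [← p1.des hk hk9, q1, decide_eq_true_iff]; omega
      · rw [← p1.not_des (by omega) (by omega), q2, decide_eq_false_iff_not]; omega
  · rw [if_neg hcond]
    have hd' : ¬ ((b < a ∧ c < b) ∨ (a ≤ b ∧ b ≤ c)) := by
      intro h
      apply hd
      rcases h with h | h
      · rw [decide_eq_true h.1, decide_eq_true h.2]
      · rw [decide_eq_false (by omega), decide_eq_false (by omega)]
    refine ⟨w * cs.simple (idx k), p2, ?_, ?_⟩
    · intro hd1
      rw [d1, decide_eq_true_iff] at hd1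
      refine ⟨Or.inl rfl, D1.1 hd1, N2.1 (by omega), ?_, ?_⟩
      · rw [← p2.des (by omega) (by omega), q4, decide_eq_true_iff]; omega
      · rw [← p2.not_des hk hk9, q3, decide_eq_false_iff_not]; omega
    · intro hd1
      rw [d1, decide_eq_false_iff_not] at hd1
      refine ⟨Or.inr rfl, D2.1 (by omega), N1.1 (by omega), ?_, ?_⟩
      · rw [← p2.des hk hk9, q3, decide_eq_true_iff]; omega
      · rw [← p2.not_des (by omega) (by omega), q4, decide_eq_false_iff_not]; omega

lemma star_group' {w : W} {ρ : List ℕ} (h : Pat cs w ρ) {k : ℕ} (hk : 1 ≤ k) (hk' : k ≤ 8)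
    (hd : desAt ρ k ≠ desAt ρ (k + 1)) : ∃ w', Pat cs w' (starL k ρ) ∧ St cs k w w' := by
  obtain ⟨w', h1, h2, h3⟩ := star_group h hk hk' hd
  refine ⟨w', h1, ?_⟩
  cases hdk : desAt ρ k
  · exact Or.inr (h3 hdk)
  · exact Or.inl (h2 hdk)

lemma star_exists {k : ℕ} (hk : 1 ≤ k) (hk' : k ≤ 8) (w : W)
    (h1 : cs.length (w * cs.simple (idx k)) < cs.length w)
    (h2 : cs.length w < cs.length (w * cs.simple (idx (k + 1)))) :
    ∃ w', StarRel cs (idx k) (idx (k + 1)) w w' := by
  obtain ⟨ρ, hρ, -⟩ := exists_pat (cs := cs) w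
  have e1 := (hρ.des hk (by omega)).2 h1
  have e2 := (hρ.not_des (k := k + 1) (by omega) (by omega)).2 h2
  obtain ⟨w', -, h3, -⟩ := star_group hρ hk hk' (by rw [e1, e2]; decide)
  exact ⟨w', h3 e1⟩

lemma star_exists' {k : ℕ} (hk : 1 ≤ k) (hk' : k ≤ 8) (w : W)
    (h1 : cs.length (w * cs.simple (idx (k + 1))) < cs.length w)
    (h2 : cs.length w < cs.length (w * cs.simple (idx k))) :
    ∃ w', StarRel cs (idx (k + 1)) (idx k) w w' := by
  obtain ⟨ρ, hρ, -⟩ := exists_pat (cs := cs) w
  have e1 := (hρ.des (k := k + 1) (by omega) (by omega)).2 h1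
  have e2 := (hρ.not_des hk (by omega)).2 h2
  obtain ⟨w', -, -, h3⟩ := star_group hρ hk hk' (by rw [e1, e2]; decide)
  exact ⟨w', h3 e2⟩

section cells

variable {H : Type*} [Ring H] [Algebra A H] {T C : Basis W A H} {bar : H →+* H}

lemma LEq.St (hT : IsHecke cs T) (hb : IsBar cs T bar) (hC : IsKLBasis cs T bar C) {k : ℕ}
    (hk : 1 ≤ k) (hk' : k ≤ 8) {x y x' y' : W} (h : LEq cs T C y x)
    (hx : St cs k x x') (hy : St cs k y y') : LEq cs T C y' x' := by
  rcases hx with hx | hx <;> rcases hy with hy | hy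
  · exact LEq.star hT hb hC (affA_three hk hk') (star_exists hk hk') h hx hy
  · have h1 := hx.xi
    have h2 := hy.xj
    have h3 := (LEq.desc_iff hT hb hC h (idx k)).1 h1
    omega
  · have h1 := hx.xi
    have h2 := hy.xj
    have h3 := (LEq.desc_iff hT hb hC h (idx (k + 1))).1 h1
    omega
  · exact LEq.star hT hb hC (affA_three' hk hk') (star_exists' hk hk') h hx hy

/-- a chain of star operations -/
def Ch (cs : CoxeterSystem affA W) : List ℕ → W → W → Prop
  | [], a, b => a = b
  | k :: ks, a, b => ∃ a', St cs k a a' ∧ Ch cs ks a' b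

/-- all indices of a path are between 1 and 8 -/
def okPath (ks : List ℕ) : Bool := ks.all (fun k => decide (1 ≤ k) && decide (k ≤ 8))

lemma LEq.desAt_eq (hT : IsHecke cs T) (hb : IsBar cs T bar) (hC : IsKLBasis cs T bar C)
    {x y : W} {π ρ : List ℕ} (h : LEq cs T C y x) (hx : Pat cs x π) (hy : Pat cs y ρ) {k : ℕ}
    (hk : 1 ≤ k) (hk' : k ≤ 9) : desAt π k = desAt ρ k := by
  have h1 := hx.des hk hk'
  have h2 := hy.des hk hk'
  have h3 := LEq.desc_iff hT hb hC h (idx k)
  rw [← h1, ← h2] at h3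
  cases h4 : desAt π k <;> cases h5 : desAt ρ k <;> simp_all

lemma Ch.back (hT : IsHecke cs T) (hb : IsBar cs T bar) (hC : IsKLBasis cs T bar C)
    (ks : List ℕ) : ∀ {z x y : W}, okPath ks = true → Ch cs ks z x → LEq cs T C y x →
    ∃ y0, LEq cs T C y0 z ∧ Ch cs ks y0 y := by
  induction ks with
  | nil =>
    intro z x y _ hz h
    have : z = x := hz
    subst this
    exact ⟨y, h, rfl⟩
  | cons k ks ih =>
    intro z x y hok hz h
    obtain ⟨z', hz1, hz2⟩ := hz
    have hok' : (1 ≤ k ∧ k ≤ 8) ∧ okPath ks = true := by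
      unfold okPath at hok ⊢
      simpa using hok
    obtain ⟨y0', h1, h2⟩ := ih hok'.2 hz2 h
    have h3 := hz1.symm
    obtain ⟨ρ', hρ', -⟩ := exists_pat (cs := cs) y0'
    obtain ⟨π', hπ', -⟩ := exists_pat (cs := cs) z'
    have e1 := LEq.desAt_eq hT hb hC h1 hπ' hρ' (k := k) hok'.1.1 (by omega)
    have e2 := LEq.desAt_eq hT hb hC h1 hπ' hρ' (k := k + 1) (by omega) (by omega)
    have e3 : desAt π' k ≠ desAt π' (k + 1) := by
      rcases h3 with h3 | h3
      · rw [(hπ'.des hok'.1.1 (by omega)).2 h3.xi,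
          (hπ'.not_des (k := k + 1) (by omega) (by omega)).2 h3.xj]
        decide
      · rw [(hπ'.des (k := k + 1) (by omega) (by omega)).2 h3.xi,
          (hπ'.not_des hok'.1.1 (by omega)).2 h3.xj]
        decide
    obtain ⟨y0, -, h4⟩ := star_group' hρ' hok'.1.1 hok'.1.2 (by rw [← e1, ← e2]; exact e3)
    exact ⟨y0, LEq.St hT hb hC hok'.1.1 hok'.1.2 h1 h3 h4, y0', h4.symm, h2⟩

/-- equality of descent sets -/
def desEq (ζ τ : List ℕ) : Bool := (List.range' 1 9).all (fun k => desAt ζ k == desAt τ k)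

/-- run the path from `ζ` on `τ` -/
def test (n : ℕ) : List ℕ → List ℕ → List ℕ → Bool
  | [], _, τ => decide (n ≤ bub 46 τ)
  | k :: ks, ζ, τ => (!(desEq ζ τ)) || test n ks (starL k ζ) (starL k τ)

/-- the path is valid at `ζ` -/
def validL : List ℕ → List ℕ → Bool
  | [], _ => true
  | k :: ks, ζ => (desAt ζ k != desAt ζ (k + 1)) && validL ks (starL k ζ)

lemma LEq.desEq (hT : IsHecke cs T) (hb : IsBar cs T bar) (hC : IsKLBasis cs T bar C)
    {x y : W} {π ρ : List ℕ} (h : LEq cs T C y x) (hx : Pat cs x π) (hy : Pat cs y ρ) :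
    KL.desEq π ρ = true := by
  unfold KL.desEq
  rw [List.all_eq_true]
  intro k hk
  rw [List.mem_range'_1] at hk
  rw [LEq.desAt_eq hT hb hC h hx hy hk.1 (by omega)]
  simp

lemma test_sound (hT : IsHecke cs T) (hb : IsBar cs T bar) (hC : IsKLBasis cs T bar C) (n : ℕ)
    (ks : List ℕ) : ∀ {z x y0 y : W} {ζ τ : List ℕ}, okPath ks = true → validL ks ζ = true →
    Ch cs ks z x → Ch cs ks y0 y → LEq cs T C y0 z → Pat cs z ζ → Pat cs y0 τ →
    test n ks ζ τ = true → n ≤ cs.length y := by
  induction ks with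
  | nil =>
    intro z x y0 y ζ τ _ _ _ hy _ _ hτ ht
    have : y0 = y := hy
    subst this
    unfold test at ht
    rw [decide_eq_true_iff] at ht
    exact ht.trans (bub_le _ _ _ hτ)
  | cons k ks ih =>
    intro z x y0 y ζ τ hok hv hz hy h hζ hτ ht
    have hok' : (1 ≤ k ∧ k ≤ 8) ∧ okPath ks = true := by
      unfold okPath at hok ⊢
      simpa using hok
    obtain ⟨z', hz1, hz2⟩ := hz
    obtain ⟨y', hy1, hy2⟩ := hy
    unfold validL at hv
    rw [Bool.and_eq_true, bne_iff_ne] at hv
    have hde := LEq.desEq hT hb hC h hζ hτ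
    unfold test at ht
    rw [hde] at ht
    simp only [Bool.not_true, Bool.false_or] at ht
    have e1 := LEq.desAt_eq hT hb hC h hζ hτ (k := k) hok'.1.1 (by omega)
    have e2 := LEq.desAt_eq hT hb hC h hζ hτ (k := k + 1) (by omega) (by omega)
    obtain ⟨z'', hz3, hz4⟩ := star_group' hζ hok'.1.1 hok'.1.2 hv.1
    obtain ⟨y'', hy3, hy4⟩ := star_group' hτ hok'.1.1 hok'.1.2 (by rw [← e1, ← e2]; exact hv.1)
    have ez := hz1.unique hok'.1.1 hok'.1.2 hz4
    have ey := hy1.unique hok'.1.1 hok'.1.2 hy4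
    subst ez ey
    exact ih hok'.2 hv.2 hz2 hy2 (LEq.St hT hb hC hok'.1.1 hok'.1.2 h hz1 hy1) hz3 hy3 ht

/-- run a path backwards -/
def backRun : List ℕ → List ℕ → List ℕ
  | [], π => π
  | k :: ks, π => starL k (backRun ks π)

/-- validity of the backward run -/
def backOk : List ℕ → List ℕ → Bool
  | [], _ => true
  | k :: ks, π => backOk ks π && (desAt (backRun ks π) k != desAt (backRun ks π) (k + 1))

lemma back_exists (ks : List ℕ) : ∀ {x : W} {π : List ℕ}, okPath ks = true →
    backOk ks π = true → Pat cs x π → ∃ z, Pat cs z (backRun ks π) ∧ Ch cs ks z x := by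
  induction ks with
  | nil =>
    intro x π _ _ h
    exact ⟨x, h, rfl⟩
  | cons k ks ih =>
    intro x π hok hb h
    have hok' : (1 ≤ k ∧ k ≤ 8) ∧ okPath ks = true := by
      unfold okPath at hok ⊢
      simpa using hok
    unfold backOk at hb
    rw [Bool.and_eq_true, bne_iff_ne] at hb
    obtain ⟨z', h1, h2⟩ := ih hok'.2 hb.1 h
    obtain ⟨z, h3, h4⟩ := star_group' h1 hok'.1.1 hok'.1.2 hb.2
    exact ⟨z, h3, z', h4.symm, h2⟩

/-- enumeration of all lists with a given descent pattern -/
def allExt (D : ℕ → Bool) (P : List ℕ → Bool) : ℕ → List ℕ → List ℕ → Bool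
  | 0, acc, _ => P acc.reverse
  | n + 1, acc, rem => rem.all (fun x =>
      (match acc with
        | [] => false
        | y :: _ => decide (x < y) != D acc.length) || allExt D P n (x :: acc) (rem.erase x))

lemma allExt_sound (D : ℕ → Bool) (P : List ℕ → Bool) (n : ℕ) : ∀ (acc rem rest : List ℕ),
    allExt D P n acc rem = true → rest.Perm rem → rest.length = n →
    (∀ k, 1 ≤ k → k < (acc.reverse ++ rest).length →
      decide ((acc.reverse ++ rest).getD k 0 < (acc.reverse ++ rest).getD (k - 1) 0) = D k) →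
    P (acc.reverse ++ rest) = true := by
  induction n with
  | zero =>
    intro acc rem rest h _ hl _
    rw [List.length_eq_zero_iff] at hl
    subst hl
    simpa [allExt] using h
  | succ n ih =>
    intro acc rem rest h hp hl hd
    match rest, hl with
    | x :: rest, hl =>
      have hx : x ∈ rem := hp.subset (List.mem_cons_self)
      have hp' : rest.Perm (rem.erase x) := (List.cons_perm_iff_perm_erase.1 hp).2
      unfold allExt at h
      rw [List.all_eq_true] at h
      have h1 := h x hx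
      rw [Bool.or_eq_true] at h1
      have e : acc.reverse ++ x :: rest = (x :: acc).reverse ++ rest := by simp
      rw [e] at hd ⊢
      apply ih (x :: acc) (rem.erase x) rest _ hp' (by simpa using hl) hd
      rcases h1 with h1 | h1
      · exfalso
        match acc, h1, hd with
        | [], h1, _ => simp at h1
        | y :: acc, h1, hd =>
          have h2 := hd (acc.length + 1) (by omega) (by simp)
          have e1 : ((x :: y :: acc).reverse ++ rest).getD (acc.length + 1) 0 = x := by
            simp [List.getD_eq_getElem?_getD]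
          have e2 : ((x :: y :: acc).reverse ++ rest).getD (acc.length + 1 - 1) 0 = y := by
            simp [List.getD_eq_getElem?_getD]
          rw [e1, e2] at h2
          simp only [List.length_cons, h2, bne_self_eq_false] at h1
          exact absurd h1 (by decide)
      · exact h1

/-- Lower bound for the lengths in a left cell by a finite check. -/
theorem cell_bound (hT : IsHecke cs T) (hb : IsBar cs T bar) (hC : IsKLBasis cs T bar C) (n : ℕ)
    (ks π : List ℕ) (hok : okPath ks = true) (hbk : backOk ks π = true)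
    (hv : validL ks (backRun ks π) = true)
    (hall : allExt (desAt (backRun ks π)) (test n ks (backRun ks π)) 10 [] (List.range 10) = true)
    {x y : W} (hx : Pat cs x π) (h : LEq cs T C y x) : n ≤ cs.length y := by
  obtain ⟨z, hz1, hz2⟩ := back_exists ks hok hbk hx
  obtain ⟨y0, hy1, hy2⟩ := Ch.back hT hb hC ks hok hz2 h
  obtain ⟨τ, hτ, hperm⟩ := exists_pat (cs := cs) y0
  apply test_sound hT hb hC n ks hok hv hz2 hy2 hy1 hz1 hτ
  have := allExt_sound _ _ 10 [] (List.range 10) τ hall hperm hτ.1 (by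
    intro k hk hk'
    simp only [List.reverse_nil, List.nil_append] at hk' ⊢
    rw [hτ.1] at hk'
    exact (LEq.desAt_eq hT hb hC hy1 hz1 hτ hk (by omega)).symm)
  simpa using this

end cells

end Pool.Agent.Helper703.KL
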