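import Mathlib

set_option autoImplicit false

namespace Pool.Agent.Helper703.Cox

/-- Alternating product `a b a ⋯` with `m` factors. -/
def alt {G : Type*} [Monoid G] (a b : G) (m : ℕ) : G :=
  ((List.range m).map (fun t => if Even t then a else b)).prod

section alt
variable {G : Type*} [Monoid G]

@[simp] lemma alt_zero (a b : G) : alt a b 0 = 1 := by simp [alt]

lemma alt_succ' (a b : G) (m : ℕ) : alt a b (m + 1) = alt a b m * (if Even m then a else b) := by
  simp [alt, List.range_succ]

lemma alt_succ (a b : G) (m : ℕ) : alt a b (m + 1) = a * alt b a m := by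
  simp only [alt, List.range_succ_eq_map, List.map_cons, List.map_map, List.prod_cons]
  congr 1
  congr 1
  apply List.map_congr_left
  intro t _
  by_cases h : Even t
  · simp [h, Nat.even_add_one]
  · simp [h, Nat.even_add_one]

@[simp] lemma alt_one (a b : G) : alt a b 1 = a := by simp [alt_succ]

lemma alt_two (a b : G) : alt a b 2 = a * b := by simp [alt_succ]

lemma map_alt {H : Type*} [Monoid H] (f : G →* H) (a b : G) (m : ℕ) :
    f (alt a b m) = alt (f a) (f b) m := by
  induction m with
  | zero => simp
  | succ m ih =>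
    rw [alt_succ', alt_succ', map_mul, ih]
    split_ifs <;> rfl

lemma alt_mul_two (a b : G) (m : ℕ) : alt a b (2 * m) = (a * b) ^ m := by
  induction m with
  | zero => simp
  | succ m ih =>
    have h1 : 2 * (m + 1) = (2 * m + 1) + 1 := by ring
    have he : Even (2 * m) := even_two_mul m
    rw [h1, alt_succ', alt_succ', ih, pow_succ]
    simp [he, mul_assoc]

lemma alt_mul_two_add_one (a b : G) (m : ℕ) : alt a b (2 * m + 1) = (a * b) ^ m * a := by
  rw [alt_succ', alt_mul_two]
  simp

end alt

section altinv
variable {G : Type*} [Group G]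

lemma refl_mul_alt {a b : G} (ha : a * a = 1) (hb : b * b = 1) (k : ℕ) :
    (a * b) ^ k * a * alt a b k = alt a b (k + 1) := by
  induction k generalizing a b with
  | zero => simp
  | succ k ih =>
    have h := ih hb ha
    have h1 : (a * b) ^ (k + 1) * a = a * ((b * a) ^ k * b) * a := by
      have : ∀ k : ℕ, (a * b) ^ k * a = a * (b * a) ^ k := by
        intro k
        induction k with
        | zero => simp
        | succ k ih2 => rw [pow_succ', mul_assoc, ih2, pow_succ']; simp only [mul_assoc]
      rw [this, pow_succ]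
      simp only [mul_assoc]
    rw [h1, alt_succ a b (k + 1), ← h, alt_succ a b k]
    calc a * ((b * a) ^ k * b) * a * (a * alt b a k)
        = a * ((b * a) ^ k * b) * (a * a) * alt b a k := by simp only [mul_assoc]
      _ = _ := by rw [ha]; simp only [mul_assoc, one_mul]

lemma alt_conj {a b : G} (ha : a * a = 1) (hb : b * b = 1) (k : ℕ) :
    alt a b k * (if Even k then a else b) * (alt a b k)⁻¹ = (a * b) ^ k * a := by
  rw [← alt_succ', ← refl_mul_alt ha hb]
  group

lemma alt_comm_of_pow {a b : G} (ha : a * a = 1) (hb : b * b = 1) {m : ℕ}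
    (hm : (a * b) ^ m = 1) : alt a b m = alt b a m := by
  rcases Nat.eq_zero_or_pos m with rfl | hpos
  · simp
  obtain ⟨k, rfl⟩ : ∃ k, m = k + 1 := ⟨m - 1, by omega⟩
  -- alt a b (k+1) = (a b)^k a * alt a b k ; (ab)^(k+1) = 1 → (ab)^k a = b⁻¹ = b
  have h1 : (a * b) ^ k * a = b := by
    have : (a * b) ^ k * a * b = 1 := by rw [mul_assoc, ← pow_succ, hm]
    calc (a * b) ^ k * a = (a * b) ^ k * a * (b * b) := by rw [hb, mul_one]
      _ = ((a * b) ^ k * a * b) * b := by simp only [mul_assoc]
      _ = b := by rw [this, one_mul]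
  rw [← refl_mul_alt ha hb, h1, alt_succ b a]

end altinv

/-- The Artin group of a Coxeter matrix (`0` stands for infinity). -/
abbrev Artin {B : Type*} (M : CoxeterMatrix B) : Type _ :=
  PresentedGroup
    (Set.range (fun p : B × B =>
      ((List.range (M p.1 p.2)).map
          (fun t => if Even t then FreeGroup.of p.1 else FreeGroup.of p.2)).prod *
      (((List.range (M p.1 p.2)).map
          (fun t => if Even t then FreeGroup.of p.2 else FreeGroup.of p.1)).prod)⁻¹))

namespace Artin

variable {B : Type*} (M : CoxeterMatrix B)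

/-- standard generator -/
def gen (i : B) : Artin M := PresentedGroup.of i

variable {M}

lemma rel (i j : B) : alt (gen M i) (gen M j) (M i j) = alt (gen M j) (gen M i) (M i j) := by
  have h : (PresentedGroup.mk (Set.range (fun p : B × B =>
      ((List.range (M p.1 p.2)).map
          (fun t => if Even t then FreeGroup.of p.1 else FreeGroup.of p.2)).prod *
      (((List.range (M p.1 p.2)).map
          (fun t => if Even t then FreeGroup.of p.2 else FreeGroup.of p.1)).prod)⁻¹)))
        (alt (FreeGroup.of i) (FreeGroup.of j) (M i j) *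
          (alt (FreeGroup.of j) (FreeGroup.of i) (M i j))⁻¹) = 1 := by
    apply PresentedGroup.one_of_mem
    exact ⟨(i, j), rfl⟩
  rw [map_mul, map_inv, mul_inv_eq_one, map_alt, map_alt] at h
  exact h

/-- Universal property. -/
def lift {G : Type*} [Group G] (f : B → G)
    (hf : ∀ i j, alt (f i) (f j) (M i j) = alt (f j) (f i) (M i j)) : Artin M →* G :=
  PresentedGroup.toGroup (f := f) (by
    rintro _ ⟨⟨i, j⟩, rfl⟩
    have h1 : ∀ a b : B, FreeGroup.lift f (alt (FreeGroup.of a) (FreeGroup.of b) (M i j))
        = alt (f a) (f b) (M i j) := by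
      intro a b
      rw [map_alt]; simp
    change FreeGroup.lift f (alt (FreeGroup.of i) (FreeGroup.of j) (M i j) *
      (alt (FreeGroup.of j) (FreeGroup.of i) (M i j))⁻¹) = 1
    rw [map_mul, map_inv, h1, h1, hf i j, mul_inv_cancel])

@[simp] lemma lift_gen {G : Type*} [Group G] (f : B → G)
    (hf : ∀ i j, alt (f i) (f j) (M i j) = alt (f j) (f i) (M i j)) (i : B) :
    lift f hf (gen M i) = f i := by
  simp [lift, gen]

lemma hom_ext {G : Type*} [Group G] {f g : Artin M →* G}
    (h : ∀ i, f (gen M i) = g (gen M i)) : f = g := by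
  apply PresentedGroup.ext
  exact h

lemma closure_range_gen : Subgroup.closure (Set.range (gen M)) = ⊤ :=
  PresentedGroup.closure_range_of _

lemma induction {p : Artin M → Prop} (one : p 1) (gen : ∀ i, p (gen M i))
    (mul : ∀ x y, p x → p y → p (x * y)) (inv : ∀ x, p x → p x⁻¹) (x : Artin M) : p x := by
  have hx : x ∈ Subgroup.closure (Set.range (Artin.gen M)) := by
    rw [closure_range_gen]; trivial
  induction hx using Subgroup.closure_induction with
  | mem x hx => obtain ⟨i, rfl⟩ := hx; exact gen i
  | one => exact one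
  | mul x y _ _ hx hy => exact mul x y hx hy
  | inv x _ hx => exact inv x hx

end Artin

end Pool.Agent.Helper703.Cox

namespace Pool.Agent.Helper703.Cox

/-- The group of pairs `(v, w)`, `v` a finitely supported `C`-valued function on `W`, with
product `(v, w) (v', w') = (v + w v' w⁻¹, w w')`. -/
@[ext] structure TExt (C W : Type*) [AddCommGroup C] [Group W] where
  v : W →₀ C
  w : W

namespace TExt

variable {C W : Type*} [AddCommGroup C] [Group W]

/-- conjugation action on finitely supported functions -/
noncomputable def act (w : W) (f : W →₀ C) : W →₀ C := f.equivMapDomain (MulAut.conj w).toEquiv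

@[simp] lemma act_apply (w : W) (f : W →₀ C) (r : W) : act w f r = f (w⁻¹ * r * w) := by
  simp [act, Finsupp.equivMapDomain_apply]

lemma act_single (w r : W) (c : C) : act w (Finsupp.single r c) = Finsupp.single (w * r * w⁻¹) c := by
  simp [act, Finsupp.equivMapDomain_single]

lemma act_add (w : W) (f g : W →₀ C) : act w (f + g) = act w f + act w g := by
  ext r; simp

lemma act_act (w w' : W) (f : W →₀ C) : act w (act w' f) = act (w * w') f := by
  ext r; simp [mul_assoc]

@[simp] lemma act_one (f : W →₀ C) : act 1 f = f := by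
  ext r; simp

@[simp] lemma act_zero (w : W) : act w (0 : W →₀ C) = 0 := by
  ext r; simp

noncomputable instance : Mul (TExt C W) := ⟨fun x y => ⟨x.v + act x.w y.v, x.w * y.w⟩⟩
noncomputable instance : One (TExt C W) := ⟨⟨0, 1⟩⟩
noncomputable instance : Inv (TExt C W) := ⟨fun x => ⟨- act x.w⁻¹ x.v, x.w⁻¹⟩⟩

@[simp] lemma mul_v (x y : TExt C W) : (x * y).v = x.v + act x.w y.v := rfl
@[simp] lemma mul_w (x y : TExt C W) : (x * y).w = x.w * y.w := rfl
@[simp] lemma one_v : (1 : TExt C W).v = 0 := rfl
@[simp] lemma one_w : (1 : TExt C W).w = 1 := rfl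
@[simp] lemma inv_v (x : TExt C W) : (x⁻¹).v = - act x.w⁻¹ x.v := rfl
@[simp] lemma inv_w (x : TExt C W) : (x⁻¹).w = x.w⁻¹ := rfl

noncomputable instance : Group (TExt C W) :=
  Group.ofLeftAxioms
    (by
      intro x y z
      apply TExt.ext
      · simp only [mul_v, mul_w, act_add, act_act, add_assoc]
      · simp only [mul_w, mul_assoc])
    (by
      intro x
      apply TExt.ext
      · simp
      · simp)
    (by
      intro x
      apply TExt.ext
      · simp
      · simp)

/-- projection to `W` -/
noncomputable def toW : TExt C W →* W where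
  toFun x := x.w
  map_one' := rfl
  map_mul' _ _ := rfl

@[simp] lemma toW_apply (x : TExt C W) : toW x = x.w := rfl

/-- sum of all values -/
noncomputable def total : TExt C W →* Multiplicative C where
  toFun x := Multiplicative.ofAdd (x.v.sum fun _ c => c)
  map_one' := by simp
  map_mul' x y := by
    rw [← ofAdd_add]
    congr 1
    rw [mul_v, Finsupp.sum_add_index' (by simp) (by simp)]
    congr 1
    rw [act, Finsupp.equivMapDomain_eq_mapDomain, Finsupp.sum_mapDomain_index (by simp) (by simp)]

lemma total_apply (x : TExt C W) : total x = Multiplicative.ofAdd (x.v.sum fun _ c => c) := rfl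

/-- The basic elements `(c δ_s, s)`. -/
noncomputable def el (c : C) (s : W) : TExt C W := ⟨Finsupp.single s c, s⟩

@[simp] lemma el_v (c : C) (s : W) : (el c s).v = Finsupp.single s c := rfl
@[simp] lemma el_w (c : C) (s : W) : (el c s).w = s := rfl

lemma alt_w (x y : TExt C W) (k : ℕ) : (alt x y k).w = alt x.w y.w k := by
  have := map_alt (toW (C := C) (W := W)) x y k
  simpa using this

lemma alt_el_v {a b : W} (ha : a * a = 1) (hb : b * b = 1) (c d : C) (k : ℕ) :
    (alt (el c a) (el d b) k).v =
      ∑ t ∈ Finset.range k, Finsupp.single ((a * b) ^ t * a) (if Even t then c else d) := by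
  induction k with
  | zero => simp
  | succ k ih =>
    rw [alt_succ', mul_v, ih, Finset.sum_range_succ]
    congr 1
    have h := alt_conj ha hb k
    rw [alt_w]
    by_cases hk : Even k
    · simp only [hk, if_true] at h ⊢
      rw [el_v, act_single]
      simp only [el_w]
      rw [h]
    · simp only [hk, if_false] at h ⊢
      rw [el_v, act_single]
      simp only [el_w]
      rw [h]

lemma alt_el_comm {a b : W} (ha : a * a = 1) (hb : b * b = 1) {m : ℕ} (hm : (a * b) ^ m = 1)
    (c d : C) (hcd : Odd m → c = d) :
    alt (el c a) (el d b) m = alt (el d b) (el c a) m := by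
  apply TExt.ext
  · rw [alt_el_v ha hb, alt_el_v hb ha]
    rw [← Finset.sum_range_reflect]
    apply Finset.sum_congr rfl
    intro t ht
    have htm : t < m := Finset.mem_range.mp ht
    have key : (a * b) ^ (m - 1 - t) * a = (b * a) ^ t * b := by
      have h1 : (b * a) ^ t = ((a * b) ^ t)⁻¹ := by
        have : b * a = (a * b)⁻¹ := by
          rw [mul_inv_rev, inv_eq_of_mul_eq_one_left ha, inv_eq_of_mul_eq_one_left hb]
        rw [this, inv_pow]
      rw [h1]
      have h2 : (a * b) ^ t * ((a * b) ^ (m - 1 - t) * (a * b)) = 1 := by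
        rw [← pow_succ, ← pow_add, ← hm]
        congr 1
        omega
      have h3 : (a * b) ^ (m - 1 - t) * (a * b) = ((a * b) ^ t)⁻¹ := by
        rw [eq_comm, inv_eq_iff_mul_eq_one]
        exact h2
      rw [← h3]
      calc (a * b) ^ (m - 1 - t) * a = (a * b) ^ (m - 1 - t) * a * (b * b) := by rw [hb, mul_one]
        _ = _ := by simp only [mul_assoc]
    rw [key]
    congr 1
    by_cases hmo : Odd m
    · rw [hcd hmo]; simp
    · rw [Nat.not_odd_iff_even] at hmo
      by_cases hte : Even t
      · have : ¬ Even (m - 1 - t) := by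
          obtain ⟨x, hx⟩ := hmo
          obtain ⟨y, hy⟩ := hte
          rintro ⟨z, hz⟩
          omega
        simp [hte, this]
      · have : Even (m - 1 - t) := by
          rw [Nat.not_even_iff_odd] at hte
          obtain ⟨x, hx⟩ := hmo
          obtain ⟨y, hy⟩ := hte
          exact ⟨x - 1 - y, by omega⟩
        simp [hte, this]
  · rw [alt_w, alt_w]
    exact alt_comm_of_pow ha hb hm

end TExt

end Pool.Agent.Helper703.Cox

namespace Pool.Agent.Helper703.Cox

open Real

/-- Chebyshev type sequence `0, 1, 2c, …` -/
noncomputable def qs (c : ℝ) : ℕ → ℝ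
  | 0 => 0
  | 1 => 1
  | (k + 2) => 2 * c * qs c (k + 1) - qs c k

@[simp] lemma qs_zero (c : ℝ) : qs c 0 = 0 := rfl
@[simp] lemma qs_one (c : ℝ) : qs c 1 = 1 := rfl
lemma qs_add_two (c : ℝ) (k : ℕ) : qs c (k + 2) = 2 * c * qs c (k + 1) - qs c k := rfl

lemma qs_sin (θ : ℝ) (k : ℕ) : qs (cos θ) k * sin θ = sin (k * θ) := by
  induction k using Nat.strong_induction_on with
  | _ k ih =>
    match k with
    | 0 => simp
    | 1 => simp
    | (k + 2) =>
      rw [qs_add_two, sub_mul, mul_assoc, ih (k + 1) (by omega), ih k (by omega)]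
      have h1 : ((k + 2 : ℕ) : ℝ) * θ = ((k + 1 : ℕ) : ℝ) * θ + θ := by push_cast; ring
      have h2 : (k : ℝ) * θ = ((k + 1 : ℕ) : ℝ) * θ - θ := by push_cast; ring
      rw [h1, h2, sin_add, sin_sub]
      ring

lemma qs_of_one (k : ℕ) : qs 1 k = k := by
  induction k using Nat.strong_induction_on with
  | _ k ih =>
    match k with
    | 0 => simp
    | 1 => simp
    | (k + 2) =>
      rw [qs_add_two, ih (k + 1) (by omega), ih k (by omega)]
      push_cast; ring

variable {B : Type*} (M : CoxeterMatrix B)

/-- cosine entries; infinite entries (coded `0`) give `cos 0 = 1`. -/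
noncomputable def cc (i j : B) : ℝ := cos (π / (M i j : ℝ))

lemma cc_symm (i j : B) : cc M i j = cc M j i := by
  unfold cc; rw [M.symmetric]

@[simp] lemma cc_self (i : B) : cc M i i = -1 := by
  simp [cc]

lemma two_le_of_ne {i j : B} (h : i ≠ j) (h0 : M i j ≠ 0) : 2 ≤ M i j := by
  have := M.off_diagonal i j h
  omega

lemma cc_of_zero {i j : B} (h : M i j = 0) : cc M i j = 1 := by simp [cc, h]

lemma sin_pos_of_ne {i j : B} (h : i ≠ j) (h0 : M i j ≠ 0) : 0 < sin (π / (M i j : ℝ)) := by
  have h2 := two_le_of_ne M h h0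
  have h2' : (2 : ℝ) ≤ (M i j : ℝ) := by exact_mod_cast h2
  apply sin_pos_of_pos_of_lt_pi
  · positivity
  · rw [div_lt_iff₀ (by linarith)]
    nlinarith [pi_pos]

lemma qs_nonneg {i j : B} (h : i ≠ j) {k : ℕ} (hk : M i j = 0 ∨ k ≤ M i j) :
    0 ≤ qs (cc M i j) k := by
  by_cases h0 : M i j = 0
  · rw [cc_of_zero M h0, qs_of_one]
    positivity
  · have hk' : k ≤ M i j := hk.resolve_left h0
    have hs := sin_pos_of_ne M h h0
    have h1 : 0 ≤ sin (k * (π / (M i j : ℝ))) := by
      apply sin_nonneg_of_nonneg_of_le_pi
      · positivity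
      · have hm : (0 : ℝ) < (M i j : ℝ) := by
          have := two_le_of_ne M h h0
          exact_mod_cast (by omega : 0 < M i j)
        have : (k : ℝ) ≤ (M i j : ℝ) := by exact_mod_cast hk'
        rw [mul_div_assoc', div_le_iff₀ hm]
        nlinarith [pi_pos]
    rw [← qs_sin] at h1
    exact nonneg_of_mul_nonneg_left h1 hs

variable [Fintype B] [DecidableEq B]

/-- basis vector -/
abbrev ee (i : B) : B → ℝ := Pi.single i 1

/-- coroot functional `v ↦ 2 (e_i, v)` -/
noncomputable def coroot (i : B) : Module.Dual ℝ (B → ℝ) :=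
  ∑ j, (-2 * cc M i j) • LinearMap.proj j

@[simp] lemma coroot_ee (i j : B) : coroot M i (ee j) = -2 * cc M i j := by
  simp [coroot, ee, LinearMap.sum_apply, Pi.single_apply]

/-- reflection -/
noncomputable def sg (i : B) : Module.End ℝ (B → ℝ) := Module.preReflection (ee i) (coroot M i)

lemma sg_apply (i : B) (v : B → ℝ) : sg M i v = v - coroot M i v • ee i := rfl

lemma sg_sg (i : B) (v : B → ℝ) : sg M i (sg M i v) = v := by
  have h : coroot M i (ee i) = 2 := by simp
  exact Module.involutive_preReflection h v

lemma sg_sq (i : B) : sg M i * sg M i = 1 := by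
  apply LinearMap.ext
  intro v
  exact sg_sg M i v

lemma sg_ee_self (i : B) : sg M i (ee i) = - ee i := by
  rw [sg_apply, coroot_ee, cc_self]
  module

lemma sg_ee (i j : B) : sg M j (ee i) = ee i + (2 * cc M i j) • ee j := by
  rw [sg_apply, coroot_ee, cc_symm]
  module

open CoxeterSystem in
/-- Dihedral computation. -/
lemma prod_alt_ee (i j : B) (k : ℕ) :
    (((alternatingWord i j k).map (sg M)).prod) (ee i) =
      if Even k then qs (cc M i j) (k + 1) • ee i + qs (cc M i j) k • ee j
      else qs (cc M i j) (k + 1) • ee j + qs (cc M i j) k • ee i := by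
  induction k with
  | zero => simp [alternatingWord]
  | succ k ih =>
    rw [alternatingWord_succ', List.map_cons, List.prod_cons, Module.End.mul_apply, ih]
    by_cases hk : Even k
    · have hk1 : ¬ Even (k + 1) := by simpa [Nat.even_add_one] using hk
      simp only [hk, hk1, if_true, if_false]
      rw [map_add, map_smul, map_smul, sg_ee, sg_ee_self, qs_add_two]
      module
    · have hk1 : Even (k + 1) := by simpa [Nat.even_add_one] using hk
      simp only [hk, hk1, if_true, if_false]
      rw [map_add, map_smul, map_smul, sg_ee, sg_ee_self, qs_add_two, cc_symm M j i]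
      module

lemma prod_alt_eq_pow {G : Type*} [Monoid G] (f : B → G) (i j : B) (m : ℕ) :
    (((CoxeterSystem.alternatingWord i j (2 * m)).map f).prod) = (f i * f j) ^ m := by
  induction m with
  | zero => simp [CoxeterSystem.alternatingWord]
  | succ m ih =>
    have h1 : 2 * (m + 1) = 2 * m + 1 + 1 := by ring
    rw [h1, CoxeterSystem.alternatingWord_succ', CoxeterSystem.alternatingWord_succ']
    have he : Even (2 * m) := even_two_mul m
    have ho : ¬ Even (2 * m + 1) := by simp
    simp only [he, ho, if_true, if_false, List.map_cons, List.prod_cons, ih]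
    rw [pow_succ', mul_assoc]

lemma qs_two_mul {i j : B} (h : i ≠ j) (h0 : M i j ≠ 0) :
    qs (cc M i j) (2 * M i j) = 0 ∧ qs (cc M i j) (2 * M i j + 1) = 1 := by
  have hs := sin_pos_of_ne M h h0
  have hm : (M i j : ℝ) ≠ 0 := by exact_mod_cast h0
  constructor
  · have h1 := qs_sin (π / (M i j : ℝ)) (2 * M i j)
    have h2 : ((2 * M i j : ℕ) : ℝ) * (π / (M i j : ℝ)) = 2 * π := by
      push_cast; field_simp
    rw [h2, sin_two_pi] at h1
    exact (mul_eq_zero.mp h1).resolve_right hs.ne'
  · have h1 := qs_sin (π / (M i j : ℝ)) (2 * M i j + 1)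
    have h2 : ((2 * M i j + 1 : ℕ) : ℝ) * (π / (M i j : ℝ)) = (π / (M i j : ℝ)) + 2 * π := by
      push_cast; field_simp; ring
    rw [h2, sin_add_two_pi] at h1
    have : (qs (cc M i j) (2 * M i j + 1) - 1) * sin (π / (M i j : ℝ)) = 0 := by
      rw [sub_mul, one_mul]
      exact sub_eq_zero.mpr h1
    have := (mul_eq_zero.mp this).resolve_right hs.ne'
    linarith

lemma pow_ee_left {i j : B} (h : i ≠ j) (h0 : M i j ≠ 0) :
    ((sg M i * sg M j) ^ M i j) (ee i) = ee i := by
  rw [← prod_alt_eq_pow, prod_alt_ee]
  obtain ⟨h1, h2⟩ := qs_two_mul M h h0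
  simp [h1, h2]

lemma pow_ee_right {i j : B} (h : i ≠ j) (h0 : M i j ≠ 0) :
    ((sg M i * sg M j) ^ M i j) (ee j) = ee j := by
  have h1 := pow_ee_left M h.symm (by rwa [M.symmetric])
  have h2 : (sg M i * sg M j) ^ M i j * (sg M j * sg M i) ^ M i j = 1 := by
    have : ∀ m : ℕ, (sg M i * sg M j) ^ m * (sg M j * sg M i) ^ m = 1 := by
      intro m
      induction m with
      | zero => simp
      | succ m ih =>
        rw [pow_succ, pow_succ']
        calc (sg M i * sg M j) ^ m * (sg M i * sg M j) * (sg M j * sg M i * (sg M j * sg M i) ^ m)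
            = (sg M i * sg M j) ^ m * (sg M i * (sg M j * sg M j) * sg M i) *
              (sg M j * sg M i) ^ m := by simp only [mul_assoc]
          _ = 1 := by rw [sg_sq, mul_one, sg_sq, mul_one, ih]
    exact this _
  rw [M.symmetric j i] at h1
  conv_lhs => rw [← h1]
  rw [← Module.End.mul_apply, h2, Module.End.one_apply]

lemma sg_liftable : M.IsLiftable (sg M) := by
  intro i j
  by_cases hij : i = j
  · subst hij; rw [sg_sq, one_pow]
  by_cases h0 : M i j = 0
  · rw [h0, pow_zero]
  apply LinearMap.ext
  intro v
  have hs := sin_pos_of_ne M hij h0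
  set c := cc M i j with hc
  have hc2 : 1 - c ^ 2 ≠ 0 := by
    have : sin (π / (M i j : ℝ)) ^ 2 + c ^ 2 = 1 := sin_sq_add_cos_sq _
    nlinarith
  set p := coroot M i v with hp
  set r := coroot M j v with hr
  set a := (p + c * r) / (2 * (1 - c ^ 2)) with ha
  set b := (c * p + r) / (2 * (1 - c ^ 2)) with hb
  set v' := v - a • ee i - b • ee j with hv'
  have hcj : cc M j i = c := cc_symm M j i
  have e1 : coroot M i v' = 0 := by
    rw [hv', map_sub, map_sub, map_smul, map_smul, coroot_ee, coroot_ee, cc_self, ← hp, ← hc,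
      smul_eq_mul, smul_eq_mul, ha, hb]
    field_simp
    ring
  have e2 : coroot M j v' = 0 := by
    rw [hv', map_sub, map_sub, map_smul, map_smul, coroot_ee, coroot_ee, cc_self, ← hr, hcj,
      smul_eq_mul, smul_eq_mul, ha, hb]
    field_simp
    ring
  have s1 : sg M i v' = v' := by rw [sg_apply, e1]; simp
  have s2 : sg M j v' = v' := by rw [sg_apply, e2]; simp
  have s3 : ∀ m : ℕ, ((sg M i * sg M j) ^ m) v' = v' := by
    intro m
    induction m with
    | zero => simp
    | succ m ih => rw [pow_succ, Module.End.mul_apply, Module.End.mul_apply, s2, s1, ih]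
  have hv : v = v' + a • ee i + b • ee j := by rw [hv']; abel
  rw [Module.End.one_apply]
  conv_lhs => rw [hv]
  rw [map_add, map_add, map_smul, map_smul, s3, pow_ee_left M hij h0, pow_ee_right M hij h0, ← hv]

variable {M}
variable {W : Type*} [Group W] (cs : CoxeterSystem M W)

/-- The geometric representation. -/
noncomputable def geo : W →* Module.End ℝ (B → ℝ) := cs.lift ⟨sg M, sg_liftable M⟩

@[simp] lemma geo_simple (i : B) : geo cs (cs.simple i) = sg M i := by
  simp [geo]

lemma geo_wordProd (ω : List B) : geo cs (cs.wordProd ω) = (ω.map (sg M)).prod := by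
  induction ω with
  | nil => simp
  | cons i ω ih => rw [cs.wordProd_cons, map_mul, ih, geo_simple, List.map_cons, List.prod_cons]

@[simp] lemma geo_inv_apply (w : W) (v : B → ℝ) : geo cs w⁻¹ (geo cs w v) = v := by
  rw [← Module.End.mul_apply, ← map_mul, inv_mul_cancel, map_one, Module.End.one_apply]

@[simp] lemma geo_apply_inv (w : W) (v : B → ℝ) : geo cs w (geo cs w⁻¹ v) = v := by
  rw [← Module.End.mul_apply, ← map_mul, mul_inv_cancel, map_one, Module.End.one_apply]

lemma geo_injective_apply (w : W) {v v' : B → ℝ} (h : geo cs w v = geo cs w v') : v = v' := by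
  rw [← geo_inv_apply cs w v, h, geo_inv_apply]

end Pool.Agent.Helper703.Cox

namespace Pool.Agent.Helper703.Cox

open CoxeterSystem

variable {B : Type*} {M : CoxeterMatrix B} [Fintype B] [DecidableEq B]
variable {W : Type*} [Group W] (cs : CoxeterSystem M W)

lemma ee_nonneg (i : B) : (0 : B → ℝ) ≤ ee i := by
  intro j
  simp only [Pi.zero_apply, ee, Pi.single_apply]
  split_ifs <;> norm_num

lemma ee_ne_zero (i : B) : (ee i : B → ℝ) ≠ 0 := by
  intro h
  have := congrFun h i
  simp [ee] at this

/-- **Tits**: `w e_i ≥ 0` if `ℓ (w s_i) > ℓ w`. -/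
theorem geo_nonneg (w : W) (i : B) (h : cs.length w < cs.length (w * cs.simple i)) :
    0 ≤ geo cs w (ee i) := by
  classical
  induction hn : cs.length w using Nat.strong_induction_on generalizing w i with
  | _ n ih =>
  by_cases hw : w = 1
  · subst hw
    rw [map_one, Module.End.one_apply]
    exact ee_nonneg i
  obtain ⟨j, hj⟩ := cs.exists_rightDescent_of_ne_one hw
  have hj' : cs.length (w * cs.simple j) + 1 = cs.length w := cs.isRightDescent_iff.mp hj
  have hij : i ≠ j := by
    rintro rfl
    omega
  set P : ℕ → Prop := fun k =>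
    ∃ v : W, w = v * cs.wordProd (alternatingWord i j k) ∧ cs.length w = cs.length v + k with hP
  have hP1 : P 1 := by
    refine ⟨w * cs.simple j, ?_, by omega⟩
    simp [alternatingWord]
  have hw1 : 1 ≤ cs.length w := by omega
  obtain ⟨k, hk1, hkP, hkmax⟩ : ∃ k, 1 ≤ k ∧ P k ∧ ¬ P (k + 1) := by
    refine ⟨Nat.findGreatest P (cs.length w), ?_, ?_, ?_⟩
    · exact Nat.le_findGreatest hw1 hP1
    · exact Nat.findGreatest_spec hw1 hP1
    · intro hcon
      have : Nat.findGreatest P (cs.length w) + 1 ≤ cs.length w := by
        obtain ⟨v, _, hv⟩ := hcon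
        omega
      have := Nat.le_findGreatest this hcon
      omega
  obtain ⟨v, hv, hvl⟩ := hkP
  obtain ⟨k', rfl⟩ : ∃ k', k = k' + 1 := ⟨k - 1, by omega⟩
  -- both `i` and `j` are right ascents of `v`
  have hg : cs.length v < cs.length (v * cs.simple (if Even (k' + 1) then j else i)) := by
    by_contra hcon
    have hlt : cs.length (v * cs.simple (if Even (k' + 1) then j else i)) + 1 = cs.length v := by
      rcases cs.length_mul_simple v (if Even (k' + 1) then j else i) with h1 | h1 <;> omega
    apply hkmax
    refine ⟨v * cs.simple (if Even (k' + 1) then j else i), ?_, by omega⟩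
    rw [alternatingWord_succ', cs.wordProd_cons, ← mul_assoc, cs.simple_mul_simple_cancel_right]
    exact hv
  have hf : cs.length v < cs.length (v * cs.simple (if Even k' then j else i)) := by
    by_contra hcon
    have hlt : cs.length (v * cs.simple (if Even k' then j else i)) + 1 = cs.length v := by
      rcases cs.length_mul_simple v (if Even k' then j else i) with h1 | h1 <;> omega
    rw [alternatingWord_succ', cs.wordProd_cons, ← mul_assoc] at hv
    have h2 := cs.length_mul_le (v * cs.simple (if Even k' then j else i))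
      (cs.wordProd (alternatingWord i j k'))
    rw [← hv] at h2
    have h3 := cs.length_wordProd_le (alternatingWord i j k')
    rw [length_alternatingWord] at h3
    omega
  have hvi : cs.length v < cs.length (v * cs.simple i) := by
    by_cases he : Even k'
    · have : ¬ Even (k' + 1) := by simpa [Nat.even_add_one] using he
      simpa [this] using hg
    · simpa [he] using hf
  have hvj : cs.length v < cs.length (v * cs.simple j) := by
    by_cases he : Even k'
    · simpa [he] using hf
    · have : Even (k' + 1) := by simpa [Nat.even_add_one] using he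
      simpa [this] using hg
  have hi0 := ih (cs.length v) (by omega) v i hvi rfl
  have hj0 := ih (cs.length v) (by omega) v j hvj rfl
  -- bound on k
  have hkm : M i j = 0 ∨ k' + 1 < M i j := by
    by_contra hcon
    push Not at hcon
    obtain ⟨h0, hm⟩ := hcon
    have hred : cs.IsReduced (alternatingWord i j (k' + 1)) := by
      have h2 := cs.length_mul_le v (cs.wordProd (alternatingWord i j (k' + 1)))
      rw [← hv] at h2
      have h3 := cs.length_wordProd_le (alternatingWord i j (k' + 1))
      unfold CoxeterSystem.IsReduced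
      rw [length_alternatingWord] at h3 ⊢
      omega
    have hle : ¬ (k' + 1 > M i j) := fun hgt => cs.not_isReduced_alternatingWord i j h0 hgt hred
    have heq : k' + 1 = M i j := by omega
    have hb := cs.wordProd_braidWord_eq i j
    unfold braidWord at hb
    rw [M.symmetric j i, ← heq, alternatingWord_succ j i, cs.wordProd_concat] at hb
    rw [hb, ← mul_assoc] at hv
    rw [hv, cs.simple_mul_simple_cancel_right] at h
    have h2 := cs.length_mul_le v (cs.wordProd (alternatingWord i j k'))
    have h3 := cs.length_wordProd_le (alternatingWord i j k')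
    rw [length_alternatingWord] at h3
    rw [← hv] at h
    omega
  have q1 : 0 ≤ qs (cc M i j) (k' + 1 + 1) :=
    qs_nonneg M hij (by rcases hkm with h | h; exact Or.inl h; exact Or.inr (by omega))
  have q2 : 0 ≤ qs (cc M i j) (k' + 1) :=
    qs_nonneg M hij (by rcases hkm with h | h; exact Or.inl h; exact Or.inr (by omega))
  rw [hv, map_mul, Module.End.mul_apply, geo_wordProd, prod_alt_ee]
  split_ifs
  · rw [map_add, map_smul, map_smul]
    exact add_nonneg (smul_nonneg q1 hi0) (smul_nonneg q2 hj0)
  · rw [map_add, map_smul, map_smul]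
    exact add_nonneg (smul_nonneg q1 hj0) (smul_nonneg q2 hi0)

theorem geo_nonpos (w : W) (i : B) (h : cs.length (w * cs.simple i) < cs.length w) :
    geo cs w (ee i) ≤ 0 := by
  have h1 : 0 ≤ geo cs (w * cs.simple i) (ee i) := by
    apply geo_nonneg
    rwa [cs.simple_mul_simple_cancel_right]
  rw [map_mul, Module.End.mul_apply, geo_simple, sg_ee_self, map_neg] at h1
  exact neg_nonneg.mp h1

lemma geo_ee_ne_zero (w : W) (i : B) : geo cs w (ee i) ≠ 0 := by
  intro h
  apply ee_ne_zero (B := B) i
  apply geo_injective_apply cs w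
  rw [h, map_zero]

theorem geo_nonneg_iff (w : W) (i : B) :
    0 ≤ geo cs w (ee i) ↔ cs.length w < cs.length (w * cs.simple i) := by
  constructor
  · intro h
    by_contra hcon
    have hlt : cs.length (w * cs.simple i) < cs.length w := by
      rcases cs.length_mul_simple w i with h1 | h1 <;> omega
    have := geo_nonpos cs w i hlt
    exact geo_ee_ne_zero cs w i (le_antisymm this h)
  · exact geo_nonneg cs w i

theorem geo_nonpos_iff (w : W) (i : B) :
    geo cs w (ee i) ≤ 0 ↔ cs.length (w * cs.simple i) < cs.length w := by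
  constructor
  · intro h
    by_contra hcon
    have hlt : cs.length w < cs.length (w * cs.simple i) := by
      rcases cs.length_mul_simple w i with h1 | h1 <;> omega
    have := geo_nonneg cs w i hlt
    exact geo_ee_ne_zero cs w i (le_antisymm h this)
  · exact geo_nonpos cs w i

/-- Faithfulness. -/
theorem eq_one_of_geo (w : W) (h : ∀ i, 0 ≤ geo cs w (ee i)) : w = 1 := by
  by_contra hw
  obtain ⟨j, hj⟩ := cs.exists_rightDescent_of_ne_one hw
  have h1 := geo_nonpos cs w j hj
  exact geo_ee_ne_zero cs w j (le_antisymm h1 (h j))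

theorem geo_injective : Function.Injective (geo cs) := by
  rw [injective_iff_map_eq_one]
  intro w hw
  apply eq_one_of_geo cs
  intro i
  rw [hw, Module.End.one_apply]
  exact ee_nonneg i

lemma simple_injective : Function.Injective cs.simple := by
  intro i j hij
  have h := congrArg (fun w => geo cs w (ee i)) hij
  simp only [geo_simple] at h
  by_contra hne
  rw [sg_ee_self, sg_ee] at h
  have h2 := congrFun h i
  simp [ee, hne] at h2
  norm_num at h2

end Pool.Agent.Helper703.Cox

namespace Pool.Agent.Helper703.Cox

open CoxeterSystem TExt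

variable {B : Type*} {M : CoxeterMatrix B} {W : Type*} [Group W] (cs : CoxeterSystem M W)

lemma liftable_el : M.IsLiftable (fun i => (el 1 (cs.simple i) : TExt (ZMod 2) W)) := by
  intro i j
  rw [← alt_mul_two]
  apply TExt.ext
  · rw [alt_el_v (cs.simple_mul_simple_self i) (cs.simple_mul_simple_self j), two_mul,
      Finset.sum_range_add]
    have h : ∀ t, (cs.simple i * cs.simple j) ^ (M i j + t) = (cs.simple i * cs.simple j) ^ t := by
      intro t
      rw [pow_add, cs.simple_mul_simple_pow, one_mul]
    simp only [h, ite_self]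
    rw [← two_nsmul]
    ext r
    rw [one_v, Finsupp.smul_apply, Finsupp.zero_apply]
    rw [nsmul_eq_mul]
    have : ((2 : ℕ) : ZMod 2) = 0 := rfl
    rw [this, zero_mul]
  · rw [alt_w, el_w, el_w, alt_mul_two, cs.simple_mul_simple_pow, one_w]

/-- The mod 2 inversion cocycle. -/
noncomputable def invc : W →* TExt (ZMod 2) W :=
  cs.lift ⟨fun i => el 1 (cs.simple i), liftable_el cs⟩

@[simp] lemma invc_simple (i : B) : invc cs (cs.simple i) = el 1 (cs.simple i) :=
  cs.lift_apply_simple (liftable_el cs) i

@[simp] lemma invc_w (w : W) : (invc cs w).w = w := by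
  have : (TExt.toW).comp (invc cs) = MonoidHom.id W := by
    apply cs.ext_simple
    intro i
    simp
  exact DFunLike.congr_fun this w

lemma mem_leftInvSeq_of_invc (ω : List B) (t : W) (h : (invc cs (cs.wordProd ω)).v t ≠ 0) :
    t ∈ cs.leftInvSeq ω := by
  classical
  induction ω generalizing t with
  | nil => simp at h
  | cons i ω ih =>
    rw [cs.wordProd_cons, map_mul, mul_v, Finsupp.add_apply, invc_simple, el_v, el_w, act_apply,
      Finsupp.single_apply] at h
    rw [leftInvSeq, List.mem_cons]
    by_cases h1 : cs.simple i = t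
    · left; exact h1.symm
    · right
      rw [if_neg h1, zero_add] at h
      rw [List.mem_map]
      refine ⟨_, ih _ h, ?_⟩
      simp only [MulAut.conj_apply]
      group

/-- Exchange, in terms of the inversion sequence. -/
lemma simple_mem_leftInvSeq (ω : List B) (i : B)
    (h : cs.length (cs.simple i * cs.wordProd ω) < cs.length (cs.wordProd ω)) :
    cs.simple i ∈ cs.leftInvSeq ω := by
  classical
  apply mem_leftInvSeq_of_invc
  intro h0
  obtain ⟨ω', hred, hω'⟩ := cs.exists_isReduced (cs.simple i * cs.wordProd ω)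
  have h1 : (invc cs (cs.wordProd ω')).v (cs.simple i) ≠ 0 := by
    rw [← hω', map_mul, mul_v, Finsupp.add_apply, invc_simple, el_v, el_w, act_apply,
      Finsupp.single_apply, if_pos rfl]
    have : (cs.simple i)⁻¹ * cs.simple i * cs.simple i = cs.simple i := by group
    rw [this, h0, add_zero]
    exact one_ne_zero
  have h2 := mem_leftInvSeq_of_invc cs ω' _ h1
  have h3 := (cs.isLeftInversion_of_mem_leftInvSeq hred h2).2
  rw [← hω', cs.simple_mul_simple_cancel_left] at h3
  omega

/-- Exchange condition. -/
theorem exchange (ω : List B) (i : B)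
    (h : cs.length (cs.simple i * cs.wordProd ω) < cs.length (cs.wordProd ω)) :
    ∃ j, j < ω.length ∧ cs.simple i * cs.wordProd ω = cs.wordProd (ω.eraseIdx j) := by
  have h1 := simple_mem_leftInvSeq cs ω i h
  obtain ⟨j, hj, hji⟩ := List.mem_iff_getElem.mp h1
  refine ⟨j, by simpa using hj, ?_⟩
  rw [← hji, ← List.getD_eq_getElem _ 1 hj, cs.getD_leftInvSeq_mul_wordProd]

end Pool.Agent.Helper703.Cox

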