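import Pool.Agent.Helper703.KL.Words

set_option autoImplicit false

namespace Pool.Agent.Helper703.KL

/-- reduced word of `x` -/
def wx : List ℕ :=
  [8, 9, 2, 3, 4, 5, 6, 7, 8, 2, 3, 4, 5, 6, 7, 2, 3, 4, 5, 6, 5, 2, 3, 4, 1, 2, 1]

/-- path of star operations for `x` -/
def px : List ℕ := [5, 6, 8, 6, 4, 3, 5, 6, 2, 4, 5, 2]

/-- reduced word of `x'` -/
def wy : List ℕ :=
  [8, 9, 1, 2, 3, 4, 5, 6, 7, 8, 1, 2, 3, 4, 5, 6, 7, 1, 2, 3, 4, 5, 6, 1, 2, 3, 4, 5, 4, 1, 2, 1]

/-- path of star operations for `x'` -/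
def py : List ℕ := [6, 8, 5, 4, 6, 3, 5, 2, 4, 2]

/-- left star operations from `x'` to `w` -/
def cyw : List (ℕ × ℕ) :=
  [(7, 6), (6, 5), (5, 4), (4, 3), (3, 2), (8, 7), (7, 6), (5, 6), (4, 5), (3, 2)]

/-- word of `w = λ(x⁻¹, x)` -/
def ww : List ℕ := (demW wx.reverse (wx, patOf wx.reverse)).1

/-- word and inverse pattern of `λ(x'⁻¹, x')` -/
def wz : List ℕ × List ℕ := demW wy.reverse (wy, patOf wy.reverse)

theorem c1 : (okWord wx && okWord wy && decide (wx.length = 27) && decide (wy.length = 32) &&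
    decide (ww.length = 36) && decide (39 ≤ bub 46 wz.2) &&
    decide (27 ≤ bub 46 (patOf wx.reverse)) && decide (32 ≤ bub 46 (patOf wy.reverse)) &&
    okPath px && okPath py && backOk px (patOf wx) && backOk py (patOf wy) &&
    validL px (backRun px (patOf wx)) && validL py (backRun py (patOf wy)) &&
    chainOk cyw (patOf wy.reverse) && okWord (chainEnd cyw wy) &&
    decide (patOf (chainEnd cyw wy ++ ww.reverse) = List.range 10)) = true := by
  decide +kernel

theorem c2 : allExt (desAt (backRun px (patOf wx))) (test 27 px (backRun px (patOf wx))) 10 []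
    (List.range 10) = true := by
  decide +kernel

theorem c3 : allExt (desAt (backRun py (patOf wy))) (test 32 py (backRun py (patOf wy))) 10 []
    (List.range 10) = true := by
  decide +kernel

end Pool.Agent.Helper703.KL
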