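import Mathlib

set_option autoImplicit false

/-! Definitions used in the statement: Laurent polynomials, Iwahori-Hecke algebra, bar involution,
Kazhdan-Lusztig basis, left cells, Bruhat order, the element `λ(x, y)`, affine type `A~_9`. -/

namespace Pool.Agent.Helper703.KL

open LaurentPolynomial Module

/-- The coefficient ring `ℤ[v, v⁻¹]`, with `q = v ^ 2`. -/
abbrev A : Type := LaurentPolynomial ℤ

/-- the power `v ^ n` -/
noncomputable abbrev v (n : ℤ) : A := LaurentPolynomial.T n

/-- `p` lies in `v⁻¹ ℤ[v⁻¹]`: only negative powers of `v`. -/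
def Neg (p : A) : Prop := ∀ n : ℤ, 0 ≤ n → p.coeff n = 0

/-- The Coxeter matrix of affine type `A~_9`: a cycle with 10 vertices. -/
def affA : CoxeterMatrix (Fin 10) where
  M := Matrix.of fun i j => if i = j then 1 else if i + 1 = j ∨ j + 1 = i then 3 else 2
  isSymm := by
    ext i j
    simp only [Matrix.transpose_apply, Matrix.of_apply]
    by_cases h : i = j
    · simp [h]
    · simp only [h, Ne.symm h, if_false, or_comm]
  diagonal := by
    intro i
    simp
  off_diagonal := by
    intro i j h
    simp only [Matrix.of_apply, h, if_false]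
    split_ifs <;> norm_num

section bruhat

variable {B : Type*} {M : CoxeterMatrix B} {W : Type*} [Group W] (cs : CoxeterSystem M W)

/-- The Bruhat order `z ≤ y`: reflexive transitive closure of `a → t a` for reflections `t` that
increase the length. -/
def BLe (z y : W) : Prop :=
  Relation.ReflTransGen
    (fun a b => ∃ t, cs.IsReflection t ∧ b = t * a ∧ cs.length a < cs.length b) z y

end bruhat

section hecke

variable {B : Type*} {M : CoxeterMatrix B} {W : Type*} [Group W] (cs : CoxeterSystem M W)
variable {H : Type*} [Ring H] [Algebra A H]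

/-- `T` is the standard basis of the Iwahori-Hecke algebra `H` of `(W, S)`, with `q = v ^ 2`:
`T_s T_w = T_{sw}` if `ℓ(sw) > ℓ(w)` and `(T_s - q) (T_s + 1) = 0`. -/
structure IsHecke (T : Basis W A H) : Prop where
  one : T 1 = 1
  mul_lt : ∀ i w, cs.length w < cs.length (cs.simple i * w) →
    T (cs.simple i) * T w = T (cs.simple i * w)
  quad : ∀ i, (T (cs.simple i) - algebraMap A H (v 2)) * (T (cs.simple i) + 1) = 0

/-- `bar` is the bar involution: the ring endomorphism with `v ↦ v⁻¹` and `T_s ↦ T_s⁻¹`. -/
structure IsBar (T : Basis W A H) (bar : H →+* H) : Prop where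
  scalar : ∀ a : A, bar (algebraMap A H a) = algebraMap A H (invert a)
  gen : ∀ i, bar (T (cs.simple i)) * T (cs.simple i) = 1

/-- `C` is the Kazhdan-Lusztig basis: `C_w` is fixed by the bar involution, and
`C_w = Σ_y p_{y,w} v^{-ℓ(y)} T_y` with `p_{w,w} = 1` and `p_{y,w} ∈ v⁻¹ ℤ[v⁻¹]` for `y ≠ w`. -/
structure IsKLBasis (T : Basis W A H) (bar : H →+* H) (C : Basis W A H) : Prop where
  bar_eq : ∀ w, bar (C w) = C w
  diag : ∀ w, T.repr (C w) w = v (-(cs.length w : ℤ))
  neg : ∀ w y, y ≠ w → Neg (v (cs.length y : ℤ) * T.repr (C w) y)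

/-- `C_y` occurs in `T_s C_x` for some simple reflection `s`. -/
def LStep (T C : Basis W A H) (y x : W) : Prop :=
  ∃ i, C.repr (T (cs.simple i) * C x) y ≠ 0

/-- the left preorder `y ≤_L x` -/
def LLe (T C : Basis W A H) (y x : W) : Prop :=
  Relation.ReflTransGen (fun a b => LStep cs T C b a) x y

/-- `y ∼_L x`: the elements `y` and `x` lie in the same left cell. -/
def LEq (T C : Basis W A H) (y x : W) : Prop := LLe cs T C y x ∧ LLe cs T C x y

/-- `w = λ(x, y)`: the element `w` occurs in `T_x T_y`, and every element occurring in `T_x T_y`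
is `≤ w` in the Bruhat order. -/
def IsLambda (T : Basis W A H) (x y w : W) : Prop :=
  T.repr (T x * T y) w ≠ 0 ∧ ∀ z, T.repr (T x * T y) z ≠ 0 → BLe cs z w

/-- `x` is shortest in its left cell. -/
def Shortest (T C : Basis W A H) (x : W) : Prop :=
  ∀ y, LEq cs T C y x → cs.length x ≤ cs.length y

/-- Statement (i) with the set `D` in place of the set of distinguished involutions: if `x` is a
shortest element of its left cell, then `λ(x⁻¹, x) ∈ D`. -/
def PartI (T C : Basis W A H) (D : Set W) : Prop :=
  ∀ x, Shortest cs T C x → ∀ w, IsLambda cs T x⁻¹ x w → w ∈ D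

/-- Statement (ii) with the set `D` in place of the set of distinguished involutions: every
`d ∈ D` equals `λ(x⁻¹, x)` for every shortest element `x` of the left cell containing `d`. -/
def PartII (T C : Basis W A H) (D : Set W) : Prop :=
  ∀ d ∈ D, ∀ x, Shortest cs T C x → LEq cs T C x d → IsLambda cs T x⁻¹ x d

end hecke

end Pool.Agent.Helper703.KL
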