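import Pool.Agent.Helper703.KL.Hecke
import Pool.Agent.Helper703.KL.Cox

set_option autoImplicit false

namespace Pool.Agent.Helper703.KL

open LaurentPolynomial Module Pool.Agent.Helper703.Cox

variable {B : Type*} {M : CoxeterMatrix B} {W : Type*} [Group W] (cs : CoxeterSystem M W)

/-- If `s w > w`, `w t > w` and `ℓ (s w t) = ℓ w` then `s w = w t`. -/
lemma exchange_eq (i j : B) (w : W) (h1 : cs.length w < cs.length (cs.simple i * w))
    (h2 : cs.length w < cs.length (w * cs.simple j))
    (h3 : cs.length (cs.simple i * w * cs.simple j) = cs.length w) :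
    cs.simple i * w = w * cs.simple j := by
  obtain ⟨ω, hω, rfl⟩ := cs.exists_isReduced w
  have hl : cs.length (cs.wordProd ω) = ω.length := hω
  have e1 : cs.wordProd (ω ++ [j]) = cs.wordProd ω * cs.simple j := by
    rw [cs.wordProd_append]; simp
  have h4 : cs.length (cs.simple i * cs.wordProd (ω ++ [j]))
      < cs.length (cs.wordProd (ω ++ [j])) := by
    rw [e1, ← mul_assoc, h3]; exact h2
  obtain ⟨k, hk, hk2⟩ := exchange cs (ω ++ [j]) i h4
  rw [e1, ← mul_assoc] at hk2
  rw [List.length_append, List.length_singleton] at hk
  rcases Nat.lt_or_ge k ω.length with h5 | h5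
  · rw [List.eraseIdx_append_of_lt_length h5, cs.wordProd_append] at hk2
    have h6 : cs.wordProd [j] = cs.simple j := by simp
    rw [h6] at hk2
    have h7 := mul_right_cancel hk2
    have h8 := cs.length_wordProd_le (ω.eraseIdx k)
    rw [← h7, List.length_eraseIdx_of_lt h5] at h8
    omega
  · have h6 : k = ω.length := by omega
    subst h6
    rw [List.eraseIdx_append_of_length_le h5] at hk2
    simp only [Nat.sub_self, List.eraseIdx_cons_zero, List.append_nil] at hk2
    have h7 := congrArg (fun x => x * cs.simple j) hk2
    simpa using h7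

open Classical in
/-- left operators -/
noncomputable def Lo (i : B) : (W →₀ A) →ₗ[A] (W →₀ A) :=
  Finsupp.linearCombination A (fun w => if cs.length w < cs.length (cs.simple i * w) then
    Finsupp.single (cs.simple i * w) (1 : A)
    else (v 2 - 1) • Finsupp.single w 1 + v 2 • Finsupp.single (cs.simple i * w) 1)

open Classical in
/-- right operators -/
noncomputable def Ro (i : B) : (W →₀ A) →ₗ[A] (W →₀ A) :=
  Finsupp.linearCombination A (fun w => if cs.length w < cs.length (w * cs.simple i) then
    Finsupp.single (w * cs.simple i) (1 : A)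
    else (v 2 - 1) • Finsupp.single w 1 + v 2 • Finsupp.single (w * cs.simple i) 1)

variable {cs}

lemma Lo_lt {i : B} {w : W} (h : cs.length w < cs.length (cs.simple i * w)) :
    Lo cs i (Finsupp.single w 1) = Finsupp.single (cs.simple i * w) 1 := by
  rw [Lo, Finsupp.linearCombination_single, one_smul, if_pos h]

lemma Lo_gt {i : B} {w : W} (h : cs.length (cs.simple i * w) < cs.length w) :
    Lo cs i (Finsupp.single w 1) =
      (v 2 - 1) • Finsupp.single w 1 + v 2 • Finsupp.single (cs.simple i * w) 1 := by
  rw [Lo, Finsupp.linearCombination_single, one_smul, if_neg (by omega)]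

lemma Ro_lt {i : B} {w : W} (h : cs.length w < cs.length (w * cs.simple i)) :
    Ro cs i (Finsupp.single w 1) = Finsupp.single (w * cs.simple i) 1 := by
  rw [Ro, Finsupp.linearCombination_single, one_smul, if_pos h]

lemma Ro_gt {i : B} {w : W} (h : cs.length (w * cs.simple i) < cs.length w) :
    Ro cs i (Finsupp.single w 1) =
      (v 2 - 1) • Finsupp.single w 1 + v 2 • Finsupp.single (w * cs.simple i) 1 := by
  rw [Ro, Finsupp.linearCombination_single, one_smul, if_neg (by omega)]

lemma Lo_Ro_single (i j : B) (w : W) :
    Lo cs i (Ro cs j (Finsupp.single w 1)) = Ro cs j (Lo cs i (Finsupp.single w 1)) := by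
  have a := cs.length_simple_mul w i
  have b := cs.length_mul_simple w j
  have c := cs.length_mul_simple (cs.simple i * w) j
  have d := cs.length_simple_mul (w * cs.simple j) i
  rw [← mul_assoc] at d
  have key : cs.length (cs.simple i * w * cs.simple j) = cs.length w →
      (cs.length w < cs.length (cs.simple i * w) ∧ cs.length w < cs.length (w * cs.simple j)) ∨
      (cs.length (cs.simple i * w) < cs.length w ∧ cs.length (w * cs.simple j) < cs.length w) →
      cs.simple i * w = w * cs.simple j := by
    intro h3 h
    rcases h with ⟨h1, h2⟩ | ⟨h1, h2⟩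
    · exact exchange_eq cs i j w h1 h2 h3
    · have h4 := exchange_eq cs i j (cs.simple i * w) (by rw [simple_simple]; exact h1)
        (by omega) (by rw [simple_simple]; omega)
      rw [simple_simple] at h4
      conv_rhs => rw [h4]
      rw [cs.simple_mul_simple_cancel_right]
  rcases a with a | a
  · rcases b with b | b
    · rw [Ro_lt (by omega), Lo_lt (w := w) (by omega)]
      rcases c with c | c
      · rw [Lo_lt (by rw [← mul_assoc]; omega), Ro_lt (by omega), mul_assoc]
      · have e := key (by omega) (Or.inl ⟨by omega, by omega⟩)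
        rw [Lo_gt (by rw [← mul_assoc]; omega), Ro_gt (by omega), e, ← mul_assoc, e]
    · rw [Ro_gt (by omega), Lo_lt (w := w) (by omega), map_add, map_smul, map_smul,
        Lo_lt (w := w) (by omega), Lo_lt (w := w * cs.simple j) (by rw [← mul_assoc]; omega),
        Ro_gt (by omega), mul_assoc]
  · rcases b with b | b
    · rw [Ro_lt (by omega), Lo_gt (w := w) (by omega), map_add, map_smul, map_smul,
        Ro_lt (w := w) (by omega), Ro_lt (w := cs.simple i * w) (by omega),
        Lo_gt (by rw [← mul_assoc]; omega), mul_assoc]
    · rw [Ro_gt (w := w) (by omega), Lo_gt (w := w) (by omega), map_add, map_smul, map_smul,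
        map_add, map_smul, map_smul, Ro_gt (w := w) (by omega), Lo_gt (w := w) (by omega)]
      rcases c with c | c
      · have e := key (by omega) (Or.inr ⟨by omega, by omega⟩)
        rw [Lo_lt (w := w * cs.simple j) (by rw [← mul_assoc]; omega),
          Ro_lt (w := cs.simple i * w) (by omega), e, ← mul_assoc, e]
      · rw [Lo_gt (w := w * cs.simple j) (by rw [← mul_assoc]; omega),
          Ro_gt (w := cs.simple i * w) (by omega), ← mul_assoc]
        module

lemma Lo_Ro (i j : B) : Lo cs i * Ro cs j = Ro cs j * Lo cs i := by
  apply Finsupp.lhom_ext'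
  intro w
  apply LinearMap.ext_ring
  exact Lo_Ro_single i j w

lemma Lo_quad (i : B) (x : W →₀ A) :
    Lo cs i (Lo cs i x) = (v 2 - 1) • Lo cs i x + v 2 • x := by
  have : Lo cs i * Lo cs i = (v 2 - 1) • Lo cs i + v 2 • (1 : Module.End A (W →₀ A)) := by
    apply Finsupp.lhom_ext'
    intro w
    apply LinearMap.ext_ring
    show Lo cs i (Lo cs i (Finsupp.single w 1)) = (v 2 - 1) • Lo cs i (Finsupp.single w 1)
      + v 2 • Finsupp.single w 1
    rcases lt_or_gt_of_ne (len_ne (cs := cs) i w) with h | h
    · rw [Lo_gt h, map_add, map_smul, map_smul, Lo_gt h, Lo_lt (by rw [simple_simple]; exact h),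
        simple_simple]
    · rw [Lo_lt h, Lo_gt (by rw [simple_simple]; exact h), simple_simple]
  exact LinearMap.congr_fun this x

/-- the endomorphism algebra of the free module on `W` -/
def EA (W : Type*) : Type _ := Module.End A (W →₀ A)

noncomputable instance (W : Type*) : Ring (EA W) :=
  inferInstanceAs (Ring (Module.End A (W →₀ A)))
noncomputable instance (W : Type*) : Algebra A (EA W) :=
  inferInstanceAs (Algebra A (Module.End A (W →₀ A)))

/-- the underlying endomorphism -/
def EA.toEnd {W : Type*} (h : EA W) : Module.End A (W →₀ A) := h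

/-- endomorphisms as elements of `EA` -/
def EA.of {W : Type*} (h : Module.End A (W →₀ A)) : EA W := h

variable (cs) in
/-- the Hecke algebra -/
noncomputable def HA : Subalgebra A (EA W) :=
  Algebra.adjoin A (Set.range (fun i => EA.of (Lo cs i)))

lemma HA_comm (h : HA cs) (j : B) (x : W →₀ A) :
    (h : EA W).toEnd (Ro cs j x) = Ro cs j ((h : EA W).toEnd x) := by
  obtain ⟨h, hh⟩ := h
  have : Commute h (EA.of (Ro cs j)) := by
    induction hh using Algebra.adjoin_induction with
    | mem x hx =>
      obtain ⟨i, rfl⟩ := hx
      exact Lo_Ro i j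
    | algebraMap r => exact Algebra.commutes r _
    | add x y _ _ hx hy => exact hx.add_left hy
    | mul x y _ _ hx hy => exact hx.mul_left hy
  exact LinearMap.congr_fun this x

variable (cs) in
/-- the Hecke algebra as a type -/
def HT : Type _ := ↥(HA cs)

noncomputable instance : Ring (HT cs) := inferInstanceAs (Ring (HA cs))
noncomputable instance : Algebra A (HT cs) := inferInstanceAs (Algebra A (HA cs))

/-- the underlying operator -/
noncomputable def HT.op (h : HT cs) : Module.End A (W →₀ A) := EA.toEnd (show HA cs from h).1

variable (cs) in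
/-- evaluation at the unit element -/
noncomputable def evh : HT cs →ₗ[A] (W →₀ A) where
  toFun h := h.op (Finsupp.single 1 1)
  map_add' _ _ := rfl
  map_smul' _ _ := rfl

lemma evh_injective : Function.Injective (evh cs) := by
  rw [injective_iff_map_eq_zero]
  intro h hh
  have key : ∀ n, ∀ w : W, cs.length w = n → h.op (Finsupp.single w 1) = 0 := by
    intro n
    induction n with
    | zero =>
      intro w hw
      rw [cs.length_eq_zero_iff] at hw
      subst hw
      exact hh
    | succ n ih =>
      intro w hw
      have hw1 : w ≠ 1 := by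
        rintro rfl
        rw [cs.length_one] at hw
        omega
      obtain ⟨j, hj⟩ := cs.exists_rightDescent_of_ne_one hw1
      have hj' : cs.length (w * cs.simple j) + 1 = cs.length w := cs.isRightDescent_iff.1 hj
      have e : (Finsupp.single w (1 : A)) = Ro cs j (Finsupp.single (w * cs.simple j) 1) := by
        rw [Ro_lt (by rw [cs.simple_mul_simple_cancel_right]; omega),
          cs.simple_mul_simple_cancel_right]
      have e2 := HA_comm (cs := cs) h j (Finsupp.single (w * cs.simple j) 1)
      rw [e]
      refine e2.trans ?_
      have e3 := ih (w * cs.simple j) (by omega)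
      unfold HT.op at e3
      rw [e3, map_zero]
  apply Subtype.ext
  apply Finsupp.lhom_ext'
  intro w
  apply LinearMap.ext_ring
  exact key _ w rfl

variable (cs) in
/-- generator of the Hecke algebra -/
noncomputable def gen (i : B) : HT cs :=
  show HA cs from ⟨Lo cs i, Algebra.subset_adjoin ⟨i, rfl⟩⟩

lemma evh_gen_mul (i : B) (h : HT cs) : evh cs (gen cs i * h) = Lo cs i (evh cs h) := rfl

lemma evh_one : evh cs 1 = Finsupp.single 1 1 := rfl

lemma evh_surjective : Function.Surjective (evh cs) := by
  rw [← LinearMap.range_eq_top, eq_top_iff]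
  have key : ∀ n, ∀ w : W, cs.length w = n →
      (Finsupp.single w (1 : A)) ∈ LinearMap.range (evh cs) := by
    intro n
    induction n with
    | zero =>
      intro w hw
      rw [cs.length_eq_zero_iff] at hw
      subst hw
      exact ⟨1, evh_one⟩
    | succ n ih =>
      intro w hw
      have hw1 : w ≠ 1 := by
        rintro rfl
        rw [cs.length_one] at hw
        omega
      obtain ⟨j, hj⟩ := cs.exists_leftDescent_of_ne_one hw1
      have hj' : cs.length (cs.simple j * w) + 1 = cs.length w := cs.isLeftDescent_iff.1 hj
      obtain ⟨h, hh⟩ := ih (cs.simple j * w) (by omega)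
      refine ⟨gen cs j * h, ?_⟩
      rw [evh_gen_mul, hh, Lo_lt (by rw [simple_simple]; omega), simple_simple]
  intro x _
  rw [← Finsupp.sum_single x, Finsupp.sum]
  apply Submodule.sum_mem
  intro w _
  have : Finsupp.single w (x w) = x w • Finsupp.single w (1 : A) := by
    rw [Finsupp.smul_single, smul_eq_mul, mul_one]
  rw [this]
  exact Submodule.smul_mem _ _ (key _ w rfl)

variable (cs) in
/-- the standard basis -/
noncomputable def TB : Basis W A (HT cs) :=
  Basis.ofRepr (LinearEquiv.ofBijective (evh cs) ⟨evh_injective, evh_surjective⟩)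

lemma evh_TB (w : W) : evh cs (TB cs w) = Finsupp.single w 1 := by
  have : (TB cs).repr (TB cs w) = Finsupp.single w 1 := Basis.repr_self _ _
  exact this

lemma TB_simple (i : B) : TB cs (cs.simple i) = gen cs i := by
  apply evh_injective
  have h1 : cs.length (1 : W) < cs.length (cs.simple i * 1) := by
    rw [mul_one, cs.length_one, cs.length_simple]; omega
  rw [evh_TB]
  show _ = Lo cs i (Finsupp.single 1 1)
  rw [Lo_lt h1, mul_one]

theorem TB_isHecke : IsHecke cs (TB cs) where
  one := by
    apply evh_injective
    rw [evh_TB, evh_one]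
  mul_lt := by
    intro i w h
    apply evh_injective
    rw [TB_simple, evh_gen_mul, evh_TB, evh_TB, Lo_lt h]
  quad := by
    intro i
    apply evh_injective
    rw [sub_mul, mul_add, mul_one, ← Algebra.smul_def, map_sub, map_add, map_smul, map_zero,
      TB_simple, evh_gen_mul, map_add, evh_one]
    have h1 := Lo_quad (cs := cs) i (Finsupp.single 1 1)
    have h2 : evh cs (gen cs i) = Lo cs i (Finsupp.single 1 1) := rfl
    rw [h2, h1]
    module

end Pool.Agent.Helper703.KL
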