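import Pool.Agent.Helper703.KL.Hecke

set_option autoImplicit false

namespace Pool.Agent.Helper703.KL

open LaurentPolynomial Module

variable {B : Type*} {M : CoxeterMatrix B} {W : Type*} [Group W] {cs : CoxeterSystem M W}
variable {H : Type*} [Ring H] [Algebra A H] {T : Basis W A H}

lemma IsHecke.gen_inv (hT : IsHecke cs T) (i : B) :
    T (cs.simple i) * (v (-2) • T (cs.simple i) - (1 - v (-2)) • (1 : H)) = 1 := by
  rw [mul_sub, mul_smul_comm, mul_smul_comm, hT.sq, mul_one, smul_add, smul_smul, smul_smul,
    mul_sub, v_mul_v]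
  simp only [mul_one, neg_add_cancel, T_zero, one_smul]
  abel

lemma IsHecke.gen_inv' (hT : IsHecke cs T) (i : B) :
    (v (-2) • T (cs.simple i) - (1 - v (-2)) • (1 : H)) * T (cs.simple i) = 1 := by
  have h := hT.gen_inv i
  rw [mul_sub, mul_smul_comm, mul_smul_comm, mul_one] at h
  rw [sub_mul, smul_mul_assoc, smul_mul_assoc, one_mul]
  exact h

/-- the unit given by a generator -/
noncomputable def IsHecke.gu (hT : IsHecke cs T) (i : B) : Hˣ where
  val := T (cs.simple i)
  inv := v (-2) • T (cs.simple i) - (1 - v (-2)) • (1 : H)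
  val_inv := hT.gen_inv i
  inv_val := hT.gen_inv' i

lemma IsHecke.isUnit (hT : IsHecke cs T) (n : ℕ) : ∀ w, cs.length w = n → IsUnit (T w) := by
  induction n with
  | zero =>
    intro w hw
    rw [cs.length_eq_zero_iff] at hw
    subst hw
    rw [hT.one]
    exact isUnit_one
  | succ n ih =>
    intro w hw
    have hw1 : w ≠ 1 := by
      rintro rfl
      rw [cs.length_one] at hw
      omega
    obtain ⟨j, hj⟩ := cs.exists_leftDescent_of_ne_one hw1
    have hj' : cs.length (cs.simple j * w) + 1 = cs.length w := cs.isLeftDescent_iff.1 hj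
    have h1 : T w = T (cs.simple j) * T (cs.simple j * w) := by
      rw [hT.mul_lt j _ (by rw [simple_simple]; omega), simple_simple]
    rw [h1]
    exact (hT.gu j).isUnit.mul (ih _ (by omega))

/-- `T w` as a unit -/
noncomputable def IsHecke.u (hT : IsHecke cs T) (w : W) : Hˣ := (hT.isUnit _ w rfl).unit

lemma IsHecke.u_val (hT : IsHecke cs T) (w : W) : (hT.u w : H) = T w := rfl

/-- the image of `T w` under the bar involution -/
noncomputable def IsHecke.bT (hT : IsHecke cs T) (w : W) : H := ((hT.u w⁻¹)⁻¹ : Hˣ)

lemma IsHecke.bT_one (hT : IsHecke cs T) : hT.bT 1 = 1 := by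
  have : hT.u 1⁻¹ = 1 := by
    apply Units.ext
    rw [hT.u_val, inv_one, hT.one]
    rfl
  rw [IsHecke.bT, this, inv_one]
  rfl

lemma IsHecke.bT_lt (hT : IsHecke cs T) (i : B) (w : W)
    (h : cs.length w < cs.length (cs.simple i * w)) :
    hT.bT (cs.simple i * w) = hT.bT (cs.simple i) * hT.bT w := by
  have h1 : hT.u (cs.simple i * w)⁻¹ = hT.u w⁻¹ * hT.u (cs.simple i)⁻¹ := by
    apply Units.ext
    rw [Units.val_mul, hT.u_val, hT.u_val, hT.u_val, mul_inv_rev, cs.inv_simple]
    refine (hT.mulR_lt _ w⁻¹ rfl i ?_).symm
    rw [← length_simple_mul_inv, cs.length_inv]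
    exact h
  rw [IsHecke.bT, h1, mul_inv_rev]
  rfl

lemma IsHecke.bT_sq (hT : IsHecke cs T) (i : B) :
    hT.bT (cs.simple i) * hT.bT (cs.simple i) =
      (v (-2) - 1) • hT.bT (cs.simple i) + v (-2) • (1 : H) := by
  set a := hT.bT (cs.simple i) with ha
  have h1 : T (cs.simple i) * a = 1 := by
    have : hT.u (cs.simple i)⁻¹ = hT.u (cs.simple i) := by rw [cs.inv_simple]
    rw [ha, IsHecke.bT, this, ← hT.u_val]
    exact Units.mul_inv _
  have h3 := hT.sq i
  have h4 : T (cs.simple i) = (v 2 - 1) • (1 : H) + v 2 • a := by
    have h5 : T (cs.simple i) * T (cs.simple i) * a = T (cs.simple i) := by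
      rw [mul_assoc, h1, mul_one]
    rw [← h5, h3, add_mul, smul_mul_assoc, smul_mul_assoc, h1, one_mul]
  have h6 : (1 : H) = (v 2 - 1) • a + v 2 • (a * a) := by
    conv_lhs => rw [← h1, h4]
    rw [add_mul, smul_mul_assoc, smul_mul_assoc, one_mul]
  have h7 : v (-2) * v 2 = 1 := by rw [v_mul_v]; simp
  have h8 : v (-2) • (1 : H) = v (-2) • ((v 2 - 1) • a + v 2 • (a * a)) := by rw [← h6]
  rw [smul_add, smul_smul, smul_smul, mul_sub, h7, mul_one, one_smul, sub_smul, one_smul] at h8
  rw [h8, sub_smul, one_smul]
  abel

lemma IsHecke.bT_gt (hT : IsHecke cs T) (i : B) (w : W)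
    (h : cs.length (cs.simple i * w) < cs.length w) :
    hT.bT (cs.simple i) * hT.bT w =
      (v (-2) - 1) • hT.bT w + v (-2) • hT.bT (cs.simple i * w) := by
  set u := cs.simple i * w with hu
  have hw : w = cs.simple i * u := by rw [hu, simple_simple]
  have h1 : hT.bT w = hT.bT (cs.simple i) * hT.bT u := by
    rw [hw]
    exact hT.bT_lt i u (by rw [← hw]; exact h)
  rw [h1, ← mul_assoc, hT.bT_sq, add_mul, smul_mul_assoc, smul_mul_assoc, one_mul]

/-- the bar map as an additive map -/
noncomputable def IsHecke.barA (hT : IsHecke cs T) : H →+ H :=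
  (Finsupp.liftAddHom (fun w => ((AddMonoidHom.flip (smulAddHom A H)) (hT.bT w)).comp
    ((invert : A ≃ₐ[ℤ] A) : A →+ A))).comp
    (T.repr.toLinearMap.toAddMonoidHom)

lemma IsHecke.barA_smul_T (hT : IsHecke cs T) (a : A) (w : W) :
    hT.barA (a • T w) = (invert a : A) • hT.bT w := by
  rw [IsHecke.barA, AddMonoidHom.comp_apply]
  have : (T.repr.toLinearMap.toAddMonoidHom) (a • T w) = Finsupp.single w a := by
    show T.repr (a • T w) = _
    rw [map_smul, Basis.repr_self, Finsupp.smul_single, smul_eq_mul, mul_one]
  rw [this, Finsupp.liftAddHom_apply_single]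
  rfl

lemma addHom_ext {N : Type*} [AddCommMonoid N] (T : Basis W A H) (F G : H →+ N)
    (h : ∀ (a : A) (w : W), F (a • T w) = G (a • T w)) (x : H) : F x = G x := by
  have h1 : x = ∑ z ∈ (T.repr x).support, T.repr x z • T z := by
    conv_lhs => rw [← T.linearCombination_repr x]
    rw [Finsupp.linearCombination_apply, Finsupp.sum]
  rw [h1, map_sum, map_sum]
  exact Finset.sum_congr rfl (fun z _ => h _ _)

lemma IsHecke.barA_T (hT : IsHecke cs T) (w : W) : hT.barA (T w) = hT.bT w := by
  have := hT.barA_smul_T 1 w
  rwa [one_smul, map_one, one_smul] at this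

lemma IsHecke.barA_smul (hT : IsHecke cs T) (a : A) (h : H) :
    hT.barA (a • h) = (invert a : A) • hT.barA h := by
  refine addHom_ext T (hT.barA.comp (DistribSMul.toAddMonoidHom H a))
    ((DistribSMul.toAddMonoidHom H (invert a : A)).comp hT.barA) ?_ h
  intro b w
  show hT.barA (a • (b • T w)) = (invert a : A) • hT.barA (b • T w)
  rw [smul_smul, hT.barA_smul_T, hT.barA_smul_T, smul_smul, map_mul]

lemma IsHecke.barA_gen_mul (hT : IsHecke cs T) (i : B) (h : H) :
    hT.barA (T (cs.simple i) * h) = hT.bT (cs.simple i) * hT.barA h := by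
  refine addHom_ext T (hT.barA.comp (AddMonoidHom.mulLeft (T (cs.simple i))))
    ((AddMonoidHom.mulLeft (hT.bT (cs.simple i))).comp hT.barA) ?_ h
  intro b w
  show hT.barA (T (cs.simple i) * (b • T w)) = hT.bT (cs.simple i) * hT.barA (b • T w)
  rw [mul_smul_comm, hT.barA_smul, hT.barA_smul, mul_smul_comm, hT.barA_T]
  congr 1
  rcases lt_or_gt_of_ne (len_ne (cs := cs) i w) with h | h
  · rw [hT.mul_gt i w h, map_add, hT.barA_smul, hT.barA_smul, hT.barA_T, hT.barA_T,
      hT.bT_gt i w h, map_sub, invert_T, map_one]
  · rw [hT.mul_lt i w h, hT.barA_T, hT.bT_lt i w h]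

lemma IsHecke.barA_T_mul (hT : IsHecke cs T) (n : ℕ) : ∀ w, cs.length w = n → ∀ h : H,
    hT.barA (T w * h) = hT.bT w * hT.barA h := by
  induction n with
  | zero =>
    intro w hw h
    rw [cs.length_eq_zero_iff] at hw
    subst hw
    rw [hT.one, hT.bT_one, one_mul, one_mul]
  | succ n ih =>
    intro w hw h
    have hw1 : w ≠ 1 := by
      rintro rfl
      rw [cs.length_one] at hw
      omega
    obtain ⟨j, hj⟩ := cs.exists_leftDescent_of_ne_one hw1
    have hj' : cs.length (cs.simple j * w) + 1 = cs.length w := cs.isLeftDescent_iff.1 hj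
    set u := cs.simple j * w with hu
    have hwu : w = cs.simple j * u := by rw [hu, simple_simple]
    have hlt : cs.length u < cs.length (cs.simple j * u) := by rw [← hwu]; omega
    rw [hwu, ← hT.mul_lt j u hlt, hT.bT_lt j u hlt, mul_assoc, hT.barA_gen_mul,
      ih u (by omega), mul_assoc]

lemma IsHecke.barA_mul (hT : IsHecke cs T) (g h : H) :
    hT.barA (g * h) = hT.barA g * hT.barA h := by
  refine addHom_ext T (hT.barA.comp (AddMonoidHom.mulRight h))
    ((AddMonoidHom.mulRight (hT.barA h)).comp hT.barA) ?_ g
  intro b w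
  show hT.barA (b • T w * h) = hT.barA (b • T w) * hT.barA h
  rw [smul_mul_assoc, hT.barA_smul, hT.barA_smul, smul_mul_assoc, hT.barA_T_mul _ w rfl,
    hT.barA_T]

/-- the bar involution -/
noncomputable def IsHecke.barR (hT : IsHecke cs T) : H →+* H where
  toFun := hT.barA
  map_one' := by
    rw [← hT.one, hT.barA_T, hT.bT_one, hT.one]
  map_mul' := hT.barA_mul
  map_zero' := map_zero _
  map_add' := map_add _

theorem IsHecke.barR_isBar (hT : IsHecke cs T) : IsBar cs T hT.barR where
  scalar := by
    intro a
    show hT.barA (algebraMap A H a) = _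
    rw [Algebra.algebraMap_eq_smul_one, hT.barA_smul, Algebra.algebraMap_eq_smul_one]
    congr 1
    exact map_one hT.barR
  gen := by
    intro i
    show hT.barA (T (cs.simple i)) * _ = 1
    have : hT.u (cs.simple i)⁻¹ = hT.u (cs.simple i) := by rw [cs.inv_simple]
    rw [hT.barA_T, IsHecke.bT, this, ← hT.u_val]
    exact Units.inv_mul _

section kl

variable {H : Type*} [AddCommGroup H] [Module A H]
variable {T : Basis W A H} {L : B → H →ₗ[A] H} {bar : H →+ H}

/-- the conditions on a single Kazhdan-Lusztig element -/
structure KLElt (cs : CoxeterSystem M W) (T : Basis W A H) (bar : H →+ H) (w : W) (h : H) :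
    Prop where
  bar_eq : bar h = h
  diag : T.repr h w = 1
  neg : ∀ y, y ≠ w → Neg (T.repr h y)
  supp : ∀ y, T.repr h y ≠ 0 → y = w ∨ cs.length y < cs.length w

lemma KLMod.exists_KLElt (hM : KLMod cs T L bar) (n : ℕ) :
    ∀ w, cs.length w = n → ∃ h, KLElt cs T bar w h := by
  classical
  induction n using Nat.strong_induction_on with
  | _ n ih =>
    intro w hn
    by_cases hw1 : w = 1
    · subst hw1
      refine ⟨T 1, hM.bar_one, ?_, ?_, ?_⟩
      · rw [Basis.repr_self, Finsupp.single_eq_same]
      · intro y hy
        rw [Basis.repr_self, Finsupp.single_eq_of_ne hy]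
        exact Neg.zero
      · intro y hy
        left
        by_contra h
        rw [Basis.repr_self, Finsupp.single_eq_of_ne h] at hy
        exact hy rfl
    obtain ⟨i, hi⟩ := cs.exists_leftDescent_of_ne_one hw1
    have hi' : cs.length (cs.simple i * w) + 1 = cs.length w := cs.isLeftDescent_iff.1 hi
    set u := cs.simple i * w with hu
    have hwu : cs.simple i * u = w := by rw [hu, simple_simple]
    obtain ⟨Cu, hCu⟩ := ih (cs.length u) (by omega) u rfl
    set S : Finset W := (T.repr Cu).support.filter
      (fun z => cs.length (cs.simple i * z) < cs.length z) with hS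
    have hSu : ∀ z ∈ S, T.repr Cu z ≠ 0 ∧ cs.length (cs.simple i * z) < cs.length z ∧
        cs.length z < cs.length u := by
      intro z hz
      rw [hS, Finset.mem_filter, Finsupp.mem_support_iff] at hz
      refine ⟨hz.1, hz.2, ?_⟩
      rcases hCu.supp z hz.1 with h | h
      · have := hz.2
        rw [h, hwu] at this
        omega
      · exact h
    have hex : ∀ z, ∃ h, z ∈ S → KLElt cs T bar z h := by
      intro z
      by_cases hz : z ∈ S
      · obtain ⟨h, hh⟩ := ih (cs.length z) (by have := hSu z hz; omega) z rfl
        exact ⟨h, fun _ => hh⟩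
      · exact ⟨0, fun h => absurd h hz⟩
    choose c hc using hex
    have hsu0 : T.repr Cu w = 0 := by
      by_contra hcon
      rcases hCu.supp w hcon with h | h
      · rw [h] at hi'
        omega
      · omega
    refine ⟨theta L i Cu - ∑ z ∈ S, ((T.repr Cu z).coeff (-1)) • c z, ?_, ?_, ?_, ?_⟩
    · rw [map_sub, hM.bar_theta, hCu.bar_eq, map_sum]
      congr 1
      apply Finset.sum_congr rfl
      intro z hz
      rw [map_zsmul, (hc z hz).bar_eq]
    all_goals
      have hsum : ∀ y, T.repr (∑ z ∈ S, ((T.repr Cu z).coeff (-1)) • c z) y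
          = ∑ z ∈ S, ((T.repr Cu z).coeff (-1)) • T.repr (c z) y := by
        intro y
        rw [map_sum, Finsupp.finsetSum_apply]
        apply Finset.sum_congr rfl
        intro z _
        rw [map_zsmul, Finsupp.smul_apply]
    · have h1 : ∑ z ∈ S, ((T.repr Cu z).coeff (-1)) • T.repr (c z) w = 0 := by
        apply Finset.sum_eq_zero
        intro z hz
        have h2 : T.repr (c z) w = 0 := by
          by_contra hcon
          have h3 := hSu z hz
          rcases (hc z hz).supp w hcon with h | h
          · rw [h] at hi'
            omega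
          · omega
        rw [h2, smul_zero]
      rw [map_sub, Finsupp.sub_apply, hM.repr_theta, hsum, h1, ← hu, hCu.diag, hsu0]
      simp
    · intro y hyw
      rw [map_sub, Finsupp.sub_apply, hM.repr_theta, hsum]
      have hsyu : cs.simple i * y ≠ u := by
        intro h
        exact hyw (by rw [← hwu, ← h, simple_simple])
      have h1 : Neg (T.repr Cu (cs.simple i * y)) := hCu.neg _ hsyu
      by_cases hy : cs.length (cs.simple i * y) < cs.length y
      · rw [if_pos hy]
        have hyu' : y ≠ u := by
          rintro rfl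
          rw [hwu] at hy
          omega
        have h2 : NonPos (v 1 * T.repr Cu y) := (hCu.neg y hyu').pos_mul
        have h4 : ∀ z ∈ S.erase y, Neg (((T.repr Cu z).coeff (-1)) • T.repr (c z) y) := by
          intro z hz
          apply Neg.zsmul
          exact (hc z (Finset.mem_of_mem_erase hz)).neg _ (Finset.ne_of_mem_erase hz).symm
        have h5 : (∑ z ∈ S, ((T.repr Cu z).coeff (-1)) • T.repr (c z) y)
            = (T.repr Cu y).coeff (-1) • (1 : A) + ∑ z ∈ S.erase y,
              ((T.repr Cu z).coeff (-1)) • T.repr (c z) y := by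
          by_cases hyS : y ∈ S
          · rw [← Finset.add_sum_erase _ _ hyS, (hc y hyS).diag]
          · have : T.repr Cu y = 0 := by
              by_contra hcon
              apply hyS
              rw [hS, Finset.mem_filter, Finsupp.mem_support_iff]
              exact ⟨hcon, hy⟩
            rw [Finset.erase_eq_of_notMem hyS, this, coeff_zero, zero_smul, zero_add]
        rw [h5]
        have h6 := Neg.sum _ _ h4
        intro n hn
        rw [coeff_sub, coeff_add, coeff_add, h1 n hn, h6 n hn, coeff_zsmul, coeff_one]
        rcases hn.lt_or_eq with h7 | h7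
        · rw [h2 n h7, if_neg (ne_of_gt h7)]
          ring
        · subst h7
          rw [coeff_v_mul, if_pos rfl]
          simp
      · rw [if_neg hy]
        have h2 : Neg (v (-1) * T.repr Cu y) := by
          apply NonPos.neg_mul
          by_cases hyu' : y = u
          · rw [hyu', hCu.diag]; exact NonPos.one
          · exact (hCu.neg y hyu').nonPos
        have h4 : Neg (∑ z ∈ S, ((T.repr Cu z).coeff (-1)) • T.repr (c z) y) := by
          apply Neg.sum
          intro z hz
          apply Neg.zsmul
          apply (hc z hz).neg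
          rintro rfl
          exact hy (hSu _ hz).2.1
        exact (h1.add h2).sub h4
    · intro y hy
      by_contra hcon
      push Not at hcon
      apply hy
      have hb : cs.length y ≤ cs.length (cs.simple i * y) + 1 := by
        rcases cs.length_simple_mul y i with h | h <;> omega
      rw [map_sub, Finsupp.sub_apply, hM.repr_theta, hsum]
      have h1 : T.repr Cu (cs.simple i * y) = 0 := by
        by_contra h
        rcases hCu.supp _ h with h2 | h2
        · apply hcon.1
          rw [← hwu, ← h2, simple_simple]
        · omega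
      have h2 : T.repr Cu y = 0 := by
        by_contra h
        rcases hCu.supp _ h with h2 | h2
        · rw [h2] at hcon
          omega
        · omega
      have h3 : ∑ z ∈ S, ((T.repr Cu z).coeff (-1)) • T.repr (c z) y = 0 := by
        apply Finset.sum_eq_zero
        intro z hz
        have h4 : T.repr (c z) y = 0 := by
          by_contra h
          have h5 := hSu z hz
          rcases (hc z hz).supp y h with h6 | h6
          · rw [h6] at hcon
            omega
          · omega
        rw [h4, smul_zero]
      rw [h1, h2, h3]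
      simp

lemma KLMod.exists_basis (hM : KLMod cs T L bar) :
    ∃ C : Basis W A H, ∀ w, KLElt cs T bar w (C w) := by
  classical
  have hex := fun w => hM.exists_KLElt _ w rfl
  choose c hc using hex
  let F : (W →₀ A) →ₗ[A] H := Finsupp.linearCombination A c
  have hF : ∀ w, F (Finsupp.single w 1) = c w := by
    intro w
    simp only [F, Finsupp.linearCombination_single, one_smul]
  have hinj : Function.Injective F := by
    rw [injective_iff_map_eq_zero]
    intro x hx
    by_contra hne
    obtain ⟨y, hy, hmax⟩ := Finset.exists_max_image _ cs.length (Finsupp.support_nonempty_iff.2 hne)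
    have h1 : T.repr (F x) y = x y := by
      simp only [F, Finsupp.linearCombination_apply, Finsupp.sum]
      rw [map_sum, Finsupp.finsetSum_apply, Finset.sum_eq_single y]
      · rw [map_smul, Finsupp.smul_apply, (hc y).diag, smul_eq_mul, mul_one]
      · intro z hz hzy
        rw [map_smul, Finsupp.smul_apply]
        have : T.repr (c z) y = 0 := by
          by_contra h
          rcases (hc z).supp y h with h2 | h2
          · exact hzy h2.symm
          · have := hmax z hz
            omega
        rw [this, smul_zero]
      · intro h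
        exact absurd hy h
    rw [hx, map_zero, Finsupp.zero_apply] at h1
    exact (Finsupp.mem_support_iff.1 hy) h1.symm
  have hsurj : Function.Surjective F := by
    rw [← LinearMap.range_eq_top, eq_top_iff]
    have key : ∀ n, ∀ w : W, cs.length w = n → T w ∈ LinearMap.range F := by
      intro n
      induction n using Nat.strong_induction_on with
      | _ n ih =>
        intro w hw
        have h1 : c w = ∑ z ∈ (T.repr (c w)).support, T.repr (c w) z • T z := by
          conv_lhs => rw [← T.linearCombination_repr (c w)]
          rw [Finsupp.linearCombination_apply, Finsupp.sum]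
        have hwS : w ∈ (T.repr (c w)).support := by
          rw [Finsupp.mem_support_iff, (hc w).diag]
          exact one_ne_zero
        rw [← Finset.add_sum_erase _ _ hwS, (hc w).diag, one_smul] at h1
        have h2 : T w = c w - ∑ z ∈ (T.repr (c w)).support.erase w, T.repr (c w) z • T z := by
          rw [eq_sub_iff_add_eq]
          exact h1.symm
        rw [h2]
        apply Submodule.sub_mem
        · exact ⟨_, hF w⟩
        · apply Submodule.sum_mem
          intro z hz
          apply Submodule.smul_mem
          apply ih (cs.length z) _ z rfl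
          rcases (hc w).supp z (Finsupp.mem_support_iff.1 (Finset.mem_of_mem_erase hz)) with h | h
          · exact absurd h (Finset.ne_of_mem_erase hz)
          · omega
    intro x _
    rw [← T.linearCombination_repr x, Finsupp.linearCombination_apply, Finsupp.sum]
    apply Submodule.sum_mem
    intro w _
    exact Submodule.smul_mem _ _ (key _ w rfl)
  refine ⟨Basis.ofRepr (LinearEquiv.ofBijective F ⟨hinj, hsurj⟩).symm, ?_⟩
  intro w
  have : (Basis.ofRepr (LinearEquiv.ofBijective F ⟨hinj, hsurj⟩).symm) w = c w := hF w
  rw [this]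
  exact hc w

end kl

theorem exists_KLBasis {bar : H →+* H} (hT : IsHecke cs T) (hb : IsBar cs T bar) :
    ∃ C : Basis W A H, IsKLBasis cs T bar C := by
  obtain ⟨C, hC⟩ := (klModL hT hb).exists_basis
  refine ⟨C, fun w => (hC w).bar_eq, ?_, ?_⟩
  · intro w
    have h := (hC w).diag
    rw [nb_repr] at h
    have h2 : v (-(cs.length w : ℤ)) * (v (cs.length w : ℤ) * T.repr (C w) w) =
        v (-(cs.length w : ℤ)) := by
      rw [h, mul_one]
    rw [← mul_assoc, v_mul_v] at h2
    simpa using h2
  · intro w y h
    rw [← nb_repr]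
    exact (hC w).neg y h

end Pool.Agent.Helper703.KL
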