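import Pool.Agent.Helper703.KL.KLMod

set_option autoImplicit false

namespace Pool.Agent.Helper703.KL

open LaurentPolynomial Module

variable {B : Type*} {M : CoxeterMatrix B} {W : Type*} [Group W] (cs : CoxeterSystem M W)
variable {H : Type*} [Ring H] [Algebra A H]

variable {cs}

/-- the normalised basis -/
noncomputable def nb (cs : CoxeterSystem M W) (T : Basis W A H) : Basis W A H :=
  T.isUnitSMul (fun w => isUnit_T (-(cs.length w : ℤ)))

lemma nb_apply (T : Basis W A H) (w : W) : nb cs T w = v (-(cs.length w : ℤ)) • T w := by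
  rw [nb, Basis.isUnitSMul_apply]

lemma nb_repr (T : Basis W A H) (h : H) (w : W) :
    (nb cs T).repr h w = v (cs.length w : ℤ) * T.repr h w := by
  classical
  have hFG : (nb cs T).coord w = v (cs.length w : ℤ) • T.coord w := by
    apply (nb cs T).ext
    intro y
    rw [Basis.coord_apply, Basis.repr_self, LinearMap.smul_apply, nb_apply, map_smul,
      Basis.coord_apply, Basis.repr_self, smul_eq_mul, smul_eq_mul, Finsupp.single_apply]
    split_ifs with h
    · subst h
      rw [mul_one, v_mul_v]
      simp
    · simp
  exact LinearMap.congr_fun hFG h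

variable {T : Basis W A H} {bar : H →+* H}

lemma IsHecke.sq (hT : IsHecke cs T) (i : B) :
    T (cs.simple i) * T (cs.simple i) = (v 2 - 1) • T (cs.simple i) + v 2 • (1 : H) := by
  have h := hT.quad i
  rw [sub_mul, mul_add, mul_one, ← Algebra.smul_def, smul_add] at h
  rw [sub_smul, one_smul]
  have h2 : T (cs.simple i) * T (cs.simple i) + T (cs.simple i)
      = v 2 • T (cs.simple i) + v 2 • (1 : H) := by
    rw [sub_eq_zero] at h; exact h
  rw [← eq_sub_iff_add_eq] at h2
  rw [h2]; abel

lemma IsHecke.mul_gt (hT : IsHecke cs T) (i : B) (w : W)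
    (h : cs.length (cs.simple i * w) < cs.length w) :
    T (cs.simple i) * T w = (v 2 - 1) • T w + v 2 • T (cs.simple i * w) := by
  set u := cs.simple i * w with hu
  have hw : w = cs.simple i * u := by rw [hu, simple_simple]
  have h1 : T w = T (cs.simple i) * T u := by
    rw [hT.mul_lt i u (by rw [← hw]; exact h), ← hw]
  rw [h1, ← mul_assoc, hT.sq, add_mul, smul_mul_assoc, smul_mul_assoc, one_mul]

lemma IsHecke.mulR_lt (hT : IsHecke cs T) (n : ℕ) : ∀ (w : W), cs.length w = n → ∀ i : B,
    cs.length w < cs.length (w * cs.simple i) → T w * T (cs.simple i) = T (w * cs.simple i) := by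
  induction n with
  | zero =>
    intro w hw i _
    rw [cs.length_eq_zero_iff] at hw
    subst hw
    rw [hT.one, one_mul, one_mul]
  | succ n ih =>
    intro w hw i hi
    have hw1 : w ≠ 1 := by
      rintro rfl
      rw [cs.length_one] at hw
      omega
    obtain ⟨j, hj⟩ := cs.exists_leftDescent_of_ne_one hw1
    have hj' : cs.length (cs.simple j * w) + 1 = cs.length w := cs.isLeftDescent_iff.1 hj
    set u := cs.simple j * w with hu
    have hwu : w = cs.simple j * u := by rw [hu, simple_simple]
    have hun : cs.length u = n := by omega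
    have h1 : T w = T (cs.simple j) * T u := by
      rw [hT.mul_lt j u (by rw [← hwu]; omega), ← hwu]
    have h3 : cs.simple j * (u * cs.simple i) = w * cs.simple i := by rw [← mul_assoc, ← hwu]
    have h4 : cs.length (w * cs.simple i) = cs.length w + 1 := by
      rcases cs.length_mul_simple w i with h | h <;> omega
    have h5 : cs.length (w * cs.simple i) ≤ cs.length (u * cs.simple i) + 1 := by
      rw [← h3]
      rcases cs.length_simple_mul (u * cs.simple i) j with h | h <;> omega
    have h6 : cs.length (u * cs.simple i) ≤ cs.length u + 1 := by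
      rcases cs.length_mul_simple u i with h | h <;> omega
    rw [h1, mul_assoc, ih u hun i (by omega), hT.mul_lt j _ (by rw [h3]; omega), h3]

lemma IsHecke.mulR_gt (hT : IsHecke cs T) (w : W) (i : B)
    (h : cs.length (w * cs.simple i) < cs.length w) :
    T w * T (cs.simple i) = (v 2 - 1) • T w + v 2 • T (w * cs.simple i) := by
  set u := w * cs.simple i with hu
  have hw : w = u * cs.simple i := by rw [hu, cs.simple_mul_simple_cancel_right]
  have h1 : T w = T u * T (cs.simple i) := by
    rw [hT.mulR_lt _ u rfl i (by rw [← hw]; exact h), ← hw]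
  rw [h1, mul_assoc, hT.sq, mul_add, mul_smul_comm, mul_smul_comm, mul_one]

/-- left multiplication by the normalised generator -/
noncomputable def opL (cs : CoxeterSystem M W) (T : Basis W A H) (i : B) : H →ₗ[A] H :=
  LinearMap.mulLeft A (v (-1) • T (cs.simple i))

/-- right multiplication by the normalised generator -/
noncomputable def opR (cs : CoxeterSystem M W) (T : Basis W A H) (i : B) : H →ₗ[A] H :=
  LinearMap.mulRight A (v (-1) • T (cs.simple i))

lemma opL_apply (i : B) (h : H) : opL cs T i h = v (-1) • (T (cs.simple i) * h) := by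
  rw [opL, LinearMap.mulLeft_apply, smul_mul_assoc]

lemma opR_apply (i : B) (h : H) : opR cs T i h = v (-1) • (h * T (cs.simple i)) := by
  rw [opR, LinearMap.mulRight_apply, mul_smul_comm]

lemma IsBar.smul (hb : IsBar cs T bar) (a : A) (h : H) :
    bar (a • h) = (invert a : A) • bar h := by
  rw [Algebra.smul_def, map_mul, hb.scalar, ← Algebra.smul_def]

lemma IsBar.bar_gen (hT : IsHecke cs T) (hb : IsBar cs T bar) (i : B) :
    bar (T (cs.simple i)) = v (-2) • T (cs.simple i) - (1 - v (-2)) • (1 : H) := by
  have h1 : T (cs.simple i) * (v (-2) • T (cs.simple i) - (1 - v (-2)) • (1 : H)) = 1 := by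
    rw [mul_sub, mul_smul_comm, mul_smul_comm, hT.sq, mul_one, smul_add, smul_smul, smul_smul,
      mul_sub, v_mul_v]
    simp only [mul_one, neg_add_cancel, T_zero, one_smul]
    abel
  have h2 := hb.gen i
  calc bar (T (cs.simple i)) = bar (T (cs.simple i)) *
        (T (cs.simple i) * (v (-2) • T (cs.simple i) - (1 - v (-2)) • (1 : H))) := by
          rw [h1, mul_one]
    _ = _ := by rw [← mul_assoc, h2, one_mul]

theorem klModL (hT : IsHecke cs T) (hb : IsBar cs T bar) :
    KLMod cs (nb cs T) (opL cs T) (bar : H →+ H) where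
  L_lt := by
    intro i w h
    have h2 : cs.length (cs.simple i * w) = cs.length w + 1 := by
      rcases cs.length_simple_mul w i with h | h <;> omega
    rw [opL_apply, nb_apply, nb_apply, mul_smul_comm, hT.mul_lt i w h, smul_smul, v_mul_v, h2]
    congr 2
    push_cast; ring
  L_gt := by
    intro i w h
    have h2 : cs.length w = cs.length (cs.simple i * w) + 1 := by
      rcases cs.length_simple_mul w i with h | h <;> omega
    rw [opL_apply, nb_apply, nb_apply, mul_smul_comm, hT.mul_gt i w h, smul_smul, v_mul_v,
      smul_add, smul_smul, smul_smul, smul_smul, v_mul_v, mul_sub, v_mul_v, xi, sub_mul, v_mul_v,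
      v_mul_v, add_comm]
    congr 2
    · congr 1
      rw [h2]; push_cast; ring
    · congr 2
      · ring
      · ring
  bar_smul := fun a h => hb.smul a h
  bar_one := by
    rw [nb_apply, cs.length_one]
    simp only [Nat.cast_zero, neg_zero, T_zero, one_smul]
    rw [hT.one]
    exact map_one bar
  bar_L := by
    intro i h
    rw [opL_apply, opL_apply]
    show bar (v (-1) • (T (cs.simple i) * h)) = _ • (_ * bar h) - xi • bar h
    rw [hb.smul, map_mul, hb.bar_gen hT, invert_T, sub_mul, smul_mul_assoc, smul_mul_assoc,
      one_mul, smul_sub, smul_smul, smul_smul, v_mul_v, xi, mul_sub, mul_one, neg_neg, v_mul_v]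
    norm_num


/-- inversion on the index set -/
noncomputable def invB (b : Basis W A H) : Basis W A H := b.reindex (Equiv.inv W)

lemma invB_apply (b : Basis W A H) (w : W) : invB b w = b w⁻¹ := by
  rw [invB, Basis.reindex_apply]
  rfl

lemma invB_repr (b : Basis W A H) (h : H) (w : W) : (invB b).repr h w = b.repr h w⁻¹ := by
  rw [invB, Basis.repr_reindex_apply]
  rfl

lemma length_simple_mul_inv (i : B) (w : W) :
    cs.length (cs.simple i * w) = cs.length (w⁻¹ * cs.simple i) := by
  rw [← cs.length_inv, mul_inv_rev, cs.inv_simple]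

theorem klModR (hT : IsHecke cs T) (hb : IsBar cs T bar) :
    KLMod cs (invB (nb cs T)) (opR cs T) (bar : H →+ H) where
  L_lt := by
    intro i w h
    have h2 : cs.length (w⁻¹ * cs.simple i) = cs.length w + 1 := by
      rw [← length_simple_mul_inv]
      rcases cs.length_simple_mul w i with h | h <;> omega
    have h3 : cs.length w⁻¹ < cs.length (w⁻¹ * cs.simple i) := by
      rw [h2, cs.length_inv]; omega
    rw [opR_apply, invB_apply, invB_apply, nb_apply, nb_apply, smul_mul_assoc,
      hT.mulR_lt _ _ rfl i h3, smul_smul, v_mul_v, mul_inv_rev, cs.inv_simple, h2, cs.length_inv]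
    congr 2
    push_cast; ring
  L_gt := by
    intro i w h
    have h2 : cs.length w = cs.length (w⁻¹ * cs.simple i) + 1 := by
      rw [← length_simple_mul_inv]
      rcases cs.length_simple_mul w i with h | h <;> omega
    have h3 : cs.length (w⁻¹ * cs.simple i) < cs.length w⁻¹ := by
      rw [cs.length_inv]; omega
    rw [opR_apply, invB_apply, invB_apply, nb_apply, nb_apply, smul_mul_assoc,
      hT.mulR_gt _ i h3, smul_smul, v_mul_v,
      smul_add, smul_smul, smul_smul, smul_smul, v_mul_v, mul_sub, v_mul_v, xi, sub_mul, v_mul_v,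
      v_mul_v, add_comm, mul_inv_rev, cs.inv_simple, cs.length_inv]
    congr 2
    · congr 1
      rw [h2]; push_cast; ring
    · congr 2
      · ring
      · ring
  bar_smul := fun a h => hb.smul a h
  bar_one := by
    rw [invB_apply, nb_apply, inv_one, cs.length_one]
    simp only [Nat.cast_zero, neg_zero, T_zero, one_smul]
    rw [hT.one]
    exact map_one bar
  bar_L := by
    intro i h
    rw [opR_apply, opR_apply]
    show bar (v (-1) • (h * T (cs.simple i))) = _ • (bar h * _) - xi • bar h
    rw [hb.smul, map_mul, hb.bar_gen hT, invert_T, mul_sub, mul_smul_comm, mul_smul_comm,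
      mul_one, smul_sub, smul_smul, smul_smul, v_mul_v, xi, mul_sub, mul_one, neg_neg, v_mul_v]
    norm_num

variable {C : Basis W A H}

theorem isKL_L (hC : IsKLBasis cs T bar C) : IsKL (nb cs T) (bar : H →+ H) C where
  bar_eq := hC.bar_eq
  diag := by
    intro w
    rw [nb_repr, hC.diag, v_mul_v]
    simp
  neg := by
    intro w y h
    rw [nb_repr]
    exact hC.neg w y h

theorem isKL_R (hC : IsKLBasis cs T bar C) :
    IsKL (invB (nb cs T)) (bar : H →+ H) (fun w => C w⁻¹) where
  bar_eq := fun w => hC.bar_eq w⁻¹
  diag := by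
    intro w
    rw [invB_repr]
    exact (isKL_L hC).diag w⁻¹
  neg := by
    intro w y h
    rw [invB_repr]
    exact (isKL_L hC).neg w⁻¹ y⁻¹ (fun h2 => h (inv_injective h2))

end Pool.Agent.Helper703.KL
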