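import Pool.Agent.Helper703.KL.Bruhat

set_option autoImplicit false

namespace Pool.Agent.Helper703.KL

open LaurentPolynomial Module Pool.Agent.Helper703.Cox

variable {B : Type*} {M : CoxeterMatrix B} {W : Type*} [Group W] (cs : CoxeterSystem M W)
variable {H : Type*} [Ring H] [Algebra A H]

/-- evaluation at `v = 2` -/
noncomputable def ev : A →+* ℚ :=
  LaurentPolynomial.eval₂ (Int.castRingHom ℚ) (Units.mk0 (2 : ℚ) (by norm_num))

/-- zero or of positive value at `v = 2` -/
def Pos (f : A) : Prop := f = 0 ∨ 0 < ev f

lemma ev_v2 : ev (v 2) = 4 := by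
  rw [ev, v, eval₂_T]
  norm_num

lemma Pos.zero : Pos 0 := Or.inl rfl
lemma Pos.nonneg {f : A} (h : Pos f) : 0 ≤ ev f := by
  rcases h with rfl | h
  · rw [map_zero]
  · exact h.le
lemma Pos.add {f g : A} (hf : Pos f) (hg : Pos g) : Pos (f + g) := by
  rcases hf with rfl | hf
  · rwa [zero_add]
  · right
    rw [map_add]
    have := hg.nonneg
    linarith
lemma Pos.add_ne_left {f g : A} (hf : Pos f) (hg : Pos g) (h : f ≠ 0) : f + g ≠ 0 := by
  intro h0
  have h1 := hf.resolve_left h
  have h2 := hg.nonneg
  have h3 := congrArg ev h0
  rw [map_add, map_zero] at h3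
  linarith
lemma Pos.mul {c f : A} (hc : 0 < ev c) (hf : Pos f) : Pos (c * f) := by
  rcases hf with rfl | hf
  · left; rw [mul_zero]
  · right; rw [map_mul]; exact mul_pos hc hf
lemma Pos.mul_ne {c f : A} (hc : 0 < ev c) (hf : Pos f) (h : f ≠ 0) : c * f ≠ 0 := by
  intro h0
  have h1 := hf.resolve_left h
  have h3 := congrArg ev h0
  rw [map_mul, map_zero] at h3
  have := mul_pos hc h1
  linarith
lemma ev_q_pos : 0 < ev (v 2) := by rw [ev_v2]; norm_num
lemma ev_q1_pos : 0 < ev (v 2 - 1) := by rw [map_sub, ev_v2, map_one]; norm_num

variable {cs} {T : Basis W A H}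

open Classical in
lemma repr_gen_mul (hT : IsHecke cs T) (i : B) (h : H) (z : W) :
    T.repr (T (cs.simple i) * h) z =
      if cs.length (cs.simple i * z) < cs.length z then
        T.repr h (cs.simple i * z) + (v 2 - 1) * T.repr h z
      else v 2 * T.repr h (cs.simple i * z) := by
  let F : H →ₗ[A] A := (T.coord z) ∘ₗ (LinearMap.mulLeft A (T (cs.simple i)))
  by_cases hz : cs.length (cs.simple i * z) < cs.length z
  · rw [if_pos hz]
    let G : H →ₗ[A] A := T.coord (cs.simple i * z) + (v 2 - 1) • T.coord z
    have hFG : F = G := by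
      apply T.ext
      intro w
      show T.repr (T (cs.simple i) * T w) z =
        T.repr (T w) (cs.simple i * z) + (v 2 - 1) • T.repr (T w) z
      rcases lt_or_gt_of_ne (len_ne (cs := cs) i w) with h1 | h1
      · rw [hT.mul_gt i w h1]
        simp only [map_add, map_smul, Basis.repr_self, Finsupp.add_apply, Finsupp.smul_apply,
          Finsupp.single_apply, smul_eq_mul]
        have : w ≠ cs.simple i * z := by
          rintro rfl
          rw [simple_simple] at h1
          omega
        have h3 : cs.simple i * w ≠ z := by
          intro h; exact this ((simple_mul_eq i w z).1 h)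
        rw [if_neg this, if_neg h3]
        ring
      · rw [hT.mul_lt i w h1]
        simp only [Basis.repr_self, Finsupp.single_apply, smul_eq_mul]
        have : w ≠ z := by
          rintro rfl
          omega
        rw [if_neg this, mul_zero, add_zero]
        simp only [simple_mul_eq]
    exact LinearMap.congr_fun hFG h
  · rw [if_neg hz]
    let G : H →ₗ[A] A := v 2 • T.coord (cs.simple i * z)
    have hFG : F = G := by
      apply T.ext
      intro w
      show T.repr (T (cs.simple i) * T w) z = v 2 • T.repr (T w) (cs.simple i * z)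
      rcases lt_or_gt_of_ne (len_ne (cs := cs) i w) with h1 | h1
      · rw [hT.mul_gt i w h1]
        simp only [map_add, map_smul, Basis.repr_self, Finsupp.add_apply, Finsupp.smul_apply,
          Finsupp.single_apply, smul_eq_mul]
        have : w ≠ z := by
          rintro rfl
          omega
        rw [if_neg this]
        simp only [simple_mul_eq]
        ring
      · rw [hT.mul_lt i w h1]
        simp only [Basis.repr_self, Finsupp.single_apply, smul_eq_mul]
        have : w ≠ cs.simple i * z := by
          rintro rfl
          rw [simple_simple] at h1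
          have := len_ne (cs := cs) i z
          omega
        have h3 : cs.simple i * w ≠ z := by
          intro h; exact this ((simple_mul_eq i w z).1 h)
        rw [if_neg this, if_neg h3, mul_zero]
    exact LinearMap.congr_fun hFG h

lemma support_aux (hT : IsHecke cs T) (ω : List B) (y : W) :
    (∀ z, Pos (T.repr ((ω.map (fun i => T (cs.simple i))).prod * T y) z)) ∧
    T.repr ((ω.map (fun i => T (cs.simple i))).prod * T y) (dem cs ω y) ≠ 0 ∧
    (∀ z, T.repr ((ω.map (fun i => T (cs.simple i))).prod * T y) z ≠ 0 →
      BLe cs z (dem cs ω y)) := by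
  classical
  induction ω with
  | nil =>
    simp only [List.map_nil, List.prod_nil, one_mul, Basis.repr_self, dem, Finsupp.single_apply]
    refine ⟨?_, ?_, ?_⟩
    · intro z
      split_ifs
      · right; rw [map_one]; norm_num
      · exact Pos.zero
    · rw [if_pos trivial]; exact one_ne_zero
    · intro z hz
      by_cases h : y = z
      · rw [h]; exact Relation.ReflTransGen.refl
      · rw [if_neg h] at hz
        exact absurd rfl hz
  | cons i ω ih =>
    obtain ⟨h1, h2, h3⟩ := ih
    set h := (ω.map (fun i => T (cs.simple i))).prod * T y with hh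
    have e : ((i :: ω).map (fun i => T (cs.simple i))).prod * T y = T (cs.simple i) * h := by
      rw [List.map_cons, List.prod_cons, mul_assoc]
    rw [e]
    refine ⟨?_, ?_, ?_⟩
    · intro z
      rw [repr_gen_mul hT]
      split_ifs
      · exact (h1 _).add (Pos.mul ev_q1_pos (h1 z))
      · exact Pos.mul ev_q_pos (h1 _)
    · rw [repr_gen_mul hT, if_pos]
      · show T.repr h (cs.simple i * dmax cs i (dem cs ω y)) +
          (v 2 - 1) * T.repr h (dmax cs i (dem cs ω y)) ≠ 0
        by_cases hlt : cs.length (dem cs ω y) < cs.length (cs.simple i * dem cs ω y)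
        · rw [dmax, if_pos hlt, simple_simple]
          exact (h1 _).add_ne_left (Pos.mul ev_q1_pos (h1 _)) h2
        · rw [dmax, if_neg hlt, add_comm]
          exact (Pos.mul ev_q1_pos (h1 _)).add_ne_left (h1 _) (Pos.mul_ne ev_q1_pos (h1 _) h2)
      · exact dmax_descent i _
    · intro z hz
      rw [repr_gen_mul hT] at hz
      have hor : T.repr h (cs.simple i * z) ≠ 0 ∨ T.repr h z ≠ 0 := by
        by_contra hcon
        push Not at hcon
        rw [hcon.1, hcon.2] at hz
        simp at hz
      rcases hor with h4 | h4
      · have := (BLe.lift i (h3 _ h4)).2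
        rwa [simple_simple] at this
      · exact (BLe.lift i (h3 _ h4)).1

lemma T_wordProd (hT : IsHecke cs T) (ω : List B) (hω : cs.IsReduced ω) :
    T (cs.wordProd ω) = (ω.map (fun i => T (cs.simple i))).prod := by
  induction ω with
  | nil => simp [hT.one]
  | cons i ω ih =>
    have h1 : cs.IsReduced ω := by
      have := hω.drop 1
      simpa using this
    have h2 : cs.length (cs.wordProd ω) < cs.length (cs.simple i * cs.wordProd ω) := by
      have e1 := h1.eq
      have e2 := hω.eq
      rw [cs.wordProd_cons] at e2
      rw [e1, e2]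
      simp
    rw [cs.wordProd_cons, ← hT.mul_lt i _ h2, ih h1, List.map_cons, List.prod_cons]

theorem isLambda_dem (hT : IsHecke cs T) (ω : List B) (hω : cs.IsReduced ω) (y : W) :
    IsLambda cs T (cs.wordProd ω) y (dem cs ω y) := by
  rw [IsLambda, T_wordProd hT ω hω]
  exact (support_aux hT ω y).2

end Pool.Agent.Helper703.KL
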