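import Pool.Agent.Helper703.KL.Data

set_option autoImplicit false

namespace Pool.Agent.Helper703.KL

open Module Pool.Agent.Helper703.Cox

variable {W : Type*} [Group W] {cs : CoxeterSystem affA W}
variable {H : Type*} [Ring H] [Algebra A H] {T C : Basis W A H} {bar : H →+* H}

lemma checks : okWord wx = true ∧ okWord wy = true ∧ wx.length = 27 ∧ wy.length = 32 ∧
    ww.length = 36 ∧ 39 ≤ bub 46 wz.2 ∧ 27 ≤ bub 46 (patOf wx.reverse) ∧
    32 ≤ bub 46 (patOf wy.reverse) ∧ okPath px = true ∧ okPath py = true ∧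
    backOk px (patOf wx) = true ∧ backOk py (patOf wy) = true ∧
    validL px (backRun px (patOf wx)) = true ∧ validL py (backRun py (patOf wy)) = true ∧
    chainOk cyw (patOf wy.reverse) = true ∧ okWord (chainEnd cyw wy) = true ∧
    patOf (chainEnd cyw wy ++ ww.reverse) = List.range 10 := by
  have := c1
  simp only [Bool.and_eq_true, decide_eq_true_iff, and_assoc] at this
  exact this

/-- isLambda of a word -/
lemma word_lambda (hT : IsHecke cs T) (ω : List ℕ) (hω : okWord ω = true) (n : ℕ)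
    (hn : ω.length = n) (hb : n ≤ bub 46 (patOf ω.reverse)) :
    IsLambda cs T (wd cs ω)⁻¹ (wd cs ω) (wd cs (demW ω.reverse (ω, patOf ω.reverse)).1) ∧
    Pat cs (wd cs (demW ω.reverse (ω, patOf ω.reverse)).1)⁻¹
      (demW ω.reverse (ω, patOf ω.reverse)).2 ∧
    okWord (demW ω.reverse (ω, patOf ω.reverse)).1 = true := by
  have hp : Pat cs (wd cs ω)⁻¹ (patOf ω.reverse) := by
    rw [← wd_reverse]
    exact Pat.wd (okWord_reverse hω)
  have hs := demW_spec (cs := cs) ω.reverse (okWord_reverse hω) (ω, patOf ω.reverse) hp hω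
  refine ⟨?_, hs.1, hs.2.1⟩
  rw [hs.2.2, ← wd_reverse]
  apply isLambda_dem hT
  have h1 := bub_le 46 _ _ hp
  have h2 : cs.length (cs.wordProd (ω.reverse.map idx)) ≤ (ω.reverse.map idx).length :=
    cs.length_wordProd_le _
  have h3 : cs.length (cs.wordProd (ω.reverse.map idx)) = cs.length (wd cs ω)⁻¹ := by
    rw [← wd_reverse]; rfl
  have h4 : (ω.reverse.map idx).length = n := by simp [hn]
  show cs.length _ = _
  rw [h4] at h2 ⊢
  omega

lemma shortest_of (hT : IsHecke cs T) (hb : IsBar cs T bar) (hC : IsKLBasis cs T bar C)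
    (ω ks : List ℕ) (n : ℕ) (hω : okWord ω = true) (hn : ω.length = n)
    (hok : okPath ks = true) (hbk : backOk ks (patOf ω) = true)
    (hv : validL ks (backRun ks (patOf ω)) = true)
    (hall : allExt (desAt (backRun ks (patOf ω))) (test n ks (backRun ks (patOf ω))) 10 []
      (List.range 10) = true) : Shortest cs T C (wd cs ω) := by
  intro y hy
  have h1 := cell_bound hT hb hC n ks (patOf ω) hok hbk hv hall (Pat.wd (cs := cs) hω) hy
  have h2 := wd_length_le (cs := cs) ω
  omega

/-- No set `D` satisfies both (i) and (ii) in affine type `A~_9`. -/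
theorem main (hT : IsHecke cs T) (hb : IsBar cs T bar) (hC : IsKLBasis cs T bar C) (D : Set W) :
    ¬ (PartI cs T C D ∧ PartII cs T C D) := by
  rintro ⟨h1, h2⟩
  obtain ⟨k1, k2, k3, k4, k5, k6, k7, k8, k9, k10, k11, k12, k13, k14, k15, k16, k17⟩ := checks
  have sx : Shortest cs T C (wd cs wx) := shortest_of hT hb hC wx px 27 k1 k3 k9 k11 k13 c2
  have sy : Shortest cs T C (wd cs wy) := shortest_of hT hb hC wy py 32 k2 k4 k10 k12 k14 c3
  obtain ⟨lx, -, okw⟩ := word_lambda (cs := cs) hT wx k1 27 k3 k7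
  obtain ⟨ly, pz, -⟩ := word_lambda (cs := cs) hT wy k2 32 k4 k8
  have hD := h1 _ sx _ lx
  have hy : Pat cs (wd cs wy)⁻¹ (patOf wy.reverse) := by
    rw [← wd_reverse]
    exact Pat.wd (okWord_reverse k2)
  have e := chain_sound hT hb hC cyw wy _ hy k15
  rw [wd_eq (cs := cs) k16 okw k17] at e
  have h3 := h2 _ hD _ sy e.symm
  have h4 := (h3.2 _ ly.1).length
  have h5 : cs.length (wd cs ww) ≤ 36 := by
    rw [← k5]; exact wd_length_le ww
  have h6 : 39 ≤ cs.length (wd cs wz.1) := by
    have := bub_le 46 _ _ pz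
    rw [cs.length_inv] at this
    exact le_trans k6 this
  have e1 : wd cs (demW wx.reverse (wx, patOf wx.reverse)).1 = wd cs ww := rfl
  have e2 : wd cs (demW wy.reverse (wy, patOf wy.reverse)).1 = wd cs wz.1 := rfl
  rw [e1, e2] at h4
  rcases h4 with h4 | h4
  · rw [h4] at h6; omega
  · omega

end Pool.Agent.Helper703.KL
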