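import Pool.Agent.Helper703.KL.Lambda

set_option autoImplicit false

namespace Pool.Agent.Helper703.KL

open Module Pool.Agent.Helper703.Cox

/-- index of a generator -/
def idx (n : ℕ) : Fin 10 := Fin.ofNat 10 n

lemma affA_apply (i j : Fin 10) :
    affA i j = if i = j then 1 else if i + 1 = j ∨ j + 1 = i then 3 else 2 := rfl

lemma affA_idx : ∀ l k : Fin 10, 1 ≤ l.val → 1 ≤ k.val →
    (if l = k then 1 else if l + 1 = k ∨ k + 1 = l then 3 else 2) =
    if l.val = k.val then 1 else if l.val + 1 = k.val ∨ k.val + 1 = l.val then 3 else 2 := by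
  decide

lemma cc_affA {l k : ℕ} (hl : 1 ≤ l) (hl' : l ≤ 9) (hk : 1 ≤ k) (hk' : k ≤ 9) :
    2 * cc affA (idx l) (idx k) =
      if l = k then -2 else if l + 1 = k ∨ k + 1 = l then 1 else 0 := by
  have h := affA_idx (idx l) (idx k)
  rw [← affA_apply] at h
  have el : ((idx l : Fin 10) : ℕ) = l := by
    show l % 10 = l
    omega
  have ek : ((idx k : Fin 10) : ℕ) = k := by
    show k % 10 = k
    omega
  rw [el, ek] at h
  have h := h hl hk
  unfold cc
  rw [h]
  split_ifs
  · simp
  · simp only [Nat.cast_ofNat, Real.cos_pi_div_three]; norm_num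
  · simp

variable {W : Type*} [Group W] (cs : CoxeterSystem affA W)

/-- height of the root `w e_n` -/
noncomputable def ht (w : W) (n : ℕ) : ℝ := ∑ l, geo cs w (ee (idx n)) l

variable {cs}

lemma ht_mul (w : W) {n k : ℕ} (hn : 1 ≤ n) (hn' : n ≤ 9) (hk : 1 ≤ k) (hk' : k ≤ 9) :
    ht cs (w * cs.simple (idx k)) n = ht cs w n +
      (if n = k then -2 else if n + 1 = k ∨ k + 1 = n then 1 else 0) * ht cs w k := by
  rw [← cc_affA hn hn' hk hk']
  unfold ht
  rw [map_mul, Module.End.mul_apply, geo_simple, sg_ee, map_add, map_smul]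
  simp only [Pi.add_apply, Pi.smul_apply, smul_eq_mul, Finset.sum_add_distrib, Finset.mul_sum]

lemma ht_one (n : ℕ) : ht cs 1 n = 1 := by
  unfold ht
  rw [map_one]
  simp [ee]

lemma ht_neg_iff (w : W) (n : ℕ) :
    ht cs w n < 0 ↔ cs.length (w * cs.simple (idx n)) < cs.length w := by
  constructor
  · intro h
    by_contra hcon
    have h1 : 0 ≤ geo cs w (ee (idx n)) := by
      rw [geo_nonneg_iff]
      have := cs.length_mul_simple_ne w (idx n)
      omega
    have h2 : 0 ≤ ht cs w n := Finset.sum_nonneg (fun l _ => h1 l)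
    linarith
  · intro h
    have h1 := (geo_nonpos_iff cs w (idx n)).2 h
    have h2 : ∃ l, geo cs w (ee (idx n)) l ≠ 0 := by
      by_contra hcon
      push Not at hcon
      exact geo_ee_ne_zero cs w (idx n) (funext hcon)
    obtain ⟨l, hl⟩ := h2
    exact Finset.sum_neg' (fun l _ => h1 l) ⟨l, Finset.mem_univ _, lt_of_le_of_ne (h1 l) hl⟩

lemma ht_pos_iff (w : W) (n : ℕ) :
    0 < ht cs w n ↔ cs.length w < cs.length (w * cs.simple (idx n)) := by
  constructor
  · intro h
    by_contra hcon
    have h1 := cs.length_mul_simple_ne w (idx n)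
    have := (ht_neg_iff (cs := cs) w n).2 (by omega)
    linarith
  · intro h
    have h1 := (geo_nonneg_iff cs w (idx n)).2 h
    have h2 : ∃ l, geo cs w (ee (idx n)) l ≠ 0 := by
      by_contra hcon
      push Not at hcon
      exact geo_ee_ne_zero cs w (idx n) (funext hcon)
    obtain ⟨l, hl⟩ := h2
    exact Finset.sum_pos' (fun l _ => h1 l) ⟨l, Finset.mem_univ _, lt_of_le_of_ne (h1 l) hl.symm⟩

lemma ht_ne_zero (w : W) (n : ℕ) : ht cs w n ≠ 0 := by
  have h1 := cs.length_mul_simple_ne w (idx n)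
  rcases lt_or_gt_of_ne h1 with h | h
  · exact ((ht_neg_iff w n).2 h).ne
  · exact ((ht_pos_iff w n).2 h).ne'

variable (cs) in
/-- window values -/
noncomputable def win (w : W) (a : ℕ) : ℝ := ∑ l ∈ Finset.range a, ht cs w (l + 1)

lemma win_zero (w : W) : win cs w 0 = 0 := by simp [win]
lemma win_succ (w : W) (a : ℕ) : win cs w (a + 1) = win cs w a + ht cs w (a + 1) := by
  rw [win, Finset.sum_range_succ]; rfl

/-- the transposition of positions `k - 1` and `k` -/
def sw (k a : ℕ) : ℕ := if a + 1 = k then k else if a = k then k - 1 else a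

lemma win_mul (w : W) {k : ℕ} (hk : 1 ≤ k) (hk' : k ≤ 9) :
    ∃ c : ℝ, ∀ a, a ≤ 9 → win cs (w * cs.simple (idx k)) a = win cs w (sw k a) + c := by
  obtain ⟨c, hc⟩ : ∃ c : ℝ, c = if k = 1 then - ht cs w 1 else 0 := ⟨_, rfl⟩
  refine ⟨c, ?_⟩
  intro a
  induction a with
  | zero =>
    intro _
    by_cases h : k = 1
    · have e : sw k 0 = 1 := by rw [sw, if_pos (by omega), h]
      rw [win_zero, e, hc, if_pos h]
      simp [win]
    · have e : sw k 0 = 0 := by rw [sw, if_neg (by omega), if_neg (by omega)]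
      rw [win_zero, e, win_zero, hc, if_neg h, add_zero]
  | succ a ih =>
    intro ha
    have h1 := ih (by omega)
    rw [win_succ, h1, ht_mul w (by omega) ha hk hk']
    obtain ⟨j, rfl⟩ : ∃ j, k = j + 1 := ⟨k - 1, by omega⟩
    by_cases c1 : j = a + 1
    · subst c1
      have e1 : sw (a + 1 + 1) a = a := by rw [sw, if_neg (by omega), if_neg (by omega)]
      have e2 : sw (a + 1 + 1) (a + 1) = a + 2 := by rw [sw, if_pos (by omega)]
      rw [e1, e2, if_neg (by omega), if_pos (by omega), win_succ w (a + 1), win_succ w a]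
      ring
    · by_cases c2 : j = a
      · subst c2
        have e1 : sw (j + 1) j = j + 1 := by rw [sw, if_pos (by omega)]
        have e2 : sw (j + 1) (j + 1) = j := by
          rw [sw, if_neg (by omega), if_pos rfl, Nat.add_sub_cancel]
        rw [e1, e2, if_pos rfl, win_succ w j]
        ring
      · by_cases c3 : a = j + 1
        · subst c3
          have e1 : sw (j + 1) (j + 1) = j := by
            rw [sw, if_neg (by omega), if_pos rfl, Nat.add_sub_cancel]
          have e2 : sw (j + 1) (j + 1 + 1) = j + 2 := by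
            rw [sw, if_neg (by omega), if_neg (by omega)]
          rw [e1, e2, if_neg (by omega), if_pos (by omega), win_succ w (j + 1), win_succ w j]
          ring
        · have e1 : sw (j + 1) a = a := by rw [sw, if_neg (by omega), if_neg (by omega)]
          have e2 : sw (j + 1) (a + 1) = a + 1 := by
            rw [sw, if_neg (by omega), if_neg (by omega)]
          rw [e1, e2, if_neg (by omega), if_neg (by omega), win_succ w a]
          ring

lemma win_ne (n : ℕ) : ∀ (w : W) (a b : ℕ), b = a + 1 + n → b ≤ 9 → win cs w a ≠ win cs w b := by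
  induction n with
  | zero =>
    intro w a b hb _
    subst hb
    rw [add_zero, win_succ]
    intro h
    exact ht_ne_zero (cs := cs) w (a + 1) (by linarith)
  | succ n ih =>
    intro w a b hb hb9 h
    obtain ⟨c, hc⟩ := win_mul (cs := cs) w (k := b) (by omega) hb9
    have h1 := hc a (by omega)
    have h2 := hc (b - 1) (by omega)
    have e1 : sw b a = a := by rw [sw, if_neg (by omega), if_neg (by omega)]
    have e2 : sw b (b - 1) = b := by rw [sw, if_pos (by omega)]
    rw [e1] at h1
    rw [e2] at h2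
    exact ih (w * cs.simple (idx b)) a (b - 1) (by omega) (by omega) (by rw [h1, h2, h])

/-- `ρ` is the pattern of the window of `w`. -/
def Pat (cs : CoxeterSystem affA W) (w : W) (ρ : List ℕ) : Prop :=
  ρ.length = 10 ∧ ∀ a b, a ≤ 9 → b ≤ 9 → (win cs w a < win cs w b ↔ ρ.getD a 0 < ρ.getD b 0)

/-- exchange positions `k - 1` and `k` -/
def swapAt (k : ℕ) (ρ : List ℕ) : List ℕ :=
  (ρ.set (k - 1) (ρ.getD k 0)).set k (ρ.getD (k - 1) 0)

lemma swapAt_length (k : ℕ) (ρ : List ℕ) : (swapAt k ρ).length = ρ.length := by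
  simp [swapAt]

lemma swapAt_getD {k : ℕ} (hk : 1 ≤ k) (hk' : k ≤ 9) {ρ : List ℕ} (hρ : ρ.length = 10) {a : ℕ}
    (ha : a ≤ 9) : (swapAt k ρ).getD a 0 = ρ.getD (sw k a) 0 := by
  unfold swapAt sw
  simp only [List.getD_eq_getElem?_getD, List.getElem?_set, List.length_set, hρ]
  by_cases h1 : a + 1 = k
  · have h2 : ¬ k = a := by omega
    have h3 : k - 1 = a := by omega
    simp [h1, h2, h3, show a < 10 by omega]
  · by_cases h2 : a = k
    · subst h2
      simp [show a < 10 by omega]
    · have h3 : ¬ k = a := fun h => h2 h.symm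
      have h4 : ¬ k - 1 = a := by omega
      simp [h1, h2, h3, h4]

lemma sw_le {k a : ℕ} (hk' : k ≤ 9) (ha : a ≤ 9) : sw k a ≤ 9 := by
  unfold sw
  split_ifs <;> omega

lemma Pat.swap {w : W} {ρ : List ℕ} (h : Pat cs w ρ) {k : ℕ} (hk : 1 ≤ k) (hk' : k ≤ 9) :
    Pat cs (w * cs.simple (idx k)) (swapAt k ρ) := by
  refine ⟨by rw [swapAt_length, h.1], ?_⟩
  intro a b ha hb
  obtain ⟨c, hc⟩ := win_mul (cs := cs) w hk hk'
  rw [hc a ha, hc b hb, swapAt_getD hk hk' h.1 ha, swapAt_getD hk hk' h.1 hb,
    ← h.2 _ _ (sw_le hk' ha) (sw_le hk' hb)]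
  constructor <;> intro h <;> linarith

lemma win_one (a : ℕ) : win cs 1 a = a := by
  simp [win, ht_one]

lemma Pat.one : Pat cs 1 (List.range 10) := by
  refine ⟨by simp, ?_⟩
  intro a b ha hb
  rw [win_one, win_one]
  have h : ∀ a, a ≤ 9 → (List.range 10).getD a 0 = a := by
    intro a ha
    simp [List.getD_eq_getElem?_getD, show a < 10 by omega]
  rw [h a ha, h b hb]
  exact Nat.cast_lt

/-- descent test -/
def desAt (ρ : List ℕ) (k : ℕ) : Bool := decide (ρ.getD k 0 < ρ.getD (k - 1) 0)

lemma Pat.des {w : W} {ρ : List ℕ} (h : Pat cs w ρ) {k : ℕ} (hk : 1 ≤ k) (hk' : k ≤ 9) :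
    desAt ρ k = true ↔ cs.length (w * cs.simple (idx k)) < cs.length w := by
  rw [desAt, decide_eq_true_iff, ← h.2 k (k - 1) hk' (by omega), ← ht_neg_iff]
  obtain ⟨j, rfl⟩ : ∃ j, k = j + 1 := ⟨k - 1, by omega⟩
  simp only [Nat.add_sub_cancel]
  rw [win_succ]
  constructor <;> intro h <;> linarith

lemma Pat.not_des {w : W} {ρ : List ℕ} (h : Pat cs w ρ) {k : ℕ} (hk : 1 ≤ k) (hk' : k ≤ 9) :
    desAt ρ k = false ↔ cs.length w < cs.length (w * cs.simple (idx k)) := by
  have h1 := h.des hk hk'
  have h2 := cs.length_mul_simple_ne w (idx k)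
  cases h3 : desAt ρ k
  · simp only [true_iff]
    rw [h3] at h1
    simp only [Bool.false_eq_true, false_iff] at h1
    omega
  · rw [h3] at h1
    simp only [Bool.true_eq_false, false_iff]
    have := h1.1 rfl
    omega

lemma exists_pat (w : W) : ∃ ρ : List ℕ, Pat cs w ρ ∧ ρ.Perm (List.range 10) := by
  classical
  let P : Fin 10 → ℝ := fun a => win cs w a
  have hP : Function.Injective P := by
    intro a b hab
    by_contra hne
    rcases lt_or_gt_of_ne (fun h => hne (Fin.ext h)) with h | h
    · exact win_ne (cs := cs) (b - a - 1) w a b (by omega) (by omega) hab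
    · exact win_ne (cs := cs) (a - b - 1) w b a (by omega) (by omega) hab.symm
  let S := Finset.univ.image P
  have hS : S.card = 10 := by
    rw [Finset.card_image_of_injective _ hP]; simp
  let e := S.orderIsoOfFin hS
  let r : Fin 10 → Fin 10 := fun a => e.symm ⟨P a, Finset.mem_image_of_mem P (Finset.mem_univ a)⟩
  have hr : ∀ a b, r a < r b ↔ P a < P b := by
    intro a b
    rw [OrderIso.lt_iff_lt]
    exact Iff.rfl
  have hinj : Function.Injective r := by
    intro a b hab
    apply hP
    by_contra hne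
    rcases lt_or_gt_of_ne hne with h | h
    · have := (hr a b).2 h
      rw [hab] at this
      exact lt_irrefl _ this
    · have := (hr b a).2 h
      rw [hab] at this
      exact lt_irrefl _ this
  let σ : Equiv.Perm (Fin 10) := Equiv.ofBijective r (Finite.injective_iff_bijective.1 hinj)
  refine ⟨List.ofFn (fun a => ((σ a : Fin 10) : ℕ)), ⟨by simp, ?_⟩, ?_⟩
  · intro a b ha hb
    have h1 : ∀ a (ha : a ≤ 9), (List.ofFn (fun a => ((σ a : Fin 10) : ℕ))).getD a 0
        = (σ ⟨a, by omega⟩ : ℕ) := by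
      intro a ha
      rw [List.getD_eq_getElem?_getD, List.getElem?_ofFn, dif_pos (by omega)]
      rfl
    rw [h1 a ha, h1 b hb]
    exact (hr ⟨a, by omega⟩ ⟨b, by omega⟩).symm
  · have := Equiv.Perm.ofFn_comp_perm σ (fun a : Fin 10 => (a : ℕ))
    refine this.trans ?_
    have : List.ofFn (fun a : Fin 10 => (a : ℕ)) = List.range 10 := by decide
    rw [this]

end Pool.Agent.Helper703.KL
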