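import Pool.Agent.Helper703.KL.Comb

set_option autoImplicit false

namespace Pool.Agent.Helper703.KL

open Module Pool.Agent.Helper703.Cox

variable {W : Type*} [Group W] {cs : CoxeterSystem affA W}

variable (cs) in
/-- the element given by a word in the generators `1, …, 9` -/
def wd (ω : List ℕ) : W := cs.wordProd (ω.map idx)

lemma wd_nil : wd cs [] = 1 := by simp [wd]
lemma wd_cons (k : ℕ) (ω : List ℕ) : wd cs (k :: ω) = cs.simple (idx k) * wd cs ω := by
  simp [wd, cs.wordProd_cons]
lemma wd_append (ω ω' : List ℕ) : wd cs (ω ++ ω') = wd cs ω * wd cs ω' := by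
  simp [wd, cs.wordProd_append]
lemma wd_reverse (ω : List ℕ) : wd cs ω.reverse = (wd cs ω)⁻¹ := by
  simp [wd, List.map_reverse, cs.wordProd_reverse]
lemma wd_length_le (ω : List ℕ) : cs.length (wd cs ω) ≤ ω.length := by
  have := cs.length_wordProd_le (ω.map idx)
  simpa [wd] using this

/-- letters between 1 and 9 -/
def okWord (ω : List ℕ) : Bool := ω.all (fun k => decide (1 ≤ k) && decide (k ≤ 9))

lemma okWord_cons {k : ℕ} {ω : List ℕ} (h : okWord (k :: ω) = true) :
    (1 ≤ k ∧ k ≤ 9) ∧ okWord ω = true := by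
  unfold okWord at h ⊢
  simpa using h

lemma okWord_append {ω ω' : List ℕ} (h : okWord ω = true) (h' : okWord ω' = true) :
    okWord (ω ++ ω') = true := by
  unfold okWord at *
  rw [List.all_append, h, h']; rfl

lemma okWord_reverse {ω : List ℕ} (h : okWord ω = true) : okWord ω.reverse = true := by
  unfold okWord at *
  rw [List.all_reverse]; exact h

/-- multiply a pattern on the right by a word -/
def mulR (ρ : List ℕ) : List ℕ → List ℕ
  | [] => ρ
  | k :: ω => mulR (swapAt k ρ) ω

lemma Pat.mulR (ω : List ℕ) : ∀ {w : W} {ρ : List ℕ}, Pat cs w ρ → okWord ω = true →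
    Pat cs (w * wd cs ω) (KL.mulR ρ ω) := by
  induction ω with
  | nil => intro w ρ h _; simpa [wd_nil, KL.mulR] using h
  | cons k ω ih =>
    intro w ρ h hok
    have h1 := okWord_cons hok
    rw [wd_cons, ← mul_assoc]
    exact ih (h.swap h1.1.1 h1.1.2) h1.2

/-- pattern of a word -/
def patOf (ω : List ℕ) : List ℕ := mulR (List.range 10) ω

lemma Pat.wd {ω : List ℕ} (h : okWord ω = true) : Pat cs (wd cs ω) (patOf ω) := by
  have := Pat.mulR (cs := cs) ω (Pat.one (cs := cs)) h
  rwa [one_mul] at this

lemma geo_zero_coord (ω : List ℕ) (hω : okWord ω = true) (x : Fin 10 → ℝ) :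
    geo cs (wd cs ω) x 0 = x 0 := by
  induction ω with
  | nil => simp [wd_nil]
  | cons k ω ih =>
    have h1 := okWord_cons hω
    rw [wd_cons, map_mul, Module.End.mul_apply, geo_simple, sg_apply, Pi.sub_apply, Pi.smul_apply,
      ih h1.2]
    have : (ee (idx k) : Fin 10 → ℝ) 0 = 0 := by
      have hne : (0 : Fin 10) ≠ idx k := by
        have : ∀ k, 1 ≤ k → k ≤ 9 → (0 : Fin 10) ≠ idx k := by
          intro k hk hk'
          interval_cases k <;> decide
        exact this k h1.1.1 h1.1.2
      simp [ee, hne]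
    rw [this]
    simp

lemma eq_one_of_pat {ω : List ℕ} (hω : okWord ω = true) (h : patOf ω = List.range 10) :
    wd cs ω = 1 := by
  have hp := Pat.wd (cs := cs) hω
  rw [h] at hp
  by_contra hne
  obtain ⟨i, hi⟩ := cs.exists_rightDescent_of_ne_one hne
  by_cases hi0 : i = 0
  · subst hi0
    have h1 := (geo_nonpos_iff cs (wd cs ω) 0).2 hi
    have h2 := h1 0
    rw [geo_zero_coord ω hω] at h2
    simp [ee] at h2
    norm_num at h2
  · obtain ⟨k, hk, hk', rfl⟩ : ∃ k, 1 ≤ k ∧ k ≤ 9 ∧ i = idx k := by
      refine ⟨i, ?_, by omega, ?_⟩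
      · rcases Nat.eq_zero_or_pos (i : ℕ) with h | h
        · exact absurd (Fin.ext h) hi0
        · exact h
      · apply Fin.ext
        show (i : ℕ) = i % 10
        omega
    have h1 := (hp.des hk hk').2 hi
    have h2 : ∀ k, 1 ≤ k → k ≤ 9 → desAt (List.range 10) k = false := by
      intro k hk hk'
      interval_cases k <;> decide
    rw [h2 k hk hk'] at h1
    exact absurd h1 (by decide)

lemma wd_eq {ω ω' : List ℕ} (hω : okWord ω = true) (hω' : okWord ω' = true)
    (h : patOf (ω ++ ω'.reverse) = List.range 10) : wd cs ω = wd cs ω' := by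
  have := eq_one_of_pat (cs := cs) (okWord_append hω (okWord_reverse hω')) h
  rw [wd_append, wd_reverse, mul_inv_eq_one] at this
  exact this

/-- Demazure product on words, together with the pattern of the inverse -/
def demW : List ℕ → List ℕ × List ℕ → List ℕ × List ℕ
  | [], y => y
  | k :: ω, y =>
    if desAt (demW ω y).2 k then demW ω y else (k :: (demW ω y).1, swapAt k (demW ω y).2)

lemma demW_spec (ω : List ℕ) (hω : okWord ω = true) (y : List ℕ × List ℕ)
    (hy : Pat cs (wd cs y.1)⁻¹ y.2) (hy' : okWord y.1 = true) :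
    Pat cs (wd cs (demW ω y).1)⁻¹ (demW ω y).2 ∧ okWord (demW ω y).1 = true ∧
      wd cs (demW ω y).1 = dem cs (ω.map idx) (wd cs y.1) := by
  induction ω with
  | nil => exact ⟨hy, hy', rfl⟩
  | cons k ω ih =>
    have h1 := okWord_cons hω
    obtain ⟨i1, i2, i3⟩ := ih h1.2
    have e : dem cs ((k :: ω).map idx) (wd cs y.1) = dmax cs (idx k) (wd cs (demW ω y).1) := by
      rw [i3]; rfl
    have hlen : cs.length (cs.simple (idx k) * wd cs (demW ω y).1)
        = cs.length ((wd cs (demW ω y).1)⁻¹ * cs.simple (idx k)) := by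
      rw [← cs.length_inv, mul_inv_rev, cs.inv_simple]
    unfold demW
    split_ifs with hd
    · refine ⟨i1, i2, ?_⟩
      rw [e, dmax, if_neg]
      have := (i1.des h1.1.1 h1.1.2).1 hd
      rw [cs.length_inv] at this
      omega
    · have hd' : desAt (demW ω y).2 k = false := by simpa using hd
      have := (i1.not_des h1.1.1 h1.1.2).1 hd'
      rw [cs.length_inv] at this
      refine ⟨?_, ?_, ?_⟩
      · simp only
        rw [wd_cons, mul_inv_rev, cs.inv_simple]
        exact i1.swap h1.1.1 h1.1.2
      · simp only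
        unfold okWord at i2 ⊢
        rw [List.all_cons, i2]
        simp [h1.1.1, h1.1.2]
      · simp only
        rw [wd_cons, e, dmax, if_pos]
        omega

section cells

variable {H : Type*} [Ring H] [Algebra A H] {T C : Basis W A H} {bar : H →+* H}

/-- a chain of left star operations, in terms of patterns of inverses -/
def chainOk : List (ℕ × ℕ) → List ℕ → Bool
  | [], _ => true
  | (k, k') :: ks, ρ =>
    decide (1 ≤ k) && decide (k ≤ 9) && decide (1 ≤ k') && decide (k' ≤ 9) &&
    (if desAt ρ k then desAt (swapAt k ρ) k' && !(desAt ρ k')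
      else desAt ρ k' && !(desAt (swapAt k ρ) k')) && chainOk ks (swapAt k ρ)

/-- the word of the end of the chain -/
def chainEnd : List (ℕ × ℕ) → List ℕ → List ℕ
  | [], ω => ω
  | (k, _) :: ks, ω => chainEnd ks (k :: ω)

lemma chain_sound (hT : IsHecke cs T) (hb : IsBar cs T bar) (hC : IsKLBasis cs T bar C)
    (ks : List (ℕ × ℕ)) : ∀ (ω ρ : List ℕ), Pat cs (wd cs ω)⁻¹ ρ → chainOk ks ρ = true →
    LEq cs T C (wd cs (chainEnd ks ω)) (wd cs ω) := by
  induction ks with
  | nil => intro ω ρ _ _; exact LEq.refl _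
  | cons p ks ih =>
    obtain ⟨k, k'⟩ := p
    intro ω ρ hρ h
    unfold chainOk at h
    simp only [Bool.and_eq_true, decide_eq_true_iff] at h
    obtain ⟨⟨⟨⟨⟨hk, hk9⟩, hk'⟩, hk9'⟩, hd⟩, hrest⟩ := h
    have hρ' : Pat cs (wd cs (k :: ω))⁻¹ (swapAt k ρ) := by
      rw [wd_cons, mul_inv_rev, cs.inv_simple]
      exact hρ.swap hk hk9
    have h1 := ih (k :: ω) _ hρ' hrest
    have conv : ∀ (u : W) (j : ℕ), cs.length (u⁻¹ * cs.simple (idx j))
        = cs.length (cs.simple (idx j) * u) := by
      intro u j
      rw [length_simple_mul_inv]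
    refine LEq.trans h1 ?_
    rw [wd_cons]
    cases hdk : desAt ρ k
    · rw [hdk] at hd
      simp only [Bool.false_eq_true, if_false, Bool.and_eq_true, Bool.not_eq_true'] at hd
      have a1 := (hρ.not_des hk hk9).1 hdk
      have a2 := (hρ.des hk' hk9').1 hd.1
      have a3 := (hρ'.not_des hk' hk9').1 hd.2
      rw [conv, cs.length_inv] at a1 a2 a3
      rw [wd_cons] at a3
      exact LEq.left_star hT hb hC a1 a2 a3
    · rw [hdk] at hd
      simp only [if_true, Bool.and_eq_true, Bool.not_eq_true'] at hd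
      have a1 := (hρ.des hk hk9).1 hdk
      have a2 := (hρ'.des hk' hk9').1 hd.1
      have a3 := (hρ.not_des hk' hk9').1 hd.2
      rw [conv, cs.length_inv] at a1 a2 a3
      rw [wd_cons] at a2
      have := LEq.left_star hT hb hC (k := idx k) (k' := idx k')
        (u := cs.simple (idx k) * wd cs ω) (by rw [simple_simple]; exact a1) a2
        (by rw [simple_simple]; exact a3)
      rw [simple_simple] at this
      exact this.symm

end cells

end Pool.Agent.Helper703.KL
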